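import Mathlib

/-! Polynomials of degree `n` which alternate `≍ log n` times on the logarithmic scale. -/

open Polynomial

namespace Pool.Agent.K9h2.LI

/-- `X - X ^ B + X ^ (B ^ 2) - ...` -/
noncomputable def alt (B : ℕ) : ℕ → ℝ[X]
  | 0 => X
  | M + 1 => X - (alt B M).comp (X ^ B)

/-- `1, 0, 1, 0, ...` -/
def sg : ℕ → ℝ
  | 0 => 1
  | j + 1 => 1 - sg j

lemma sg_cases (j : ℕ) : (sg j = 1 ∧ sg (j + 1) = 0) ∨ (sg j = 0 ∧ sg (j + 1) = 1) := by
  induction j with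
  | zero => left; simp [sg]
  | succ j ih =>
    rcases ih with ⟨h1, h2⟩ | ⟨h1, h2⟩
    · right
      refine ⟨h2, ?_⟩
      change 1 - sg (j + 1) = 1
      rw [h2]; norm_num
    · left
      refine ⟨h2, ?_⟩
      change 1 - sg (j + 1) = 0
      rw [h2]; norm_num

lemma alt_natDegree {B : ℕ} (hB : 1 ≤ B) (M : ℕ) : (alt B M).natDegree ≤ B ^ M := by
  induction M with
  | zero => simp [alt]
  | succ M ih =>
    unfold alt
    refine (natDegree_sub_le _ _).trans (max_le ?_ ?_)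
    · rw [natDegree_X]
      exact Nat.one_le_pow _ _ hB
    · refine natDegree_comp_le.trans ?_
      rw [natDegree_X_pow, pow_succ]
      exact Nat.mul_le_mul_right _ ih

lemma alt_eval_succ (B M : ℕ) (y : ℝ) :
    (alt B (M + 1)).eval y = y - (alt B M).eval (y ^ B) := by
  simp [alt, eval_comp]

lemma alt_mem {B : ℕ} (hB : 1 ≤ B) (M : ℕ) : ∀ y : ℝ, 0 ≤ y → y ≤ 1 →
    0 ≤ (alt B M).eval y ∧ (alt B M).eval y ≤ y := by
  induction M with
  | zero => intro y h0 h1; simp [alt, h0]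
  | succ M ih =>
    intro y h0 h1
    have h2 : y ^ B ≤ y := by
      simpa using pow_le_pow_of_le_one h0 h1 hB
    have h3 := ih (y ^ B) (by positivity) (pow_le_one₀ h0 h1)
    rw [alt_eval_succ]
    constructor <;> linarith

lemma bern {B : ℕ} {y : ℝ} (h0 : 0 ≤ y) : 1 - y ^ B ≤ B * (1 - y) := by
  have := one_add_mul_le_pow (show (-2:ℝ) ≤ y - 1 by linarith) B
  have e : (1 + (y - 1)) = y := by ring
  rw [e] at this
  linarith

lemma plateau {B : ℕ} (hB : 2 ≤ B) (j : ℕ) : ∀ M, j ≤ M → ∀ y : ℝ, 0 ≤ y → y ≤ 1 →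
    |(alt B M).eval y - sg j| ≤ y ^ (B ^ (j + 1)) + (2 * (B:ℝ) ^ j - 1) * (1 - y) := by
  have hB' : (2:ℝ) ≤ B := by exact_mod_cast hB
  induction j with
  | zero =>
    intro M _ y h0 h1
    have hy : 0 ≤ y ^ B := by positivity
    rcases M with _ | M
    · simp only [alt, eval_X, sg, zero_add, pow_one, pow_zero]
      rw [abs_of_nonpos (by linarith)]
      linarith
    · rw [alt_eval_succ]
      have h3 := alt_mem (B := B) (by omega) M (y ^ B) hy (pow_le_one₀ h0 h1)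
      simp only [sg, zero_add, pow_one, pow_zero]
      rw [abs_le]
      constructor <;> linarith
  | succ j ih =>
    intro M hM y h0 h1
    obtain ⟨M, rfl⟩ : ∃ M', M = M' + 1 := ⟨M - 1, by omega⟩
    have h2 := ih M (by omega) (y ^ B) (by positivity) (pow_le_one₀ h0 h1)
    rw [alt_eval_succ]
    have e1 : (y ^ B) ^ (B ^ (j + 1)) = y ^ (B ^ (j + 1 + 1)) := by
      rw [← pow_mul, pow_succ B (j + 1), mul_comm]
    rw [e1] at h2
    have h3 := bern (B := B) h0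
    have h4 : 1 ≤ (B:ℝ) ^ j := one_le_pow₀ (by linarith)
    have h5 : (2 * (B:ℝ) ^ j - 1) * (1 - y ^ B) ≤ (2 * (B:ℝ) ^ j - 1) * (B * (1 - y)) :=
      mul_le_mul_of_nonneg_left h3 (by linarith)
    have e2 : y - (alt B M).eval (y ^ B) - sg (j + 1) = -(1 - y) - ((alt B M).eval (y ^ B) - sg j) := by
      simp only [sg]; ring
    rw [e2]
    have h6 : |-(1 - y) - ((alt B M).eval (y ^ B) - sg j)| ≤
        (1 - y) + |(alt B M).eval (y ^ B) - sg j| := by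
      refine (abs_sub _ _).trans ?_
      rw [abs_neg, abs_of_nonneg (by linarith)]
    have h7 : (2 * (B:ℝ) ^ j - 1) * (B * (1 - y)) + (1 - y) ≤
        (2 * (B:ℝ) ^ (j + 1) - 1) * (1 - y) := by
      rw [pow_succ]
      nlinarith [mul_nonneg (show 0 ≤ (B:ℝ) - 2 by linarith) (show 0 ≤ 1 - y by linarith)]
    linarith

/-- the radii -/
noncomputable def rad (j : ℕ) : ℝ := (1 / 2) ^ (5 + 15 * j)

lemma rad_pos (j : ℕ) : 0 < rad j := by unfold rad; positivity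

lemma rad_lt (j : ℕ) : rad (j + 1) < rad j := by
  unfold rad
  exact pow_lt_pow_right_of_lt_one₀ (by norm_num) (by norm_num) (by omega)

lemma rad_le (j : ℕ) : 2 * rad j ≤ 1 := by
  have : rad j ≤ (1 / 2) ^ 1 := by
    unfold rad
    exact pow_le_pow_of_le_one (by norm_num) (by norm_num) (by omega)
  linarith

lemma rad_sq (j : ℕ) : rad j ^ 2 * ((2:ℝ) ^ 30) ^ j = 1 / 1024 := by
  unfold rad
  rw [← pow_mul, ← pow_mul, show (5 + 15 * j) * 2 = 10 + 30 * j by ring, pow_add, mul_assoc,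
    ← mul_pow]
  norm_num

/-- the polynomial `alt` in the variable `1 - x²` -/
noncomputable def wav (M : ℕ) : ℝ[X] := (alt (2 ^ 30) M).comp (1 - X ^ 2)

lemma wav_natDegree (M : ℕ) : (wav M).natDegree ≤ 2 ^ (30 * M + 1) := by
  unfold wav
  refine natDegree_comp_le.trans ?_
  have h1 : (1 - X ^ 2 : ℝ[X]).natDegree ≤ 2 := by
    refine (natDegree_sub_le _ _).trans ?_
    simp
  have h2 := alt_natDegree (B := 2 ^ 30) (Nat.one_le_two_pow) M
  calc (alt (2 ^ 30) M).natDegree * (1 - X ^ 2 : ℝ[X]).natDegree ≤ (2 ^ 30) ^ M * 2 :=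
        Nat.mul_le_mul h2 h1
    _ = 2 ^ (30 * M + 1) := by rw [← pow_mul, pow_succ]

lemma wav_eval (M : ℕ) (x : ℝ) : (wav M).eval x = (alt (2 ^ 30) M).eval (1 - x ^ 2) := by
  simp [wav, eval_comp]

lemma wav_mem (M : ℕ) {x : ℝ} (hx : |x| ≤ 1) : 0 ≤ (wav M).eval x ∧ (wav M).eval x ≤ 1 := by
  have h1 : x ^ 2 ≤ 1 := by
    rw [← sq_abs]
    nlinarith [abs_nonneg x]
  have h2 := sq_nonneg x
  have := alt_mem (B := 2 ^ 30) (Nat.one_le_two_pow) M (1 - x ^ 2) (by linarith) (by linarith)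
  rw [wav_eval]
  exact ⟨this.1, by linarith [this.2]⟩

lemma wav_near {M j : ℕ} (hj : j ≤ M) {x : ℝ} (h1 : rad j / 512 ≤ |x|) (h2 : |x| ≤ 2 * rad j) :
    |(wav M).eval x - sg j| ≤ 1 / 20 := by
  have hr := rad_pos j
  have hr1 := rad_le j
  have hr2 := rad_sq j
  have hx : |x| ≤ 1 := h2.trans hr1
  have hx1 : x ^ 2 ≤ 1 := by
    rw [← sq_abs]
    nlinarith [abs_nonneg x]
  have hx2 := sq_nonneg x
  have hP : (1:ℝ) ≤ (2 ^ 30) ^ j := one_le_pow₀ (by norm_num)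
  rw [wav_eval]
  refine (plateau (B := 2 ^ 30) (by norm_num) j M hj (1 - x ^ 2) (by linarith) (by linarith)).trans
    ?_
  -- second term
  have h3 : x ^ 2 ≤ 4 * rad j ^ 2 := by
    rw [← sq_abs]
    nlinarith [abs_nonneg x]
  have h4 : (2 * (((2:ℕ) ^ 30 : ℕ) : ℝ) ^ j - 1) * (1 - (1 - x ^ 2)) ≤ 1 / 128 := by
    push_cast
    have : (2 * ((2:ℝ) ^ 30) ^ j - 1) * x ^ 2 ≤ (2 * ((2:ℝ) ^ 30) ^ j) * (4 * rad j ^ 2) :=
      mul_le_mul (by linarith) h3 hx2 (by linarith)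
    have e : (2 * ((2:ℝ) ^ 30) ^ j) * (4 * rad j ^ 2) = 8 * (rad j ^ 2 * ((2:ℝ) ^ 30) ^ j) := by
      ring
    rw [e, hr2] at this
    have e2 : (1 - (1 - x ^ 2)) = x ^ 2 := by ring
    rw [e2]
    linarith
  -- first term
  have h5 : rad j ^ 2 / 512 ^ 2 ≤ x ^ 2 := by
    rw [← sq_abs x, ← div_pow]
    exact pow_le_pow_left₀ (by positivity) h1 2
  have h6 : (1 - x ^ 2) ^ ((2 ^ 30) ^ (j + 1)) ≤ Real.exp (-4) := by
    have e1 : 1 - x ^ 2 ≤ Real.exp (-x ^ 2) := by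
      have := Real.add_one_le_exp (-x ^ 2)
      linarith
    have e2 : (1 - x ^ 2) ^ ((2 ^ 30) ^ (j + 1)) ≤ Real.exp (-x ^ 2) ^ ((2 ^ 30) ^ (j + 1)) :=
      pow_le_pow_left₀ (by linarith) e1 _
    refine e2.trans ?_
    rw [← Real.exp_nat_mul]
    apply Real.exp_le_exp.2
    push_cast
    have e3 : rad j ^ 2 / 512 ^ 2 * ((2:ℝ) ^ 30) ^ (j + 1) ≤ x ^ 2 * ((2:ℝ) ^ 30) ^ (j + 1) :=
      mul_le_mul_of_nonneg_right h5 (by positivity)
    have e4 : rad j ^ 2 / 512 ^ 2 * ((2:ℝ) ^ 30) ^ (j + 1) =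
        (rad j ^ 2 * ((2:ℝ) ^ 30) ^ j) * (2 ^ 30 / 512 ^ 2) := by
      rw [pow_succ]; ring
    rw [e4, hr2] at e3
    norm_num at e3 ⊢
    linarith
  have h7 : Real.exp (-4) ≤ 1 / 50 := by
    have e1 : Real.exp (-4) = (Real.exp 1 ^ 4)⁻¹ := by
      rw [← Real.exp_nat_mul, ← Real.exp_neg]; norm_num
    rw [e1, one_div]
    apply inv_anti₀ (by norm_num)
    have h8 : (2.7:ℝ) ≤ Real.exp 1 := by linarith [Real.exp_one_gt_d9]
    have h9 : (2.7:ℝ) ^ 4 ≤ Real.exp 1 ^ 4 := pow_le_pow_left₀ (by norm_num) h8 4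
    norm_num at h9 ⊢
    linarith
  refine (add_le_add (h6.trans h7) h4).trans ?_
  norm_num

end Pool.Agent.K9h2.LI
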