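import Mathlib

/-! Arcs of solutions of `x' = v`, `v' = -g(x) - h(x) v` over the `x`-axis and their comparison. -/

open Set Filter Topology

namespace Pool.Agent.K9h2.LI

/-- a restoring force: `x g(x) > 0` for `x ≠ 0` -/
structure Rest (g : ℝ → ℝ) : Prop where
  cont : Continuous g
  neg : ∀ x, x < 0 → g x < 0
  pos : ∀ x, 0 < x → 0 < g x

lemma Rest.refl {g : ℝ → ℝ} (hg : Rest g) : Rest fun x => -g (-x) where
  cont := (hg.cont.comp continuous_neg).neg
  neg := fun x hx => by linarith [hg.pos (-x) (by linarith)]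
  pos := fun x hx => by linarith [hg.neg (-x) (by linarith)]

/-- an upper arc over `[l, r]`: `U` solves `U U' = -g(x) - h(x) U`, vanishes at the ends -/
structure Arc (g h : ℝ → ℝ) (l r : ℝ) (U : ℝ → ℝ) : Prop where
  hl : l < 0
  hr : 0 < r
  cont : ContinuousOn U (Icc l r)
  left : U l = 0
  right : U r = 0
  pos : ∀ x ∈ Ioo l r, 0 < U x
  der : ∀ x ∈ Ioo l r, HasDerivAt U (-(h x) - g x / U x) x

lemma Arc.refl {g h : ℝ → ℝ} {l r : ℝ} {U : ℝ → ℝ} (A : Arc g h l r U) :
    Arc (fun x => -g (-x)) (fun x => -h (-x)) (-r) (-l) (fun x => U (-x)) where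
  hl := by linarith [A.hr]
  hr := by linarith [A.hl]
  cont := by
    refine A.cont.comp continuous_neg.continuousOn ?_
    intro x hx
    exact ⟨by linarith [hx.2], by linarith [hx.1]⟩
  left := by simpa using A.right
  right := by simpa using A.left
  pos := fun x hx => A.pos _ ⟨by linarith [hx.2], by linarith [hx.1]⟩
  der := fun x hx => by
    have h1 := A.der (-x) ⟨by linarith [hx.2], by linarith [hx.1]⟩
    have h2 := HasDerivAt.comp x (h₂ := U) h1 (hasDerivAt_neg x)
    have h3 : (-(h (-x)) - g (-x) / U (-x)) * (-1) = -(-h (-x)) - (-g (-x)) / U (-x) := by ring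
    rw [h3] at h2
    exact h2

/-- linear differential inequality, to the left -/
lemma lin {D κ s : ℝ → ℝ} {p q : ℝ} (hpq : p ≤ q)
    (hD : ∀ x ∈ Icc p q, HasDerivAt D (κ x * D x + s x) x) (hκ : ContinuousOn κ (Icc p q))
    (hs : ∀ x ∈ Icc p q, 0 ≤ s x) : ∃ c : ℝ, 0 < c ∧ D p ≤ c * D q := by
  set κ' : ℝ → ℝ := IccExtend hpq ((Icc p q).domRestrict κ) with hκ'
  have hc : Continuous κ' := by
    refine Continuous.Icc_extend' ?_
    exact continuousOn_iff_continuous_domRestrict.1 hκ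
  have heq : ∀ x ∈ Icc p q, κ' x = κ x := by
    intro x hx
    rw [hκ', IccExtend_of_mem hpq _ hx]
    rfl
  set K : ℝ → ℝ := fun x => ∫ t in p..x, κ' t with hK
  have hKd : ∀ x, HasDerivAt K (κ' x) x := fun x => (hc.integral_hasStrictDerivAt p x).hasDerivAt
  have hKp : K p = 0 := by simp [hK]
  set E : ℝ → ℝ := fun x => D x * Real.exp (-K x) with hE
  have hEd : ∀ x ∈ Icc p q, HasDerivAt E (s x * Real.exp (-K x)) x := by
    intro x hx
    have h1 := (hD x hx).mul ((hKd x).neg.exp)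
    refine h1.congr_deriv ?_
    rw [heq x hx]
    simp only [Pi.neg_apply]
    ring
  have hmono : MonotoneOn E (Icc p q) := by
    refine monotoneOn_of_deriv_nonneg (convex_Icc p q)
      (fun x hx => (hEd x hx).continuousAt.continuousWithinAt) ?_ ?_
    · intro x hx
      exact (hEd x (interior_subset hx)).differentiableAt.differentiableWithinAt
    · intro x hx
      rw [(hEd x (interior_subset hx)).deriv]
      exact mul_nonneg (hs x (interior_subset hx)) (Real.exp_pos _).le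
  refine ⟨Real.exp (-K q), Real.exp_pos _, ?_⟩
  have h1 := hmono (left_mem_Icc.2 hpq) (right_mem_Icc.2 hpq) hpq
  simp only [hE, hKp, neg_zero, Real.exp_zero, mul_one] at h1
  linarith [mul_comm (D q) (Real.exp (-K q))]

variable {g h1 h2 : ℝ → ℝ} {l1 r1 l2 r2 l r : ℝ} {U1 U2 : ℝ → ℝ}

lemma Arc.comp_left (hg : Rest g) (A1 : Arc g h1 l1 r1 U1) (A2 : Arc g h2 l2 r2 U2)
    (hδ : ∀ x, h1 x ≤ h2 x)
    {p q : ℝ} (hp : max l1 l2 < p) (hpq : p ≤ q) (hq : q < min r1 r2) :
    ∃ c : ℝ, 0 < c ∧ U1 p - U2 p ≤ c * (U1 q - U2 q) := by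
  have hm1 : ∀ x ∈ Icc p q, x ∈ Ioo l1 r1 := fun x hx =>
    ⟨(le_max_left _ _).trans_lt (hp.trans_le hx.1), (hx.2.trans_lt hq).trans_le (min_le_left _ _)⟩
  have hm2 : ∀ x ∈ Icc p q, x ∈ Ioo l2 r2 := fun x hx =>
    ⟨(le_max_right _ _).trans_lt (hp.trans_le hx.1), (hx.2.trans_lt hq).trans_le (min_le_right _ _)⟩
  have := lin (D := fun x => U1 x - U2 x) (κ := fun x => g x / (U1 x * U2 x))
    (s := fun x => h2 x - h1 x) hpq ?_ ?_ ?_
  · exact this
  · intro x hx
    have e1 := A1.pos x (hm1 x hx)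
    have e2 := A2.pos x (hm2 x hx)
    refine ((A1.der x (hm1 x hx)).sub (A2.der x (hm2 x hx))).congr_deriv ?_
    field_simp
    ring
  · refine ContinuousOn.div hg.cont.continuousOn ?_ ?_
    · refine ContinuousOn.mul ?_ ?_
      · exact A1.cont.mono fun x hx => Ioo_subset_Icc_self (hm1 x hx)
      · exact A2.cont.mono fun x hx => Ioo_subset_Icc_self (hm2 x hx)
    · intro x hx
      exact (mul_pos (A1.pos x (hm1 x hx)) (A2.pos x (hm2 x hx))).ne'
  · intro x _
    linarith [hδ x]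

/-- arcs with the same left end -/
lemma Arc.end_left (hg : Rest g) (A1 : Arc g h1 l r1 U1) (A2 : Arc g h2 l r2 U2)
    (hδ : ∀ x, h1 x ≤ h2 x)
    (hc1 : Continuous h1) (hc2 : Continuous h2) {x0 : ℝ} (hx0 : l < x0) (hx0' : x0 < min r1 r2) :
    U2 x0 ≤ U1 x0 := by
  by_contra hcon
  push Not at hcon
  have hlt : ∀ x, l < x → x ≤ x0 → U1 x < U2 x := by
    intro x hx hx'
    obtain ⟨c, hc, hle⟩ := Arc.comp_left hg A1 A2 hδ (p := x) (q := x0) (by simpa using hx) hx' hx0'
    have : c * (U1 x0 - U2 x0) < 0 := mul_neg_of_pos_of_neg hc (by linarith)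
    linarith
  have hx0r1 : x0 < r1 := hx0'.trans_le (min_le_left _ _)
  have hx0r2 : x0 < r2 := hx0'.trans_le (min_le_right _ _)
  obtain ⟨H, hH⟩ : ∃ H : ℝ, ∀ x ∈ Icc l x0, |h1 x| ≤ H := by
    obtain ⟨H, hH⟩ := (isCompact_Icc (a := l) (b := x0)).exists_bound_of_continuousOn
      hc1.continuousOn
    exact ⟨H, fun x hx => by simpa using hH x hx⟩
  have hH0 : 0 ≤ H := (abs_nonneg _).trans (hH l ⟨le_rfl, hx0.le⟩)
  have hgc := hg.cont
  set b : ℝ := -g l with hb
  have hbpos : 0 < b := by rw [hb]; linarith [hg.neg l A1.hl]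
  -- a point x1 such that the derivative of U2 ^ 2 is at least b on [l, x1]
  obtain ⟨x1, hx1l, hx10, hφ⟩ : ∃ x1, l < x1 ∧ x1 ≤ x0 ∧
      ∀ x ∈ Icc l x1, b ≤ -2 * g x - 2 * h2 x * U2 x := by
    have hcw : ContinuousWithinAt (fun x => -2 * g x - 2 * h2 x * U2 x) (Icc l r2) l := by
      have := A2.cont l ⟨le_rfl, (hx0.trans hx0r2).le⟩
      refine ContinuousWithinAt.sub (by fun_prop) (ContinuousWithinAt.mul (by fun_prop) this)
    have hlt2 : b < -2 * g l - 2 * h2 l * U2 l := by rw [A2.left]; linarith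
    have hev := hcw.eventually (lt_mem_nhds hlt2)
    have hev2 : ∀ᶠ x in 𝓝[≥] l, b < -2 * g x - 2 * h2 x * U2 x := by
      rw [nhdsWithin_Icc_eq_nhdsGE (hx0.trans hx0r2)] at hev
      exact hev
    obtain ⟨u, hu, hu2⟩ := (mem_nhdsGE_iff_exists_Ico_subset' (show l < x0 from hx0)).1 hev2
    refine ⟨min ((l + u) / 2) x0, ?_, min_le_right _ _, ?_⟩
    · exact lt_min (by have := hu; simp only [mem_Ioi] at this; linarith) hx0
    · intro x hx
      have hxu : x < u := by
        have h3 : x ≤ (l + u) / 2 := hx.2.trans (min_le_left _ _)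
        have := hu
        simp only [mem_Ioi] at this
        linarith
      exact (hu2 ⟨hx.1, hxu⟩ : b < _).le
  have hm1 : ∀ x ∈ Ioo l x1, x ∈ Ioo l r1 := fun x hx => ⟨hx.1, by linarith [hx.2]⟩
  have hm2 : ∀ x ∈ Ioo l x1, x ∈ Ioo l r2 := fun x hx => ⟨hx.1, by linarith [hx.2]⟩
  have hc1' : ContinuousOn U1 (Icc l x1) := A1.cont.mono (Icc_subset_Icc le_rfl (by linarith))
  have hc2' : ContinuousOn U2 (Icc l x1) := A2.cont.mono (Icc_subset_Icc le_rfl (by linarith))
  have hd1 : ∀ x ∈ Ioo l x1, HasDerivAt (fun x => U1 x ^ 2) (-2 * g x - 2 * h1 x * U1 x) x := by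
    intro x hx
    have e1 := A1.pos x (hm1 x hx)
    refine ((A1.der x (hm1 x hx)).pow 2).congr_deriv ?_
    field_simp
    ring
  have hd2 : ∀ x ∈ Ioo l x1, HasDerivAt (fun x => U2 x ^ 2) (-2 * g x - 2 * h2 x * U2 x) x := by
    intro x hx
    have e1 := A2.pos x (hm2 x hx)
    refine ((A2.der x (hm2 x hx)).pow 2).congr_deriv ?_
    field_simp
    ring
  have hsq : ∀ x ∈ Icc l x1, b * (x - l) ≤ U2 x ^ 2 := by
    have hmono : MonotoneOn (fun x => U2 x ^ 2 - b * (x - l)) (Icc l x1) := by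
      have hd : ∀ x ∈ Ioo l x1, HasDerivAt (fun x => U2 x ^ 2 - b * (x - l))
          (-2 * g x - 2 * h2 x * U2 x - b) x := by
        intro x hx
        have e3 : HasDerivAt (fun x : ℝ => b * (x - l)) b x := by
          simpa using ((hasDerivAt_id x).sub_const l).const_mul b
        exact (hd2 x hx).sub e3
      refine monotoneOn_of_deriv_nonneg (convex_Icc _ _) ?_ ?_ ?_
      · exact (hc2'.pow 2).sub (by fun_prop)
      · intro x hx
        rw [interior_Icc] at hx
        exact (hd x hx).differentiableAt.differentiableWithinAt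
      · intro x hx
        rw [interior_Icc] at hx
        rw [(hd x hx).deriv]
        linarith [hφ x ⟨hx.1.le, hx.2.le⟩]
    intro x hx
    have := hmono (left_mem_Icc.2 hx1l.le) hx hx.1
    simp only [A2.left, sub_self, mul_zero] at this
    nlinarith
  -- the function W
  set k : ℝ := 4 * H / √b with hk
  set W : ℝ → ℝ := fun x => (U2 x ^ 2 - U1 x ^ 2) * Real.exp (-(k * √(x - l))) with hW
  have hanti : AntitoneOn W (Icc l x1) := by
    have hd : ∀ x ∈ Ioo l x1, HasDerivAt W (((-2 * g x - 2 * h2 x * U2 x) -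
        (-2 * g x - 2 * h1 x * U1 x)) * Real.exp (-(k * √(x - l))) +
        (U2 x ^ 2 - U1 x ^ 2) * (Real.exp (-(k * √(x - l))) * (-(k * (1 / (2 * √(x - l))))))) x := by
      intro x hx
      have hxl : 0 < x - l := by linarith [hx.1]
      have e3 : HasDerivAt (fun x : ℝ => √(x - l)) (1 / (2 * √(x - l))) x := by
        have := ((hasDerivAt_id x).sub_const l).sqrt hxl.ne'
        simpa using this
      exact ((hd2 x hx).sub (hd1 x hx)).mul ((e3.const_mul k).neg.exp)
    refine antitoneOn_of_deriv_nonpos (convex_Icc _ _) ?_ ?_ ?_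
    · exact ((hc2'.pow 2).sub (hc1'.pow 2)).mul (by fun_prop)
    · intro x hx
      rw [interior_Icc] at hx
      exact (hd x hx).differentiableAt.differentiableWithinAt
    · intro x hx
      rw [interior_Icc] at hx
      rw [(hd x hx).deriv]
      have hxl : 0 < x - l := by linarith [hx.1]
      have e1 := A1.pos x (hm1 x hx)
      have e2 := A2.pos x (hm2 x hx)
      have e3 := hlt x hx.1 (hx.2.le.trans hx10)
      have e4 := hsq x ⟨hx.1.le, hx.2.le⟩
      have e5 : √b * √(x - l) ≤ U2 x := by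
        rw [← Real.sqrt_mul hbpos.le]
        exact Real.sqrt_le_iff.2 ⟨e2.le, e4⟩
      have e6 := hH x ⟨hx.1.le, hx.2.le.trans hx10⟩
      have hsb : 0 < √b := Real.sqrt_pos.2 hbpos
      have hsx : 0 < √(x - l) := Real.sqrt_pos.2 hxl
      have e7 : (-2 * g x - 2 * h2 x * U2 x) - (-2 * g x - 2 * h1 x * U1 x) ≤
          2 * H * (U2 x - U1 x) := by
        have := hδ x
        have h8 := neg_abs_le (h1 x)
        nlinarith
      have e8 : 2 * H * (U2 x - U1 x) ≤ (U2 x ^ 2 - U1 x ^ 2) * (k * (1 / (2 * √(x - l)))) := by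
        have e9 : k * (1 / (2 * √(x - l))) = 2 * H / (√b * √(x - l)) := by
          rw [hk]; field_simp; ring
        rw [e9, ← mul_div_assoc, le_div_iff₀ (by positivity)]
        have e10 : U2 x ^ 2 - U1 x ^ 2 = (U2 x - U1 x) * (U2 x + U1 x) := by ring
        rw [e10]
        have e11 : 0 ≤ 2 * H * (U2 x - U1 x) := by
          apply mul_nonneg (by linarith) (by linarith)
        nlinarith
      have hexp := Real.exp_pos (-(k * √(x - l)))
      have e12 : ((-2 * g x - 2 * h2 x * U2 x) - (-2 * g x - 2 * h1 x * U1 x)) -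
          (U2 x ^ 2 - U1 x ^ 2) * (k * (1 / (2 * √(x - l)))) ≤ 0 := by linarith
      have e13 := mul_nonpos_of_nonpos_of_nonneg e12 hexp.le
      linarith [e13]
  have h3 := hanti (left_mem_Icc.2 hx1l.le) (right_mem_Icc.2 hx1l.le) hx1l.le
  simp only [hW, A1.left, A2.left] at h3
  have h4 : 0 < U2 x1 ^ 2 - U1 x1 ^ 2 := by
    have e3 := hlt x1 hx1l hx10
    have e1 : 0 ≤ U1 x1 := (A1.pos x1 ⟨hx1l, by linarith⟩).le
    nlinarith
  have h5 := mul_pos h4 (Real.exp_pos (-(k * √(x1 - l))))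
  norm_num at h3
  linarith

end Pool.Agent.K9h2.LI
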