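import Pool.Agent.K9h2.LI.Loop

/-! Periodic solutions consist of an upper and a lower arc. -/

open Set Filter Topology

namespace Pool.Agent.K9h2.LI

/-- a nonconstant periodic solution of `x' = v`, `v' = -g(x) - h(x) v` -/
structure Sol (g h x v : ℝ → ℝ) (T : ℝ) : Prop where
  hT : 0 < T
  hx : ∀ t, HasDerivAt x (v t) t
  hv : ∀ t, HasDerivAt v (-g (x t) - h (x t) * v t) t
  px : ∀ t, x (t + T) = x t
  pv : ∀ t, v (t + T) = v t
  ne : ∀ t, v t = 0 → x t ≠ 0

variable {g h x v : ℝ → ℝ} {T : ℝ}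

lemma Sol.rev (S : Sol g h x v T) :
    Sol g (fun y => -h y) (fun t => x (-t)) (fun t => -v (-t)) T where
  hT := S.hT
  hx := fun t => by
    have := HasDerivAt.comp t (h₂ := x) (S.hx (-t)) (hasDerivAt_neg t)
    exact this.congr_deriv (by ring)
  hv := fun t => by
    have := (HasDerivAt.comp t (h₂ := v) (S.hv (-t)) (hasDerivAt_neg t)).neg
    exact this.congr_deriv (by ring)
  px := fun t => by
    have := S.px (-(t + T))
    rw [← this]
    congr 1
    ring
  pv := fun t => by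
    have := S.pv (-(t + T))
    rw [← this]
    congr 2
    ring
  ne := fun t ht => S.ne (-t) (by linarith)

lemma Sol.contx (S : Sol g h x v T) : Continuous x :=
  continuous_iff_continuousAt.2 fun t => (S.hx t).continuousAt

lemma Sol.contv (S : Sol g h x v T) : Continuous v :=
  continuous_iff_continuousAt.2 fun t => (S.hv t).continuousAt

/-- positive on a right neighbourhood -/
lemma pos_right {w : ℝ → ℝ} {c t0 : ℝ} (hw : HasDerivAt w c t0) (h0 : w t0 = 0) (hc : 0 < c) :
    ∃ u, t0 < u ∧ ∀ t ∈ Ioo t0 u, 0 < w t := by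
  have h1 := (hasDerivWithinAt_iff_tendsto_slope' (s := Ioi t0) (by simp)).1 hw.hasDerivWithinAt
  have h2 : ∀ᶠ t in 𝓝[>] t0, 0 < slope w t0 t := h1.eventually (lt_mem_nhds hc)
  obtain ⟨u, hu, hu2⟩ := (mem_nhdsGT_iff_exists_Ioo_subset).1 h2
  refine ⟨u, hu, fun t ht => ?_⟩
  have h3 : 0 < slope w t0 t := hu2 ht
  rw [slope_def_field, h0, sub_zero] at h3
  have h4 : 0 < t - t0 := by linarith [ht.1]
  have := mul_pos h3 h4
  rwa [div_mul_cancel₀ _ h4.ne'] at this

/-- the next zero -/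
lemma next_zero {w : ℝ → ℝ} {c t0 : ℝ} (hcont : Continuous w) (hw : HasDerivAt w c t0)
    (h0 : w t0 = 0) (hc : 0 < c) (hex : ∃ t, t0 < t ∧ w t ≤ 0) :
    ∃ t1, t0 < t1 ∧ w t1 = 0 ∧ ∀ t ∈ Ioo t0 t1, 0 < w t := by
  obtain ⟨u, hu, hu2⟩ := pos_right hw h0 hc
  obtain ⟨t', ht', hwt'⟩ := hex
  have hut' : u ≤ t' := by
    by_contra hcon
    push Not at hcon
    linarith [hu2 t' ⟨ht', hcon⟩]
  set m : ℝ := (t0 + u) / 2 with hm
  set A : Set ℝ := {t | m ≤ t ∧ w t ≤ 0} with hA
  have hAc : IsClosed A := by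
    have h1 : IsClosed {t : ℝ | m ≤ t} := isClosed_Ici
    exact h1.inter (isClosed_le hcont continuous_const)
  have hAne : A.Nonempty := ⟨t', by constructor <;> linarith⟩
  have hAb : BddBelow A := ⟨m, fun t ht => ht.1⟩
  have hmem := hAc.csInf_mem hAne hAb
  set t1 := sInf A with ht1
  have hpos : ∀ t ∈ Ioo t0 t1, 0 < w t := by
    intro t ht
    by_contra hcon
    push Not at hcon
    rcases lt_or_ge t u with h | h
    · linarith [hu2 t ⟨ht.1, h⟩]
    · have : t ∈ A := ⟨by linarith, hcon⟩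
      linarith [csInf_le hAb this, ht.2]
  have ht01 : t0 < t1 := by
    have : m ≤ t1 := hmem.1
    linarith
  refine ⟨t1, ht01, le_antisymm hmem.2 ?_, hpos⟩
  have h5 : ∀ᶠ t in 𝓝[<] t1, 0 ≤ w t := by
    filter_upwards [Ioo_mem_nhdsLT ht01] with t ht
    exact (hpos t ht).le
  exact ge_of_tendsto (hcont.continuousAt.tendsto.mono_left nhdsWithin_le_nhds) h5

/-- the derivative at the end of an interval of positivity -/
lemma deriv_nonpos_of_zero {w : ℝ → ℝ} {c t0 t1 : ℝ} (h01 : t0 < t1) (hw : HasDerivAt w c t1)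
    (h1 : w t1 = 0) (hpos : ∀ t ∈ Ioo t0 t1, 0 < w t) : c ≤ 0 := by
  have h2 := (hasDerivWithinAt_iff_tendsto_slope' (s := Iio t1) (by simp)).1 hw.hasDerivWithinAt
  refine le_of_tendsto h2 ?_
  filter_upwards [Ioo_mem_nhdsLT h01] with t ht
  rw [slope_def_field, h1, sub_zero]
  exact div_nonpos_of_nonneg_of_nonpos (hpos t ht).le (by linarith [ht.2])

/-- the arc between two zeros of `v` -/
lemma arc_of_flow (hx : ∀ t, HasDerivAt x (v t) t)
    (hv : ∀ t, HasDerivAt v (-g (x t) - h (x t) * v t) t) {t0 t1 : ℝ} (h01 : t0 < t1)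
    (hv0 : v t0 = 0) (hv1 : v t1 = 0) (hpos : ∀ t ∈ Ioo t0 t1, 0 < v t) (hl : x t0 < 0)
    (hr : 0 < x t1) : ∃ U, Arc g h (x t0) (x t1) U ∧ ∀ t ∈ Icc t0 t1, U (x t) = v t := by
  have hcx : Continuous x := continuous_iff_continuousAt.2 fun t => (hx t).continuousAt
  have hcv : Continuous v := continuous_iff_continuousAt.2 fun t => (hv t).continuousAt
  have hsm : StrictMonoOn x (Icc t0 t1) := by
    refine strictMonoOn_of_deriv_pos (convex_Icc _ _) hcx.continuousOn fun t ht => ?_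
    rw [interior_Icc] at ht
    rw [(hx t).deriv]
    exact hpos t ht
  set X : ℝ → ℝ := fun t => if t ≤ t0 then x t0 + (t - t0) else
    if t ≤ t1 then x t else x t1 + (t - t1) with hX
  have hX1 : ∀ t, t ≤ t0 → X t = x t0 + (t - t0) := fun t ht => by simp [hX, ht]
  have hX2 : ∀ t ∈ Icc t0 t1, X t = x t := by
    intro t ht
    rcases ht.1.lt_or_eq with h | h
    · simp [hX, not_le.2 h, ht.2]
    · rw [hX1 t h.symm.le, ← h]; ring
  have hX3 : ∀ t, t1 ≤ t → X t = x t1 + (t - t1) := by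
    intro t ht
    rcases ht.lt_or_eq with h | h
    · simp [hX, not_le.2 (h01.trans h), not_le.2 h]
    · rw [hX2 t ⟨h01.le.trans ht, h.symm.le⟩, ← h]; ring
  have hXm : StrictMono X := by
    intro s t hst
    rcases le_total t t0 with h1 | h1
    · rw [hX1 s (hst.le.trans h1), hX1 t h1]; linarith
    · rcases le_total t t1 with h2 | h2
      · rcases le_total s t0 with h3 | h3
        · rw [hX1 s h3, hX2 t ⟨h1, h2⟩]
          rcases h3.lt_or_eq with h4 | h4
          · have := hsm.monotoneOn ⟨le_rfl, h01.le⟩ ⟨h1, h2⟩ h1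
            linarith
          · have := hsm ⟨le_rfl, h01.le⟩ ⟨h1, h2⟩ (show t0 < t by linarith)
            linarith
        · rw [hX2 s ⟨h3, hst.le.trans h2⟩, hX2 t ⟨h1, h2⟩]
          exact hsm ⟨h3, hst.le.trans h2⟩ ⟨h1, h2⟩ hst
      · rw [hX3 t h2]
        have h01x := hsm ⟨le_rfl, h01.le⟩ ⟨h01.le, le_rfl⟩ h01
        rcases le_total s t0 with h3 | h3
        · rw [hX1 s h3]; linarith
        · rcases le_total s t1 with h4 | h4
          · rw [hX2 s ⟨h3, h4⟩]
            have := hsm.monotoneOn ⟨h3, h4⟩ ⟨h01.le, le_rfl⟩ h4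
            rcases h2.lt_or_eq with h5 | h5
            · linarith
            · have := hsm ⟨h3, h4⟩ ⟨h01.le, le_rfl⟩ (show s < t1 by linarith)
              linarith
          · rw [hX3 s h4]; linarith
  have hXs : Function.Surjective X := by
    intro y
    rcases le_total y (x t0) with h1 | h1
    · exact ⟨t0 + (y - x t0), by rw [hX1 _ (by linarith)]; ring⟩
    · rcases le_total y (x t1) with h2 | h2
      · obtain ⟨t, ht, hty⟩ := intermediate_value_Icc h01.le hcx.continuousOn ⟨h1, h2⟩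
        exact ⟨t, by rw [hX2 t ht, hty]⟩
      · exact ⟨t1 + (y - x t1), by rw [hX3 _ (by linarith)]; ring⟩
  set e := StrictMono.orderIsoOfSurjective X hXm hXs with he
  have heX : ∀ t, e t = X t := fun t => rfl
  set τ : ℝ → ℝ := fun y => e.symm y with hτ
  have hτc : Continuous τ := e.symm.continuous
  have hXτ : ∀ y, X (τ y) = y := fun y => e.apply_symm_apply y
  have hτX : ∀ t, τ (X t) = t := fun t => e.symm_apply_apply t
  have hτmem : ∀ y ∈ Icc (x t0) (x t1), τ y ∈ Icc t0 t1 := by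
    intro y hy
    constructor
    · by_contra hcon
      push Not at hcon
      have := hXτ y
      rw [hX1 _ hcon.le] at this
      linarith [hy.1]
    · by_contra hcon
      push Not at hcon
      have := hXτ y
      rw [hX3 _ hcon.le] at this
      linarith [hy.2]
  have hxτ : ∀ y ∈ Icc (x t0) (x t1), x (τ y) = y := fun y hy => by
    rw [← hX2 _ (hτmem y hy), hXτ]
  have hτx : ∀ t ∈ Icc t0 t1, τ (x t) = t := fun t ht => by rw [← hX2 t ht, hτX]
  have hτmem' : ∀ y ∈ Ioo (x t0) (x t1), τ y ∈ Ioo t0 t1 := by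
    intro y hy
    have h1 := hτmem y (Ioo_subset_Icc_self hy)
    have h2 := hxτ y (Ioo_subset_Icc_self hy)
    refine ⟨lt_of_le_of_ne h1.1 ?_, lt_of_le_of_ne h1.2 ?_⟩
    · intro h; rw [← h] at h2; linarith [hy.1]
    · intro h; rw [h] at h2; linarith [hy.2]
  refine ⟨fun y => v (τ y), ⟨hl, hr, (hcv.comp hτc).continuousOn, ?_, ?_, ?_, ?_⟩, ?_⟩
  · rw [hτx t0 ⟨le_rfl, h01.le⟩, hv0]
  · rw [hτx t1 ⟨h01.le, le_rfl⟩, hv1]
  · intro y hy
    exact hpos _ (hτmem' y hy)
  · intro y hy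
    have h1 := hτmem' y hy
    have h2 := hpos _ h1
    have h3 := hxτ y (Ioo_subset_Icc_self hy)
    have hev : ∀ᶠ z in 𝓝 y, x (τ z) = z := by
      filter_upwards [Ioo_mem_nhds hy.1 hy.2] with z hz
      exact hxτ z (Ioo_subset_Icc_self hz)
    have h4 : HasDerivAt τ (v (τ y))⁻¹ y :=
      HasDerivAt.of_local_left_inverse hτc.continuousAt (hx (τ y)) h2.ne' hev
    have h5 := HasDerivAt.comp y (h₂ := v) (hv (τ y)) h4
    refine h5.congr_deriv ?_
    rw [h3]
    field_simp
    ring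
  · intro t ht
    simp only
    rw [hτx t ht]

/-- the loop which starts at a time with `v = 0`, `x < 0` -/
structure Turn (g h x v : ℝ → ℝ) (t0 t1 t2 : ℝ) (U L : ℝ → ℝ) : Prop where
  h01 : t0 < t1
  h12 : t1 < t2
  v0 : v t0 = 0
  v1 : v t1 = 0
  v2 : v t2 = 0
  pos : ∀ t ∈ Ioo t0 t1, 0 < v t
  neg : ∀ t ∈ Ioo t1 t2, v t < 0
  up : Arc g h (x t0) (x t1) U
  lo : Arc g (fun y => -h y) (x t2) (x t1) L
  eU : ∀ t ∈ Icc t0 t1, U (x t) = v t
  eL : ∀ t ∈ Icc t1 t2, L (x t) = -v t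

lemma Sol.next (hg : Rest g) (S : Sol g h x v T) {t0 : ℝ} (hv0 : v t0 = 0) (hx0 : x t0 < 0) :
    ∃ t1 t2 U L, Turn g h x v t0 t1 t2 U L := by
  have hper : ∀ n : ℕ, ∀ t, x (t + n * T) = x t := by
    intro n
    induction n with
    | zero => intro t; simp
    | succ n ih =>
      intro t
      have : t + ((n + 1 : ℕ) : ℝ) * T = (t + n * T) + T := by push_cast; ring
      rw [this, S.px, ih]
  -- first zero
  have hd0 : HasDerivAt v (-g (x t0)) t0 := by
    have := S.hv t0
    rwa [hv0, mul_zero, sub_zero] at this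
  have hex1 : ∃ t, t0 < t ∧ v t ≤ 0 := by
    by_contra hcon
    push Not at hcon
    have hsm : StrictMonoOn x (Icc t0 (t0 + T)) := by
      refine strictMonoOn_of_deriv_pos (convex_Icc _ _) S.contx.continuousOn fun t ht => ?_
      rw [interior_Icc] at ht
      rw [(S.hx t).deriv]
      exact hcon t ht.1
    have := hsm ⟨le_rfl, by linarith [S.hT]⟩ ⟨by linarith [S.hT], le_rfl⟩
      (show t0 < t0 + T by linarith [S.hT])
    linarith [S.px t0]
  obtain ⟨t1, h01, hv1, hpos⟩ := next_zero S.contv hd0 hv0 (by linarith [hg.neg _ hx0]) hex1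
  have hx1 : 0 < x t1 := by
    have hd1 := S.hv t1
    rw [hv1, mul_zero, sub_zero] at hd1
    have h1 := deriv_nonpos_of_zero h01 hd1 hv1 hpos
    refine lt_of_le_of_ne ?_ (S.ne t1 hv1).symm
    by_contra hcon
    push Not at hcon
    linarith [hg.neg _ hcon]
  -- second zero
  have hd1 : HasDerivAt (fun t => -v t) (g (x t1)) t1 := by
    have := (S.hv t1).neg
    rw [hv1, mul_zero, sub_zero, neg_neg] at this
    exact this
  have hex2 : ∃ t, t1 < t ∧ -v t ≤ 0 := by
    by_contra hcon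
    push Not at hcon
    have hsm : StrictAntiOn x (Icc t1 (t1 + T)) := by
      refine strictAntiOn_of_deriv_neg (convex_Icc _ _) S.contx.continuousOn fun t ht => ?_
      rw [interior_Icc] at ht
      rw [(S.hx t).deriv]
      linarith [hcon t ht.1]
    have := hsm ⟨le_rfl, by linarith [S.hT]⟩ ⟨by linarith [S.hT], le_rfl⟩
      (show t1 < t1 + T by linarith [S.hT])
    linarith [S.px t1]
  obtain ⟨t2, h12, hv2, hneg⟩ := next_zero (w := fun t => -v t) S.contv.neg hd1
    (by rw [hv1, neg_zero]) (hg.pos _ hx1) hex2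
  have hv2' : v t2 = 0 := by linarith
  have hx2 : x t2 < 0 := by
    have hd2 := (S.hv t2).neg
    rw [hv2', mul_zero, sub_zero, neg_neg] at hd2
    have h1 := deriv_nonpos_of_zero h12 hd2 (by simpa using hv2') hneg
    refine lt_of_le_of_ne ?_ (S.ne t2 hv2')
    by_contra hcon
    push Not at hcon
    linarith [hg.pos _ hcon]
  obtain ⟨U, hU, hU2⟩ := arc_of_flow S.hx S.hv h01 hv0 hv1 hpos hx0 hx1
  have R := S.rev
  obtain ⟨L, hL, hL2⟩ := arc_of_flow (g := g) (h := fun y => -h y) (t0 := -t2) (t1 := -t1) R.hx R.hv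
    (by linarith)
    (by simp [hv2']) (by simp [hv1]) (fun t ht => hneg (-t) ⟨by linarith [ht.2], by linarith [ht.1]⟩)
    (by simpa using hx2) (by simpa using hx1)
  refine ⟨t1, t2, U, L, ⟨h01, h12, hv0, hv1, hv2', hpos, fun t ht => by linarith [hneg t ht], hU,
    by simpa using hL, hU2, fun t ht => ?_⟩⟩
  have := hL2 (-t) ⟨by linarith [ht.2], by linarith [ht.1]⟩
  simpa using this

lemma Sol.prev (hg : Rest g) (S : Sol g h x v T) {t2 : ℝ} (hv2 : v t2 = 0) (hx2 : x t2 < 0) :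
    ∃ t0 t1 U L, x t0 < 0 ∧ Turn g h x v t0 t1 t2 U L := by
  obtain ⟨s1, s2, L, U, R⟩ := Sol.next hg S.rev (t0 := -t2) (by simp [hv2]) (by simpa using hx2)
  refine ⟨-s2, -s1, U, L, R.lo.hl, ⟨by linarith [R.h12], by linarith [R.h01], ?_, ?_, hv2, ?_, ?_, ?_,
    ?_, ?_, ?_⟩⟩
  · have := R.v2; simpa using this
  · have := R.v1; simpa using this
  · intro t ht
    have := R.neg (-t) ⟨by linarith [ht.2], by linarith [ht.1]⟩
    simpa using this
  · intro t ht
    have := R.pos (-t) ⟨by linarith [ht.2], by linarith [ht.1]⟩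
    simpa using this
  · have := R.lo
    simpa using this
  · have := R.up
    simpa using this
  · intro t ht
    have := R.eL (-t) ⟨by linarith [ht.2], by linarith [ht.1]⟩
    simpa using this
  · intro t ht
    have := R.eU (-t) ⟨by linarith [ht.2], by linarith [ht.1]⟩
    simpa using this

end Pool.Agent.K9h2.LI
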