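import Mathlib

/-! The Banach indicatrix of a function on an arbitrary set of real numbers. -/

open Set MeasureTheory Topology Filter
open scoped ENNReal

namespace Pool.Agent.K9h2.LI

lemma encard_le_of_finset {α : Type*} {N : Set α} {c : ℝ≥0∞}
    (h : ∀ F : Finset α, (F : Set α) ⊆ N → (F.card : ℝ≥0∞) ≤ c) : (N.encard : ℝ≥0∞) ≤ c := by
  rcases N.finite_or_infinite with hN | hN
  · have h1 := h hN.toFinset (by simp)
    rw [hN.encard_eq_coe_toFinset_card]
    simpa using h1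
  · rw [hN.encard_eq]
    simp only [ENat.toENNReal_top, top_le_iff]
    by_contra hc
    obtain ⟨n, hn⟩ := ENNReal.exists_nat_gt hc
    obtain ⟨F, hF1, hF2⟩ := hN.exists_subset_card_eq n
    have := h F hF1
    rw [hF2] at this
    exact absurd (lt_of_lt_of_le hn this) (lt_irrefl _)

/-- dyadic intervals -/
def dy (k : ℕ) (j : ℤ) : Set ℝ := {x | ⌊x * 2 ^ k⌋ = j}

lemma sum_evar_le (m : ℝ → ℝ) (E : Set ℝ) (k : ℕ) (a : ℤ) (n : ℕ) :
    ∑ i ∈ Finset.range n, eVariationOn m (E ∩ dy k (a + i)) ≤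
      eVariationOn m (E ∩ {x | ⌊x * 2 ^ k⌋ < a + n}) := by
  induction n with
  | zero => simp
  | succ n ih =>
    rw [Finset.sum_range_succ]
    refine (add_le_add_left ih _).trans ?_
    refine (eVariationOn.add_le_union m ?_).trans (eVariationOn.mono m ?_)
    · intro x hx y hy
      have h1 : ⌊x * 2 ^ k⌋ < a + n := hx.2
      have h2 : ⌊y * 2 ^ k⌋ = a + n := hy.2
      by_contra hcon
      push Not at hcon
      have h3 : y * 2 ^ k ≤ x * 2 ^ k := mul_le_mul_of_nonneg_right hcon.le (by positivity)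
      have h4 := Int.floor_mono h3
      omega
    · rintro x (⟨hx, hx2⟩ | ⟨hx, hx2⟩)
      · refine ⟨hx, ?_⟩
        have h1 : ⌊x * 2 ^ k⌋ < a + n := hx2
        simp only [mem_ofPred_eq]
        push_cast
        omega
      · refine ⟨hx, ?_⟩
        have h1 : ⌊x * 2 ^ k⌋ = a + n := hx2
        simp only [mem_ofPred_eq]
        push_cast
        omega

lemma tsum_evar_le (m : ℝ → ℝ) (E : Set ℝ) (k : ℕ) :
    ∑' j : ℤ, eVariationOn m (E ∩ dy k j) ≤ eVariationOn m E := by
  rw [ENNReal.tsum_eq_iSup_sum]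
  refine iSup_le fun s => ?_
  obtain ⟨N, hN⟩ : ∃ N : ℕ, ∀ j ∈ s, -(N:ℤ) ≤ j ∧ j < N := by
    refine ⟨(s.sup Int.natAbs) + 1, fun j hj => ?_⟩
    have h1 : j.natAbs ≤ s.sup Int.natAbs := Finset.le_sup hj
    omega
  have h1 : ∑ j ∈ s, eVariationOn m (E ∩ dy k j) ≤
      ∑ i ∈ Finset.range (2 * N), eVariationOn m (E ∩ dy k (-(N:ℤ) + i)) := by
    have h2 : s ⊆ (Finset.range (2 * N)).image (fun i : ℕ => -(N:ℤ) + i) := by
      intro j hj
      obtain ⟨h3, h4⟩ := hN j hj
      refine Finset.mem_image.2 ⟨(j + N).toNat, Finset.mem_range.2 ?_, ?_⟩ <;> omega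
    refine (Finset.sum_le_sum_of_subset h2).trans ?_
    rw [Finset.sum_image]
    intro i _ j _ hij
    simpa using hij
  refine h1.trans ((sum_evar_le m E k _ _).trans ?_)
  exact eVariationOn.mono m inter_subset_left

/-- the Banach indicatrix of a function on an arbitrary set -/
theorem banach (E : Set ℝ) (m : ℝ → ℝ) :
    ∃ g : ℝ → ℝ≥0∞, Measurable g ∧ (∀ β, ((E ∩ m ⁻¹' {β}).encard : ℝ≥0∞) ≤ g β) ∧
      ∫⁻ β, g β ≤ eVariationOn m E := by
  set G : ℕ → ℝ → ℝ≥0∞ := fun k β =>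
    ∑' j : ℤ, (toMeasurable volume (m '' (E ∩ dy k j))).indicator (fun _ => (1:ℝ≥0∞)) β with hG
  have hGm : ∀ k, Measurable (G k) := by
    intro k
    refine Measurable.tsum fun j => ?_
    exact measurable_const.indicator (measurableSet_toMeasurable _ _)
  have hGi : ∀ k, ∫⁻ β, G k β ≤ eVariationOn m E := by
    intro k
    have e1 : ∫⁻ β, G k β = ∑' j : ℤ, volume (m '' (E ∩ dy k j)) := by
      simp only [hG]
      rw [lintegral_tsum (fun j =>
        (measurable_const.indicator (measurableSet_toMeasurable _ _)).aemeasurable)]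
      congr 1
      ext j
      rw [lintegral_indicator (measurableSet_toMeasurable _ _)]
      simp
    have e2 : ∀ j : ℤ, volume (m '' (E ∩ dy k j)) ≤ eVariationOn m (E ∩ dy k j) := by
      intro j
      refine (Real.volume_le_diam _).trans ?_
      refine Metric.ediam_image_le_iff.2 ?_
      intro x hx y hy
      exact eVariationOn.edist_le m hx hy
    rw [e1]
    exact (ENNReal.tsum_le_tsum e2).trans (tsum_evar_le m E k)
  refine ⟨fun β => liminf (fun k => G k β) atTop, Measurable.liminf hGm, ?_, ?_⟩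
  · intro β
    refine encard_le_of_finset fun F hF => ?_
    -- for large `k` the points of `F` lie in distinct dyadic intervals
    have hsep : ∃ k₀ : ℕ, ∀ k ≥ k₀, ∀ x ∈ F, ∀ y ∈ F, ⌊x * 2 ^ k⌋ = ⌊y * 2 ^ k⌋ → x = y := by
      have hfin : ∀ q ∈ F ×ˢ F, ∃ k₀ : ℕ, ∀ k ≥ k₀, ⌊q.1 * 2 ^ k⌋ = ⌊q.2 * 2 ^ k⌋ → q.1 = q.2 := by
        rintro ⟨x, y⟩ -
        by_cases hxy : x = y
        · exact ⟨0, fun k _ _ => hxy⟩
        · have hd : 0 < |x - y| := abs_pos.2 (sub_ne_zero.2 hxy)
          obtain ⟨k₀, hk₀⟩ := exists_nat_gt (1 / |x - y|)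
          refine ⟨k₀, fun k hk hfl => ?_⟩
          exfalso
          have h1 : |x * 2 ^ k - y * 2 ^ k| < 1 := Int.abs_sub_lt_one_of_floor_eq_floor hfl
          rw [← sub_mul, abs_mul, abs_of_pos (by positivity : (0:ℝ) < 2 ^ k)] at h1
          have h2 : (k₀ : ℝ) ≤ 2 ^ k := by
            have h3 : k < 2 ^ k := Nat.lt_two_pow_self
            have h4 : (k₀ : ℝ) ≤ k := by exact_mod_cast hk
            have h5 : (k : ℝ) ≤ 2 ^ k := by exact_mod_cast h3.le
            linarith
          have h6 : 1 < |x - y| * 2 ^ k := by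
            rw [div_lt_iff₀ hd] at hk₀
            nlinarith
          linarith
      choose! kk hkk using hfin
      refine ⟨(F ×ˢ F).sup kk, fun k hk x hx y hy h => ?_⟩
      have hm : (x, y) ∈ F ×ˢ F := Finset.mk_mem_product hx hy
      exact hkk (x, y) hm k ((Finset.le_sup hm).trans hk) h
    obtain ⟨k₀, hk₀⟩ := hsep
    refine le_liminf_of_le (by isBoundedDefault) ?_
    filter_upwards [eventually_ge_atTop k₀] with k hk
    have hinj : ∀ x ∈ F, ∀ y ∈ F, (fun x : ℝ => ⌊x * 2 ^ k⌋) x = (fun x : ℝ => ⌊x * 2 ^ k⌋) y → x = y :=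
      fun x hx y hy => hk₀ k hk x hx y hy
    have hcard : (F.image fun x : ℝ => ⌊x * 2 ^ k⌋).card = F.card :=
      Finset.card_image_of_injOn fun x hx y hy h => hinj x hx y hy h
    calc (F.card : ℝ≥0∞) = ∑ j ∈ F.image (fun x : ℝ => ⌊x * 2 ^ k⌋), (1:ℝ≥0∞) := by
          rw [Finset.sum_const, hcard]; simp
      _ ≤ ∑ j ∈ F.image (fun x : ℝ => ⌊x * 2 ^ k⌋),
          (toMeasurable volume (m '' (E ∩ dy k j))).indicator (fun _ => (1:ℝ≥0∞)) β := by
          refine Finset.sum_le_sum fun j hj => ?_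
          obtain ⟨x, hx, rfl⟩ := Finset.mem_image.1 hj
          have h1 := hF hx
          have h2 : β ∈ toMeasurable volume (m '' (E ∩ dy k ⌊x * 2 ^ k⌋)) := by
            apply subset_toMeasurable
            exact ⟨x, ⟨h1.1, rfl⟩, h1.2⟩
          rw [indicator_of_mem h2]
      _ ≤ G k β := ENNReal.sum_le_tsum _
  · refine (lintegral_liminf_le hGm).trans ?_
    refine liminf_le_of_le (by isBoundedDefault) fun b hb => ?_
    obtain ⟨k, hk⟩ := hb.exists
    exact hk.trans (hGi k)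

end Pool.Agent.K9h2.LI
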