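import Mathlib

/-! A Markov inequality. -/

open Set Polynomial

namespace Pool.Agent.K9h2.LI

lemma T_deriv_one (n : ℕ) : (derivative (Chebyshev.T ℝ n)).eval 1 = (n:ℝ) ^ 2 := by
  rw [Chebyshev.T_derivative_eq_U, eval_mul, Chebyshev.U_eval_one]
  simp
  ring

lemma markov_aux {n : ℕ} (p : ℝ[X]) (hp : p.natDegree ≤ n) {l x M : ℝ} (hlx : l < x) (hM : 0 < M)
    (hb : ∀ y ∈ Icc l x, |p.eval y| ≤ M) :
    (derivative p).eval x ≤ 2 * n ^ 2 * M / (x - l) := by
  set q : ℝ[X] := C (1 / M) * p.comp (C ((x - l) / 2) * X + C ((x + l) / 2)) with hq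
  have hdeg : q.degree ≤ n := by
    refine degree_le_of_natDegree_le ?_
    rw [hq]
    refine (natDegree_C_mul_le _ _).trans ?_
    refine natDegree_comp_le.trans ?_
    have : (C ((x - l) / 2) * X + C ((x + l) / 2) : ℝ[X]).natDegree ≤ 1 := natDegree_linear_le
    calc p.natDegree * _ ≤ n * 1 := Nat.mul_le_mul hp this
      _ = n := mul_one n
  have hbnd : ∀ y ∈ Icc (-1:ℝ) 1, |q.eval y| ≤ 1 := by
    intro y hy
    have h1 : q.eval y = (1 / M) * p.eval ((x - l) / 2 * y + (x + l) / 2) := by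
      simp [hq]
    rw [h1, abs_mul, abs_of_pos (by positivity)]
    have h2 := hb ((x - l) / 2 * y + (x + l) / 2) ⟨by nlinarith [hy.1], by nlinarith [hy.2]⟩
    rw [one_div, inv_mul_le_iff₀ hM]
    linarith
  have h3 := Chebyshev.eval_iterate_derivative_le_of_forall_abs_le_one (k := 1) (x := 1) le_rfl
    hdeg hbnd
  simp only [Function.iterate_one] at h3
  rw [T_deriv_one] at h3
  have h4 : (derivative q).eval 1 = (1 / M) * ((x - l) / 2 * (derivative p).eval x) := by
    rw [hq, derivative_C_mul, derivative_comp]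
    simp
    left
    left
    congr 1
    ring
  rw [h4] at h3
  have hxl : 0 < x - l := by linarith
  rw [le_div_iff₀ hxl]
  have h5 : 1 / M * ((x - l) / 2 * eval x (derivative p)) * (2 * M) ≤ n ^ 2 * (2 * M) :=
    mul_le_mul_of_nonneg_right h3 (by positivity)
  have h6 : 1 / M * ((x - l) / 2 * eval x (derivative p)) * (2 * M) =
      eval x (derivative p) * (x - l) := by field_simp
  rw [h6] at h5
  linarith

lemma markov_right {n : ℕ} (p : ℝ[X]) (hp : p.natDegree ≤ n) {l x M : ℝ} (hlx : l < x)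
    (hM : 0 < M) (hb : ∀ y ∈ Icc l x, |p.eval y| ≤ M) :
    |(derivative p).eval x| ≤ 2 * n ^ 2 * M / (x - l) := by
  refine abs_le'.2 ⟨markov_aux p hp hlx hM hb, ?_⟩
  have := markov_aux (n := n) (-p) (by rwa [natDegree_neg]) hlx hM (fun y hy => by
    rw [eval_neg, abs_neg]; exact hb y hy)
  rwa [derivative_neg, eval_neg] at this

lemma markov {n : ℕ} (p : ℝ[X]) (hp : p.natDegree ≤ n) {l r x M : ℝ} (hlr : l < r)
    (hM : 0 < M) (hb : ∀ y ∈ Icc l r, |p.eval y| ≤ M) (hx : x ∈ Icc l r) :
    |(derivative p).eval x| ≤ 4 * n ^ 2 * M / (r - l) := by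
  rcases le_total ((l + r) / 2) x with h | h
  · have h1 := markov_right p hp (l := l) (x := x) (by linarith) hM
      (fun y hy => hb y ⟨hy.1, hy.2.trans hx.2⟩)
    refine h1.trans ?_
    rw [div_le_div_iff₀ (by linarith) (by linarith)]
    have : 0 ≤ 2 * (n:ℝ) ^ 2 * M := by positivity
    nlinarith
  · have h1 := markov_right (p.comp (-X)) (n := n) (by
        rw [natDegree_comp]; simpa using hp) (l := -r) (x := -x) (by linarith) hM
      (fun y hy => by
        rw [eval_comp]
        simp only [eval_neg, eval_X]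
        exact hb (-y) ⟨by linarith [hy.2, hx.1], by linarith [hy.1]⟩)
    have h2 : |(derivative (p.comp (-X))).eval (-x)| = |(derivative p).eval x| := by
      rw [derivative_comp]
      simp
    rw [h2] at h1
    refine h1.trans ?_
    rw [div_le_div_iff₀ (by linarith) (by linarith)]
    have : 0 ≤ 2 * (n:ℝ) ^ 2 * M := by positivity
    nlinarith

end Pool.Agent.K9h2.LI
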