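import Pool.Agent.K9h2.LI.Size
import Pool.Agent.K9h2.LI.Markov

/-! The variation of the parameter along the closed orbits. -/

open Set Filter Topology MeasureTheory
open scoped ENNReal

namespace Pool.Agent.K9h2.LI

/-- a closed orbit with friction at most `Λ` -/
structure Orb (g f : ℝ → ℝ) (Λ : ℝ) where
  μ : ℝ
  l : ℝ
  r : ℝ
  U : ℝ → ℝ
  L : ℝ → ℝ
  loop : Loop g f μ l r U L
  bd : ∀ x ∈ Icc l r, |f x + μ| ≤ Λ

variable {g f : ℝ → ℝ} {Λ : ℝ}

noncomputable def Orb.S (o : Orb g f Λ) : ℝ := size g o.l o.r o.U o.L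

lemma Orb.inside {o1 o2 : Orb g f Λ} (hg : Rest g) (hf : Continuous f) (h : o1.U 0 < o2.U 0) :
    Inside o1.l o1.r o1.U o1.L o2.l o2.r o2.U o2.L :=
  Loop.nest hg o1.loop o2.loop hf (max_lt o1.loop.up.hl o2.loop.up.hl)
    (lt_min o1.loop.up.hr o2.loop.up.hr) h

lemma Orb.zero_mem (o : Orb g f Λ) : (0:ℝ) ∈ Icc o.l o.r :=
  ⟨o.loop.up.hl.le, o.loop.up.hr.le⟩

lemma Orb.nonneg (o : Orb g f Λ) : 0 ≤ Λ := (abs_nonneg _).trans (o.bd 0 o.zero_mem)

lemma Orb.S_pos (hg : Rest g) (o : Orb g f Λ) : 0 < o.S := by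
  have hr := o.loop.up.hr
  have hpr := hg.pot_pos hr.ne'
  have hev : ∀ᶠ x in 𝓝[>] (0:ℝ), 2 * pot g x < pot g o.r := by
    have h1 : Filter.Tendsto (fun x => 2 * pot g x) (𝓝 0) (𝓝 (2 * pot g 0)) :=
      (hg.pot_cont.const_mul 2).continuousAt
    rw [pot_zero, mul_zero] at h1
    exact (h1.eventually (gt_mem_nhds hpr)).filter_mono nhdsWithin_le_nhds
  have hev2 : ∀ᶠ x in 𝓝[>] (0:ℝ), x < o.r :=
    mem_nhdsWithin_of_mem_nhds (gt_mem_nhds hr)
  obtain ⟨x, hx1, hx2, hx3⟩ := (hev.and (hev2.and self_mem_nhdsWithin)).exists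
  have hx3' : 0 < x := hx3
  have := o.loop.size_ge hg (l' := 0) (r' := x) o.loop.up.hl le_rfl hx3'.le hx2
    (by rw [pot_zero, mul_zero]; exact hg.pot_nonneg _) hx1.le
  change _ ≤ o.S at this
  linarith

lemma Orb.S_le (hg : Rest g) (o : Orb g f Λ) : o.S ≤ 2 * (o.r - o.l) := size_le hg o.loop

lemma Orb.S_mono {o1 o2 : Orb g f Λ} (hg : Rest g) (hf : Continuous f) (h : o1.U 0 < o2.U 0) :
    o1.S ≤ o2.S :=
  (Orb.inside hg hf h).size_le hg o1.loop o2.loop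

lemma Orb.abs_sub_le (o1 o2 : Orb g f Λ) : |o2.μ - o1.μ| ≤ 2 * Λ := by
  have h1 := o1.bd 0 o1.zero_mem
  have h2 := o2.bd 0 o2.zero_mem
  have : o2.μ - o1.μ = (f 0 + o2.μ) - (f 0 + o1.μ) := by ring
  rw [this]
  exact (abs_sub _ _).trans (by linarith)

lemma Orb.bd3 {o1 o2 : Orb g f Λ} : ∀ x ∈ Icc o2.l o2.r, |f x + o1.μ| ≤ 3 * Λ := by
  intro x hx
  have h1 := o2.bd x hx
  have h2 := o1.abs_sub_le o2
  have : f x + o1.μ = (f x + o2.μ) - (o2.μ - o1.μ) := by ring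
  rw [this]
  exact (abs_sub _ _).trans (by linarith)

lemma log_step {a b : ℝ} (ha : 0 < a) (hab : a ≤ b) : (b - a) / b ≤ Real.log b - Real.log a := by
  have hb : 0 < b := ha.trans_le hab
  have h1 := Real.one_sub_inv_le_log_of_pos (div_pos hb ha)
  rw [Real.log_div hb.ne' ha.ne'] at h1
  have h2 : 1 - (b / a)⁻¹ = (b - a) / b := by field_simp
  linarith

lemma Orb.step_log {o1 o2 : Orb g f Λ} (hg : Rest g) (hf : Continuous f) (h : o1.U 0 < o2.U 0) :
    |o2.μ - o1.μ| ≤ 3 * Λ * Real.log o2.S - 3 * Λ * Real.log o1.S := by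
  have h1 := (Orb.inside hg hf h).step2 hg o1.loop o2.loop hf Orb.bd3
  change |o2.μ - o1.μ| * o2.S ≤ 3 * Λ * (o2.S - o1.S) at h1
  have h2 := log_step (o1.S_pos hg) (Orb.S_mono hg hf h)
  rw [← le_div_iff₀ (o2.S_pos hg), mul_div_assoc] at h1
  have h3 := o1.nonneg
  have h4 := mul_le_mul_of_nonneg_left h2 (show 0 ≤ 3 * Λ by positivity)
  linarith

/-- the friction of a closed orbit vanishes somewhere -/
lemma Orb.exists_zero (hg : Rest g) (o : Orb g f Λ) (hf : Continuous f) : ∃ ξ ∈ Icc o.l o.r, f ξ + o.μ = 0 := by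
  by_contra hcon
  push Not at hcon
  have hlr : o.l ≤ o.r := (o.loop.up.hl.trans o.loop.up.hr).le
  have hfc : Continuous fun x => f x + o.μ := by fun_prop
  have hz := o.loop.integral_zero hg hf
  have hS := o.S_pos hg
  have key : ∀ k : ℝ → ℝ, Continuous k → (∀ x ∈ Icc o.l o.r, 0 < k x) →
      ∫ x, k x * dens g o.l o.r o.U o.L x ≠ 0 := by
    intro k hgc hgpos
    obtain ⟨x0, hx0, hmin⟩ := (isCompact_Icc (a := o.l) (b := o.r)).exists_isMinOn
      ⟨o.l, left_mem_Icc.2 hlr⟩ hgc.continuousOn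
    have h1 : k x0 * o.S ≤ ∫ x, k x * dens g o.l o.r o.U o.L x := by
      unfold Orb.S size
      rw [← integral_const_mul]
      refine integral_mono ((o.loop.integrable' hg).const_mul _) (o.loop.integrable hg hgc) ?_
      intro x
      by_cases hx : x ∈ Icc o.l o.r
      · exact mul_le_mul_of_nonneg_right (hmin hx) (o.loop.dens_nonneg hg x)
      · have : dens g o.l o.r o.U o.L x = 0 := by unfold dens; rw [indicator_of_notMem hx]
        simp [this]
    have := mul_pos (hgpos x0 hx0) hS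
    exact ne_of_gt (by linarith)
  have hconn : IsPreconnected (Icc o.l o.r) := isPreconnected_Icc
  rcases lt_or_gt_of_ne (hcon 0 o.zero_mem) with h0 | h0
  · have hneg : ∀ x ∈ Icc o.l o.r, 0 < -(f x + o.μ) := by
      intro x hx
      by_contra hc
      push Not at hc
      have h3 : (0:ℝ) ∈ Icc (f 0 + o.μ) (f x + o.μ) := ⟨h0.le, by linarith⟩
      obtain ⟨y, hy, hy2⟩ := hconn.intermediate_value o.zero_mem hx hfc.continuousOn h3
      exact hcon y hy hy2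
    refine key (fun x => -(f x + o.μ)) hfc.neg hneg ?_
    have : (fun x => -(f x + o.μ) * dens g o.l o.r o.U o.L x) =
        fun x => -((f x + o.μ) * dens g o.l o.r o.U o.L x) := by funext x; ring
    rw [this, integral_neg, hz, neg_zero]
  · have hpos : ∀ x ∈ Icc o.l o.r, 0 < f x + o.μ := by
      intro x hx
      by_contra hc
      push Not at hc
      have h3 : (0:ℝ) ∈ Icc (f x + o.μ) (f 0 + o.μ) := ⟨hc, h0.le⟩
      obtain ⟨y, hy, hy2⟩ := hconn.intermediate_value hx o.zero_mem hfc.continuousOn h3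
      exact hcon y hy hy2
    exact key _ hfc hpos hz

/-- the step inequality for a Lipschitz friction coefficient -/
lemma Orb.step_lip {o1 o2 : Orb g f Λ} (hg : Rest g) (hf : Continuous f) (h : o1.U 0 < o2.U 0)
    {κ c : ℝ} (hκ0 : 0 ≤ κ) (hΛ : 0 < Λ) (hc : 0 ≤ c) (hcS : o2.r - o2.l ≤ c * o2.S)
    (hκ : ∀ x ∈ Icc o2.l o2.r, ∀ y ∈ Icc o2.l o2.r, |f x - f y| ≤ κ * |x - y|) :
    |o2.μ - o1.μ| ≤ 4 * Λ * Real.log (1 + c * κ / Λ * o2.S) -
      4 * Λ * Real.log (1 + c * κ / Λ * o1.S) := by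
  have hin := Orb.inside hg hf h
  set A : ℝ := c * κ / Λ with hA
  have hA0 : 0 ≤ A := by positivity
  have hS1 := o1.S_pos hg
  have hS2 := o2.S_pos hg
  have hS12 := Orb.S_mono hg hf h
  -- bound for the friction
  have hB : ∀ x ∈ Icc o2.l o2.r, |f x + o1.μ| ≤ min (Λ * A * o2.S) (3 * Λ) := by
    intro x hx
    refine le_min ?_ (Orb.bd3 x hx)
    obtain ⟨ξ, hξ, hξ2⟩ := o1.exists_zero hg hf
    have hξ' : ξ ∈ Icc o2.l o2.r := ⟨hin.1.le.trans hξ.1, hξ.2.trans hin.2.1.le⟩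
    have h1 : f x + o1.μ = f x - f ξ := by linarith
    rw [h1]
    refine (hκ x hx ξ hξ').trans ?_
    have h2 : |x - ξ| ≤ o2.r - o2.l := by
      rw [abs_le]
      constructor <;> linarith [hx.1, hx.2, hξ'.1, hξ'.2]
    have h5 : Λ * A * o2.S = κ * (c * o2.S) := by
      rw [hA]; field_simp
    rw [h5]
    exact mul_le_mul_of_nonneg_left (by linarith) hκ0
  have h1 := hin.step2 hg o1.loop o2.loop hf hB
  change |o2.μ - o1.μ| * o2.S ≤ min (Λ * A * o2.S) (3 * Λ) * (o2.S - o1.S) at h1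
  have h2 := log_step (a := 1 + A * o1.S) (b := 1 + A * o2.S) (by positivity)
    (by nlinarith)
  have h3 : |o2.μ - o1.μ| ≤ 4 * Λ * ((1 + A * o2.S - (1 + A * o1.S)) / (1 + A * o2.S)) := by
    have hpos : 0 < 1 + A * o2.S := by positivity
    rw [← mul_div_assoc, le_div_iff₀ hpos]
    have e1 : min (Λ * A * o2.S) (3 * Λ) * (o2.S - o1.S) ≤ Λ * A * o2.S * (o2.S - o1.S) :=
      mul_le_mul_of_nonneg_right (min_le_left _ _) (by linarith)
    have e2 : min (Λ * A * o2.S) (3 * Λ) * (o2.S - o1.S) ≤ 3 * Λ * (o2.S - o1.S) :=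
      mul_le_mul_of_nonneg_right (min_le_right _ _) (by linarith)
    have e3 : |o2.μ - o1.μ| ≤ Λ * A * (o2.S - o1.S) := by
      have : |o2.μ - o1.μ| * o2.S ≤ Λ * A * (o2.S - o1.S) * o2.S := by linarith
      exact le_of_mul_le_mul_right this hS2
    have e4 : |o2.μ - o1.μ| * o2.S * A ≤ 3 * Λ * (o2.S - o1.S) * A :=
      mul_le_mul_of_nonneg_right (h1.trans e2) hA0
    nlinarith
  calc |o2.μ - o1.μ| ≤ _ := h3
    _ ≤ 4 * Λ * (Real.log (1 + A * o2.S) - Real.log (1 + A * o1.S)) :=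
      mul_le_mul_of_nonneg_left h2 (by positivity)
    _ = _ := by ring

/-- a bound for the variation by comparison functions -/
lemma evar_le {E : Set ℝ} {m : ℝ → ℝ} {K : ℝ}
    (h : ∀ e ∈ E, ∃ θ : ℝ → ℝ, (∀ y ∈ E, ∀ y' ∈ E, y ≤ y' → y' ≤ e →
      |m y' - m y| ≤ θ y' - θ y) ∧ ∀ y ∈ E, y ≤ e → θ e - θ y ≤ K) :
    eVariationOn m E ≤ ENNReal.ofReal K := by
  refine iSup_le ?_
  rintro ⟨n, u, hu, hus⟩
  obtain ⟨θ, h1, h2⟩ := h (u n) (hus n)
  have h3 : ∀ i ∈ Finset.range n, edist (m (u (i + 1))) (m (u i)) ≤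
      ENNReal.ofReal (θ (u (i + 1)) - θ (u i)) := by
    intro i hi
    rw [edist_dist, Real.dist_eq]
    exact ENNReal.ofReal_le_ofReal (h1 _ (hus i) _ (hus (i + 1)) (hu (Nat.le_succ i))
      (hu (Finset.mem_range.1 hi)))
  refine (Finset.sum_le_sum h3).trans ?_
  rw [← ENNReal.ofReal_sum_of_nonneg]
  · rw [Finset.sum_range_sub (fun i => θ (u i))]
    exact ENNReal.ofReal_le_ofReal (h2 _ (hus 0) (hu (Nat.zero_le n)))
  · intro i hi
    exact (abs_nonneg _).trans (h1 _ (hus i) _ (hus (i + 1)) (hu (Nat.le_succ i))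
      (hu (Finset.mem_range.1 hi)))

end Pool.Agent.K9h2.LI
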