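import Pool.Agent.K9h2.LI.Struct
import Pool.Agent.K9h2.LI.Var
import Pool.Agent.K9h2.LI.Indi

/-! The mean number of closed orbits of Liénard systems. -/

open Set Filter Topology MeasureTheory
open scoped ENNReal

namespace Pool.Agent.K9h2.LI

/-- the closed orbits (ranges of nonconstant periodic solutions) of `x' = v`,
`v' = -g(x) - (f(x) + μ) v` along which `|f(x) + μ| ≤ Λ` -/
def orbits (g f : ℝ → ℝ) (μ Λ : ℝ) : Set (Set (ℝ × ℝ)) :=
  {C | ∃ γ : ℝ → ℝ × ℝ, ∃ T : ℝ, 0 < T ∧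
    (∀ t, HasDerivAt γ ((γ t).2, -g (γ t).1 - (f (γ t).1 + μ) * (γ t).2) t) ∧
    (∀ t, γ (t + T) = γ t) ∧ (∃ s t, γ s ≠ γ t) ∧ (∀ t, |f (γ t).1 + μ| ≤ Λ) ∧ C = range γ}

variable {g f : ℝ → ℝ} {μ Λ : ℝ}

/-- a solution through the origin with bounded friction is zero -/
lemma zero_of_zero (hg : Rest g) {x v lam : ℝ → ℝ} {Λ : ℝ} (hx : ∀ t, HasDerivAt x (v t) t)
    (hv : ∀ t, HasDerivAt v (-g (x t) - lam t * v t) t) (hΛ : ∀ t, |lam t| ≤ Λ) {t0 : ℝ}
    (hx0 : x t0 = 0) (hv0 : v t0 = 0) (t : ℝ) : x t = 0 ∧ v t = 0 := by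
  have hE : ∀ t, HasDerivAt (fun t => 2 * pot g (x t) + v t ^ 2) (-2 * lam t * v t ^ 2) t := by
    intro t
    refine ((((hg.hasDerivAt (x t)).comp t (hx t)).const_mul 2).add ((hv t).pow 2)).congr_deriv ?_
    ring
  have hΛ0 : 0 ≤ Λ := (abs_nonneg _).trans (hΛ 0)
  have hfin : 2 * pot g (x t) + v t ^ 2 ≤ 0 := by
    rcases le_total t0 t with h | h
    · have hanti : AntitoneOn (fun t => (2 * pot g (x t) + v t ^ 2) * Real.exp (-(2 * Λ) * t))
          (Icc t0 t) := by
        have hd : ∀ s, HasDerivAt (fun t => (2 * pot g (x t) + v t ^ 2) * Real.exp (-(2 * Λ) * t))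
            ((-2 * lam s * v s ^ 2) * Real.exp (-(2 * Λ) * s) +
              (2 * pot g (x s) + v s ^ 2) * (Real.exp (-(2 * Λ) * s) * (-(2 * Λ)))) s := by
          intro s
          refine (hE s).mul ?_
          have : HasDerivAt (fun t : ℝ => -(2 * Λ) * t) (-(2 * Λ)) s := by
            simpa using (hasDerivAt_id s).const_mul (-(2 * Λ))
          exact this.exp
        refine antitoneOn_of_deriv_nonpos (convex_Icc _ _)
          (fun s _ => (hd s).continuousAt.continuousWithinAt)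
          (fun s _ => (hd s).differentiableAt.differentiableWithinAt) fun s _ => ?_
        rw [(hd s).deriv]
        have h1 := Real.exp_pos (-(2 * Λ) * s)
        have h2 := neg_abs_le (lam s)
        have h3 := hΛ s
        have h5 := hg.pot_nonneg (x s)
        have h4 : -2 * lam s * v s ^ 2 - 2 * Λ * (2 * pot g (x s) + v s ^ 2) ≤ 0 := by
          nlinarith [sq_nonneg (v s), mul_nonneg hΛ0 h5,
            mul_nonneg (show 0 ≤ Λ + lam s by linarith) (sq_nonneg (v s))]
        nlinarith [mul_nonpos_of_nonpos_of_nonneg h4 h1.le]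
      have := hanti (left_mem_Icc.2 h) (right_mem_Icc.2 h) h
      simp only [hx0, hv0, pot_zero] at this
      have h1 := Real.exp_pos (-(2 * Λ) * t)
      by_contra hcon
      push Not at hcon
      have h2 := mul_pos hcon h1
      have e0 : (2 * (0:ℝ) + 0 ^ 2) = 0 := by norm_num
      rw [e0, zero_mul] at this
      linarith
    · have hmono : MonotoneOn (fun t => (2 * pot g (x t) + v t ^ 2) * Real.exp ((2 * Λ) * t))
          (Icc t t0) := by
        have hd : ∀ s, HasDerivAt (fun t => (2 * pot g (x t) + v t ^ 2) * Real.exp ((2 * Λ) * t))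
            ((-2 * lam s * v s ^ 2) * Real.exp ((2 * Λ) * s) +
              (2 * pot g (x s) + v s ^ 2) * (Real.exp ((2 * Λ) * s) * (2 * Λ))) s := by
          intro s
          refine (hE s).mul ?_
          have : HasDerivAt (fun t : ℝ => (2 * Λ) * t) (2 * Λ) s := by
            simpa using (hasDerivAt_id s).const_mul (2 * Λ)
          exact this.exp
        refine monotoneOn_of_deriv_nonneg (convex_Icc _ _)
          (fun s _ => (hd s).continuousAt.continuousWithinAt)
          (fun s _ => (hd s).differentiableAt.differentiableWithinAt) fun s _ => ?_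
        rw [(hd s).deriv]
        have h1 := Real.exp_pos ((2 * Λ) * s)
        have h2 := le_abs_self (lam s)
        have h3 := hΛ s
        have h5 := hg.pot_nonneg (x s)
        have h4 : 0 ≤ -2 * lam s * v s ^ 2 + 2 * Λ * (2 * pot g (x s) + v s ^ 2) := by
          nlinarith [sq_nonneg (v s), mul_nonneg hΛ0 h5,
            mul_nonneg (show 0 ≤ Λ - lam s by linarith) (sq_nonneg (v s))]
        nlinarith [mul_nonneg h4 h1.le]
      have := hmono (left_mem_Icc.2 h) (right_mem_Icc.2 h) h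
      simp only [hx0, hv0, pot_zero] at this
      have h1 := Real.exp_pos ((2 * Λ) * t)
      by_contra hcon
      push Not at hcon
      have h2 := mul_pos hcon h1
      have e0 : (2 * (0:ℝ) + 0 ^ 2) = 0 := by norm_num
      rw [e0, zero_mul] at this
      linarith
  have hp := hg.pot_nonneg (x t)
  have hv2 : v t = 0 := by nlinarith [sq_nonneg (v t)]
  refine ⟨?_, hv2⟩
  by_contra hne
  have := hg.pot_pos hne
  nlinarith [sq_nonneg (v t)]

lemma exists_orb (hg : Rest g) (hf : Continuous f) {C : Set (ℝ × ℝ)} (hC : C ∈ orbits g f μ Λ) :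
    ∃ o : Orb g f Λ, o.μ = μ ∧ C = curve o.l o.r o.U o.L := by
  obtain ⟨γ, T, hT, hγ, hper, ⟨s, t, hst⟩, hΛ, rfl⟩ := hC
  have hx : ∀ t, HasDerivAt (fun t => (γ t).1) (γ t).2 t := fun t => (hγ t).fst
  have hv : ∀ t, HasDerivAt (fun t => (γ t).2) (-g (γ t).1 - (f (γ t).1 + μ) * (γ t).2) t :=
    fun t => (hγ t).snd
  have S : Sol g (fun y => f y + μ) (fun t => (γ t).1) (fun t => (γ t).2) T := by
    refine ⟨hT, hx, hv, fun t => by simp only [hper t], fun t => by simp only [hper t], ?_⟩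
    intro t0 h1 h2
    have := zero_of_zero hg (lam := fun t => f (γ t).1 + μ) hx hv hΛ h2 h1
    apply hst
    exact Prod.ext (by rw [(this s).1, (this t).1]) (by rw [(this s).2, (this t).2])
  obtain ⟨l, r, U, L, hU, hL, hran⟩ := Sol.exists_arcs hg S (by fun_prop)
  have hran' : range γ = curve l r U L := hran
  refine ⟨⟨μ, l, r, U, L, ⟨hU, hL⟩, ?_⟩, rfl, hran'⟩
  intro y hy
  have : (y, U y) ∈ range γ := by
    rw [hran']
    exact Or.inl ⟨y, hy, rfl⟩
  obtain ⟨t, ht⟩ := this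
  have h1 := hΛ t
  rw [ht] at h1
  exact h1

/-- counting the closed orbits with a property by their heights -/
theorem count (hg : Rest g) (hf : Continuous f) (Λ : ℝ) (P : Set (ℝ × ℝ) → Prop) {K : ℝ}
    (h : ∀ e : Orb g f Λ, P (curve e.l e.r e.U e.L) → ∃ θ : Orb g f Λ → ℝ,
      (∀ o o' : Orb g f Λ, P (curve o.l o.r o.U o.L) → P (curve o'.l o'.r o'.U o'.L) →
        o.U 0 < o'.U 0 → o'.U 0 ≤ e.U 0 → |o'.μ - o.μ| ≤ θ o' - θ o) ∧
      (∀ o o' : Orb g f Λ, o.U 0 = o'.U 0 → θ o = θ o') ∧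
      ∀ o : Orb g f Λ, P (curve o.l o.r o.U o.L) → o.U 0 ≤ e.U 0 → θ e - θ o ≤ K) :
    ∃ N : ℝ → ℝ≥0∞, Measurable N ∧
      (∀ μ, (({C | C ∈ orbits g f μ Λ ∧ P C}.encard : ℕ∞) : ℝ≥0∞) ≤ N μ) ∧
      ∫⁻ μ, N μ ≤ ENNReal.ofReal K := by
  classical
  set E : Set ℝ := {y | ∃ o : Orb g f Λ, P (curve o.l o.r o.U o.L) ∧ o.U 0 = y} with hE
  have hch : ∀ y : ℝ, ∃ o : Option (Orb g f Λ), y ∈ E → ∃ o', o = some o' ∧
      P (curve o'.l o'.r o'.U o'.L) ∧ o'.U 0 = y := by
    intro y
    by_cases hy : y ∈ E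
    · obtain ⟨o, ho⟩ := hy
      exact ⟨some o, fun _ => ⟨o, rfl, ho⟩⟩
    · exact ⟨none, fun h => absurd h hy⟩
  choose O hO using hch
  set m : ℝ → ℝ := fun y => (O y).elim 0 Orb.μ with hm
  have hmo : ∀ o : Orb g f Λ, P (curve o.l o.r o.U o.L) → m (o.U 0) = o.μ := by
    intro o ho
    obtain ⟨o', h1, h2, h3⟩ := hO (o.U 0) ⟨o, ho, rfl⟩
    simp only [hm, h1, Option.elim]
    exact Loop.eq_param hg o'.loop o.loop hf h3
  obtain ⟨N, hg1, hg2, hg3⟩ := banach E m
  refine ⟨N, hg1, fun μ => (ENat.toENNReal_le.2 ?_).trans (hg2 μ), hg3.trans ?_⟩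
  · -- injection
    have hex : ∀ C ∈ {C | C ∈ orbits g f μ Λ ∧ P C}, ∃ o : Orb g f Λ, o.μ = μ ∧
        C = curve o.l o.r o.U o.L := fun C hC => exists_orb hg hf hC.1
    rcases isEmpty_or_nonempty (Orb g f Λ) with hemp | hne
    · have he : {C | C ∈ orbits g f μ Λ ∧ P C} = ∅ := by
        refine eq_empty_of_forall_notMem fun C hC => ?_
        obtain ⟨o, -⟩ := hex C hC
        exact hemp.false o
      rw [he]
      simp
    choose! Q hQ using hex
    refine encard_le_encard_of_injOn (f := fun C => (Q C).U 0) ?_ ?_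
    · intro C hC
      have h1 := hQ C hC
      have hP : P (curve (Q C).l (Q C).r (Q C).U (Q C).L) := h1.2 ▸ hC.2
      refine ⟨⟨Q C, hP, rfl⟩, ?_⟩
      change m ((Q C).U 0) = μ
      rw [hmo _ hP, h1.1]
    · intro C hC C' hC' heq
      have h1 := hQ C hC
      have h2 := hQ C' hC'
      obtain ⟨e1, e2, e3, e4⟩ := Loop.eq_of hg (Q C).loop (Q C').loop hf heq
      rw [h1.2, h2.2]
      unfold curve
      rw [← e1, ← e2]
      congr 1
      · exact image_congr fun y hy => by rw [e3 y hy]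
      · exact image_congr fun y hy => by rw [e4 y hy]
  · refine evar_le ?_
    rintro _ ⟨e, he, rfl⟩
    obtain ⟨θ, h1, h2, h3⟩ := h e he
    refine ⟨fun y => (O y).elim 0 θ, ?_, ?_⟩
    · rintro _ ⟨o, ho, rfl⟩ _ ⟨o', ho', rfl⟩ hle hle'
      have e1 : (O (o.U 0)).elim 0 θ = θ o := by
        obtain ⟨o1, k1, k2, k3⟩ := hO (o.U 0) ⟨o, ho, rfl⟩
        rw [k1]; exact h2 _ _ k3
      have e2 : (O (o'.U 0)).elim 0 θ = θ o' := by
        obtain ⟨o1, k1, k2, k3⟩ := hO (o'.U 0) ⟨o', ho', rfl⟩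
        rw [k1]; exact h2 _ _ k3
      simp only
      rw [e1, e2, hmo o ho, hmo o' ho']
      rcases hle.lt_or_eq with hlt | heq
      · exact h1 o o' ho ho' hlt hle'
      · rw [h2 o o' heq, ← hmo o ho, ← hmo o' ho', heq]
        simp
    · rintro _ ⟨o, ho, rfl⟩ hle
      have e1 : (O (o.U 0)).elim 0 θ = θ o := by
        obtain ⟨o1, k1, k2, k3⟩ := hO (o.U 0) ⟨o, ho, rfl⟩
        rw [k1]; exact h2 _ _ k3
      have e2 : (O (e.U 0)).elim 0 θ = θ e := by
        obtain ⟨o1, k1, k2, k3⟩ := hO (e.U 0) ⟨e, he, rfl⟩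
        rw [k1]; exact h2 _ _ k3
      simp only
      rw [e1, e2]
      exact h3 o ho hle

lemma Orb.S_eq (hg : Rest g) (hf : Continuous f) {o o' : Orb g f Λ} (h : o.U 0 = o'.U 0) :
    o.S = o'.S := by
  obtain ⟨e1, e2, e3, e4⟩ := Loop.eq_of hg o.loop o'.loop hf h
  unfold Orb.S size dens
  rw [← e1, ← e2]
  congr 1
  funext x
  by_cases hx : x ∈ Icc o.l o.r
  · rw [indicator_of_mem hx, indicator_of_mem hx, e3 x hx, e4 x hx]
  · rw [indicator_of_notMem hx, indicator_of_notMem hx]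

open Polynomial in
/-- a primitive of a polynomial -/
lemma exists_primitive {m : ℕ} (q : ℝ[X]) (hq : q.natDegree ≤ m) :
    ∃ Q : ℝ[X], derivative Q = q ∧ Q.natDegree ≤ m + 1 ∧ Q.eval 0 = 0 := by
  refine ⟨∑ i ∈ Finset.range (m + 1), C (q.coeff i / (i + 1)) * X ^ (i + 1), ?_, ?_, ?_⟩
  · rw [derivative_sum]
    conv_rhs => rw [q.as_sum_range' (m + 1) (Nat.lt_succ_of_le hq)]
    refine Finset.sum_congr rfl fun i _ => ?_
    rw [derivative_C_mul_X_pow, C_mul_X_pow_eq_monomial]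
    congr 1
    push_cast
    field_simp
  · refine natDegree_sum_le_of_forall_le _ _ fun i hi => ?_
    refine (natDegree_C_mul_X_pow_le _ _).trans ?_
    have := Finset.mem_range.1 hi
    omega
  · simp [eval_finsetSum]

lemma pot_eq {q Q : Polynomial ℝ} (hQ : Polynomial.derivative Q = q) (h0 : Q.eval 0 = 0) (x : ℝ) :
    pot (fun x => q.eval x) x = Q.eval x := by
  unfold pot
  have hd : ∀ t ∈ uIcc 0 x, HasDerivAt (fun x => Q.eval x) (q.eval t) t := by
    intro t _
    have := Q.hasDerivAt t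
    rwa [hQ] at this
  rw [intervalIntegral.integral_eq_sub_of_hasDerivAt hd (q.continuous.intervalIntegrable _ _), h0,
    sub_zero]

/-- polynomial potentials double -/
lemma pot_double {m : ℕ} {q : Polynomial ℝ} (hq : q.natDegree ≤ m)
    (hg : Rest fun x => q.eval x) {r : ℝ} (hr : r ≠ 0) :
    2 * pot (fun x => q.eval x) (1 / (8 * (m + 1) ^ 2) * r) ≤ pot (fun x => q.eval x) r := by
  obtain ⟨Q, h1, h2, h3⟩ := exists_primitive q hq
  set η : ℝ := 1 / (8 * (m + 1) ^ 2) with hη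
  have hη0 : 0 < η := by positivity
  have hη1 : η ≤ 1 := by
    rw [hη, div_le_one (by positivity)]
    have : (1:ℝ) ≤ (m + 1) ^ 2 := by nlinarith [(Nat.cast_nonneg m : (0:ℝ) ≤ m)]
    linarith
  have hpos := hg.pot_pos hr
  have hpQ : ∀ x, pot (fun x => q.eval x) x = Q.eval x := pot_eq h1 h3
  rcases lt_or_gt_of_ne hr with hr0 | hr0
  · have hb : ∀ y ∈ Icc r 0, |Q.eval y| ≤ pot (fun x => q.eval x) r := by
      intro y hy
      rw [← hpQ, abs_of_nonneg (hg.pot_nonneg y)]
      exact hg.strictAntiOn.antitoneOn (mem_Iic.2 hr0.le) (mem_Iic.2 hy.2) hy.1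
    have hd : ∀ z ∈ Icc r 0, ‖deriv (fun x => Q.eval x) z‖ ≤
        4 * (m + 1 : ℕ) ^ 2 * pot (fun x => q.eval x) r / (0 - r) := by
      intro z hz
      rw [Polynomial.deriv, Real.norm_eq_abs]
      exact markov Q h2 hr0 hpos hb hz
    have hmem : η * r ∈ Icc r 0 := ⟨by nlinarith, by nlinarith⟩
    have := (convex_Icc r 0).norm_image_sub_le_of_norm_deriv_le
      (f := fun x => Q.eval x) (fun z _ => Q.differentiable z) hd (right_mem_Icc.2 hr0.le) hmem
    rw [h3, sub_zero, sub_zero, ← hpQ, Real.norm_eq_abs, Real.norm_eq_abs,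
      abs_of_nonneg (hg.pot_nonneg _), abs_of_nonpos (by nlinarith)] at this
    have h5 : 4 * ((m + 1 : ℕ) : ℝ) ^ 2 * pot (fun x => q.eval x) r / (0 - r) * -(η * r) =
        pot (fun x => q.eval x) r / 2 := by
      rw [hη]
      push_cast
      field_simp
      ring
    linarith
  · have hb : ∀ y ∈ Icc 0 r, |Q.eval y| ≤ pot (fun x => q.eval x) r := by
      intro y hy
      rw [← hpQ, abs_of_nonneg (hg.pot_nonneg y)]
      exact hg.strictMonoOn.monotoneOn (mem_Ici.2 hy.1) (mem_Ici.2 hr0.le) hy.2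
    have hd : ∀ z ∈ Icc 0 r, ‖deriv (fun x => Q.eval x) z‖ ≤
        4 * (m + 1 : ℕ) ^ 2 * pot (fun x => q.eval x) r / (r - 0) := by
      intro z hz
      rw [Polynomial.deriv, Real.norm_eq_abs]
      exact markov Q h2 hr0 hpos hb hz
    have hmem : η * r ∈ Icc 0 r := ⟨by nlinarith, by nlinarith⟩
    have := (convex_Icc 0 r).norm_image_sub_le_of_norm_deriv_le
      (f := fun x => Q.eval x) (fun z _ => Q.differentiable z) hd (left_mem_Icc.2 hr0.le) hmem
    rw [h3, sub_zero, sub_zero, ← hpQ, Real.norm_eq_abs, Real.norm_eq_abs,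
      abs_of_nonneg (hg.pot_nonneg _), abs_of_nonneg (by nlinarith)] at this
    have h5 : 4 * ((m + 1 : ℕ) : ℝ) ^ 2 * pot (fun x => q.eval x) r / (r - 0) * (η * r) =
        pot (fun x => q.eval x) r / 2 := by
      rw [hη]
      push_cast
      field_simp
      ring
    simp only [sub_zero] at this h5
    linarith

/-- the width is bounded by the size, if the potential doubles -/
lemma Orb.width_le (hg : Rest g) (o : Orb g f Λ) {η : ℝ} (hη : 0 < η) (hη1 : η < 1)
    (hd : ∀ x : ℝ, x ≠ 0 → 2 * pot g (η * x) ≤ pot g x) :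
    7 / 10 * η * (o.r - o.l) ≤ o.S := by
  have hl := o.loop.up.hl
  have hr := o.loop.up.hr
  have := o.loop.size_ge hg (l' := η * o.l) (r' := η * o.r) (by nlinarith) (by nlinarith)
    (by nlinarith) (by nlinarith) (hd _ hl.ne) (hd _ hr.ne')
  change _ ≤ o.S at this
  linarith

/-- **Polynomial friction and restoring force.** -/
theorem main_poly (n m : ℕ) (p q : Polynomial ℝ) (hp : p.natDegree ≤ n) (hq : q.natDegree ≤ m)
    (hg : Rest fun x => q.eval x) (Λ : ℝ) (hΛ : 0 < Λ) :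
    ∃ N : ℝ → ℝ≥0∞, Measurable N ∧
      (∀ μ, (((orbits (fun x => q.eval x) (fun x => p.eval x) μ Λ).encard : ℕ∞) : ℝ≥0∞) ≤ N μ) ∧
      ∫⁻ μ, N μ ≤ ENNReal.ofReal (4 * Λ * Real.log (1 + 96 * (m + 1) ^ 2 * n ^ 2)) := by
  have hf : Continuous fun x => p.eval x := p.continuous
  have := count hg hf Λ (fun _ => True) (K := 4 * Λ * Real.log (1 + 96 * (m + 1) ^ 2 * n ^ 2)) ?_
  · obtain ⟨N, h1, h2, h3⟩ := this
    refine ⟨N, h1, fun μ => ?_, h3⟩
    have := h2 μ
    simpa using this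
  · intro e _
    have hlr : e.l < e.r := e.loop.up.hl.trans e.loop.up.hr
    set κ : ℝ := 4 * n ^ 2 * Λ / (e.r - e.l) with hκdef
    have hκ0 : 0 ≤ κ := by
      rw [hκdef]
      have : 0 < e.r - e.l := by linarith
      positivity
    set c : ℝ := 12 * (m + 1) ^ 2 with hcdef
    have hc0 : 0 ≤ c := by positivity
    have hcS : ∀ o : Orb (fun x => q.eval x) (fun x => p.eval x) Λ, o.r - o.l ≤ c * o.S := by
      intro o
      have hη1 : (1:ℝ) / (8 * (m + 1) ^ 2) < 1 := by
        rw [div_lt_one (by positivity)]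
        have : (1:ℝ) ≤ (m + 1) ^ 2 := by nlinarith [(Nat.cast_nonneg m : (0:ℝ) ≤ m)]
        linarith
      have h1 := o.width_le hg (η := 1 / (8 * (m + 1) ^ 2)) (by positivity) hη1
        (fun x hx => pot_double hq hg hx)
      have h2 : 0 ≤ o.r - o.l := by linarith [o.loop.up.hl, o.loop.up.hr]
      have h3 : c * (7 / 10 * (1 / (8 * (m + 1) ^ 2)) * (o.r - o.l)) ≤ c * o.S :=
        mul_le_mul_of_nonneg_left h1 hc0
      have h4 : c * (7 / 10 * (1 / (8 * ((m:ℝ) + 1) ^ 2)) * (o.r - o.l)) =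
          21 / 20 * (o.r - o.l) := by
        rw [hcdef]; field_simp; ring
      linarith
    -- Lipschitz bound on the range of e
    have hLip : ∀ x ∈ Icc e.l e.r, ∀ y ∈ Icc e.l e.r,
        |p.eval x - p.eval y| ≤ κ * |x - y| := by
      intro x hx y hy
      have hb : ∀ z ∈ Icc e.l e.r, |(p + Polynomial.C e.μ).eval z| ≤ Λ := by
        intro z hz
        have := e.bd z hz
        simpa using this
      have hd : ∀ z ∈ Icc e.l e.r, ‖deriv (fun x => p.eval x) z‖ ≤ κ := by
        intro z hz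
        have := markov (n := n) (p + Polynomial.C e.μ)
          (by rw [Polynomial.natDegree_add_C]; exact hp) hlr hΛ hb hz
        rw [Polynomial.deriv, Real.norm_eq_abs]
        simpa using this
      have := (convex_Icc e.l e.r).norm_image_sub_le_of_norm_deriv_le
        (f := fun x => p.eval x) (fun z _ => p.differentiable z) hd hy hx
      simpa [Real.norm_eq_abs] using this
    refine ⟨fun o => 4 * Λ * Real.log (1 + c * κ / Λ * o.S), ?_, ?_, ?_⟩
    · intro o o' _ _ hlt hle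
      have hsub : Icc o'.l o'.r ⊆ Icc e.l e.r := by
        rcases hle.lt_or_eq with h | h
        · have := Orb.inside hg hf h
          exact Icc_subset_Icc this.1.le this.2.1.le
        · obtain ⟨e1, e2, -, -⟩ := Loop.eq_of hg o'.loop e.loop hf h
          rw [e1, e2]
      exact Orb.step_lip hg hf hlt hκ0 hΛ hc0 (hcS o') fun x hx y hy =>
        hLip x (hsub hx) y (hsub hy)
    · intro o o' h
      simp only
      rw [Orb.S_eq hg hf h]
    · intro o _ _
      have h1 := e.S_le hg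
      have h2 := o.S_pos hg
      have hpos : 0 < e.r - e.l := by linarith
      have hA : 0 ≤ c * κ / Λ := by positivity
      have h3 : 0 ≤ Real.log (1 + c * κ / Λ * o.S) := by
        apply Real.log_nonneg
        have := mul_nonneg hA h2.le
        linarith
      have h4 : c * κ / Λ * e.S ≤ 96 * (m + 1) ^ 2 * n ^ 2 := by
        have h5 : c * κ / Λ * e.S ≤ c * κ / Λ * (2 * (e.r - e.l)) :=
          mul_le_mul_of_nonneg_left h1 hA
        refine h5.trans (le_of_eq ?_)
        rw [hκdef, hcdef]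
        field_simp
        ring
      have h5 : Real.log (1 + c * κ / Λ * e.S) ≤
          Real.log (1 + 96 * (m + 1) ^ 2 * n ^ 2) := by
        apply Real.log_le_log
        · have := mul_nonneg hA (e.S_pos hg).le
          linarith
        · linarith
      have h6 : 0 ≤ 4 * Λ := by positivity
      have h7 := mul_le_mul_of_nonneg_left h5 h6
      have h8 := mul_nonneg h6 h3
      simp only
      linarith

/-- the amplitude of `C` is between `a` and `b` -/
def Ampl (a b : ℝ) (C : Set (ℝ × ℝ)) : Prop :=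
  (∃ z ∈ C, a ≤ |z.1|) ∧ ∀ z ∈ C, |z.1| ≤ b

/-- **Arbitrary continuous friction.** -/
theorem main_cont (hg : Rest g) (hf : Continuous f) (Λ : ℝ) (hΛ : 0 ≤ Λ) {η : ℝ} (hη : 0 < η)
    (hη1 : η < 1) (hd : ∀ x : ℝ, x ≠ 0 → 2 * pot g (η * x) ≤ pot g x) {a b : ℝ} (ha : 0 < a)
    (hab : a ≤ b) :
    ∃ N : ℝ → ℝ≥0∞, Measurable N ∧
      (∀ μ, (({C | C ∈ orbits g f μ Λ ∧ Ampl a b C}.encard : ℕ∞) : ℝ≥0∞) ≤ N μ) ∧
      ∫⁻ μ, N μ ≤ ENNReal.ofReal (3 * Λ * Real.log (6 / η * (b / a))) := by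
  refine count hg hf Λ (Ampl a b) ?_
  intro e he
  refine ⟨fun o => 3 * Λ * Real.log o.S, fun o o' _ _ hlt _ => Orb.step_log hg hf hlt, ?_, ?_⟩
  · intro o o' h
    simp only
    rw [Orb.S_eq hg hf h]
  · intro o ho _
    have hb : 0 < b := ha.trans_le hab
    have h1 : e.S ≤ 4 * b := by
      have h2 := e.S_le hg
      have hlr : e.l ≤ e.r := (e.loop.up.hl.trans e.loop.up.hr).le
      have h3 := he.2 (e.r, e.U e.r) (Or.inl ⟨e.r, right_mem_Icc.2 hlr, rfl⟩)
      have h4 := he.2 (e.l, e.U e.l) (Or.inl ⟨e.l, left_mem_Icc.2 hlr, rfl⟩)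
      simp only at h3 h4
      have h5 := le_abs_self e.r
      have h6 := neg_abs_le e.l
      linarith
    have h2 : 7 / 10 * η * a ≤ o.S := by
      obtain ⟨z, hz, haz⟩ := ho.1
      have hz1 : z.1 ∈ Icc o.l o.r := by
        rcases hz with ⟨y, hy, rfl⟩ | ⟨y, hy, rfl⟩ <;> exact hy
      have h3 := o.width_le hg hη hη1 hd
      have h4 : |z.1| ≤ o.r - o.l := by
        have := o.loop.up.hl
        have := o.loop.up.hr
        exact abs_le.2 ⟨by linarith [hz1.1], by linarith [hz1.2]⟩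
      refine le_trans ?_ h3
      exact mul_le_mul_of_nonneg_left (haz.trans h4) (by positivity)
    have hS := o.S_pos hg
    have hSe := e.S_pos hg
    have h3 : Real.log e.S - Real.log o.S ≤ Real.log (6 / η * (b / a)) := by
      rw [← Real.log_div hSe.ne' hS.ne']
      apply Real.log_le_log (by positivity)
      rw [div_le_iff₀ hS]
      have h5 : 6 / η * (b / a) * (7 / 10 * η * a) ≤ 6 / η * (b / a) * o.S :=
        mul_le_mul_of_nonneg_left h2 (by positivity)
      have h6 : 6 / η * (b / a) * (7 / 10 * η * a) = 42 / 10 * b := by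
        field_simp
        norm_num
      linarith
    have := mul_le_mul_of_nonneg_left h3 (show 0 ≤ 3 * Λ by positivity)
    simp only
    linarith

end Pool.Agent.K9h2.LI
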