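import Pool.Agent.K9h2.LI.Sign
import Pool.Agent.K9h2.LI.Alt
import Pool.Agent.K9h2.LI.Main

/-! The order `log n` is attained. -/

open Set Filter Topology Polynomial

namespace Pool.Agent.K9h2.LI

lemma close {k : ℝ → ℝ} {δ : ℝ} (hδ0 : 0 < δ) (hδ : δ ≤ 1 / 10)
    (hk : ∀ x, |x| ≤ 1 → |k x| ≤ δ) {u : ℝ → ℝ}
    (hu : ∀ θ ∈ Icc 0 (2 * Real.pi), HasDerivWithinAt u (rhs k θ (u θ)) (Icc 0 (2 * Real.pi)) θ)
    {θ : ℝ} (hθ : θ ∈ Icc 0 (2 * Real.pi)) : |u θ - u 0| ≤ Real.log 2 := by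
  have hpi' := Real.pi_lt_d2
  have hpi := Real.pi_pos
  have hbd : ∀ θ v, |rhs k θ v| ≤ 20 / 19 * δ := abs_rhs_le hk hδ
  have h1 := (convex_Icc 0 (2 * Real.pi)).norm_image_sub_le_of_norm_hasDerivWithin_le
    (f := u) (f' := fun θ => rhs k θ (u θ)) (C := 20 / 19 * δ) hu
    (fun x _ => by rw [Real.norm_eq_abs]; exact hbd x _) (left_mem_Icc.2 (by linarith)) hθ
  rw [Real.norm_eq_abs, Real.norm_eq_abs, sub_zero, abs_of_nonneg hθ.1] at h1
  have h2 : 20 / 19 * δ * θ ≤ 20 / 19 * (1 / 10) * (2 * 3.15) := by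
    apply mul_le_mul _ _ hθ.1 (by norm_num)
    · linarith
    · linarith [hθ.2]
  have h3 := Real.log_two_gt_d9
  norm_num at h2 h3 ⊢
  linarith

/-- one closed orbit between two consecutive plateaus -/
theorem one_orbit {k : ℝ → ℝ} {δ σ ρ ρ' : ℝ} (hδ0 : 0 < δ) (hδ : δ ≤ 1 / 10)
    (hσ : |σ| = 1) (hk : ∀ x, |x| ≤ 1 → |k x| ≤ δ) (hc : Continuous k) {K : ℝ} (hK : 0 ≤ K)
    (hl : ∀ x y, |x| ≤ 1 → |y| ≤ 1 → |k x - k y| ≤ K * |x - y|)
    (hρ0 : 0 < ρ') (hρρ : ρ' < ρ) (hρ : 2 * ρ ≤ 1)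
    (h1 : ∀ x, ρ / 512 ≤ |x| → |x| ≤ 2 * ρ → δ / 2 ≤ σ * k x)
    (h2 : ∀ x, ρ' / 512 ≤ |x| → |x| ≤ 2 * ρ' → δ / 2 ≤ -σ * k x) :
    ∃ c ∈ Ioo (Real.log ρ') (Real.log ρ), ∃ U : ℝ → ℝ, U 0 = c ∧
      (∀ θ, U (θ + 2 * Real.pi) = U θ) ∧
      (∀ θ, HasDerivAt U (phi θ (k (Real.exp (U θ) * Real.cos θ))) θ) ∧ ∀ θ, U θ ≤ 0 := by
  have hpi := Real.pi_pos
  have hlog : Real.log ρ' < Real.log ρ := Real.log_lt_log hρ0 hρρ
  have hk' : ∀ x, |x| ≤ 1 → |k x| ≤ 1 / 10 := fun x hx => (hk x hx).trans hδ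
  obtain ⟨α, hα, hαc⟩ := exists_flow hk' hc hK hl hlog.le
  have hl1 : Real.log ρ' ∈ Icc (Real.log ρ') (Real.log ρ) := left_mem_Icc.2 hlog.le
  have hr1 : Real.log ρ ∈ Icc (Real.log ρ') (Real.log ρ) := right_mem_Icc.2 hlog.le
  have s1 := sign hδ0 hδ hσ hk (hρ0.trans hρρ) hρ h1 (hα _ hr1).2 (hα _ hr1).1
  have s2 := sign hδ0 hδ (by rwa [abs_neg]) hk hρ0 (by linarith) h2 (hα _ hl1).2 (hα _ hl1).1
  rw [(hα _ hr1).1] at s1
  rw [(hα _ hl1).1] at s2
  have hcont : ContinuousOn (fun c => σ * (α c (2 * Real.pi) - c))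
      (Icc (Real.log ρ') (Real.log ρ)) := by fun_prop
  obtain ⟨c, hc1, hc2⟩ := intermediate_value_Ioo hlog.le hcont
    (show (0:ℝ) ∈ Ioo (σ * (α (Real.log ρ') (2 * Real.pi) - Real.log ρ'))
      (σ * (α (Real.log ρ) (2 * Real.pi) - Real.log ρ)) from ⟨by linarith, by linarith⟩)
  have hσ0 : σ ≠ 0 := by
    rintro rfl
    norm_num at hσ
  have hfix : α c (2 * Real.pi) = c := by
    rcases mul_eq_zero.1 hc2 with h | h
    · exact absurd h hσ0
    · linarith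
  have hmem := hα c (Ioo_subset_Icc_self hc1)
  have hF : ∀ θ z, rhs k (θ + 2 * Real.pi) z = rhs k θ z := by
    intro θ z
    simp only [rhs, phi, Real.cos_add_two_pi, Real.sin_add_two_pi]
  obtain ⟨U, u1, u2, u3, u4⟩ := periodic_ext (F := rhs k) (T := 2 * Real.pi) (by linarith) hF
    (u := α c) hmem.2 (by rw [hmem.1, hfix])
  have hU0 : U 0 = c := by
    rw [u3 0 ⟨le_rfl, by linarith⟩, hmem.1]
  have hUle : ∀ θ, U θ ≤ 0 := by
    intro θ
    obtain ⟨θ', h3, h4⟩ := u4 θ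
    have h5 := close hδ0 hδ hk hmem.2 h3
    rw [hmem.1] at h5
    have h6 := (abs_le.1 h5).2
    have h7 : Real.log ρ + Real.log 2 ≤ 0 := by
      rw [← Real.log_mul (hρ0.trans hρρ).ne' (by norm_num)]
      exact Real.log_nonpos (by linarith) (by linarith)
    rw [h4]
    linarith [hc1.2]
  refine ⟨c, hc1, U, hU0, u1, fun θ => ?_, hUle⟩
  have := u2 θ
  unfold rhs at this
  rwa [min_eq_left (hUle θ)] at this

/-- **The order of the mean is attained**: `K` closed orbits with friction at most `δ`, with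
degree at most `2 ^ (30 K + 1)`, for a whole interval of friction constants. -/
theorem lower (K : ℕ) {δ : ℝ} (hδ0 : 0 < δ) (hδ : δ ≤ 1 / 10) :
    ∃ p : ℝ[X], p.natDegree ≤ 2 ^ (30 * K + 1) ∧
      ∀ μ ∈ Icc (-δ) (-(2 / 3) * δ),
        (K : ℕ∞) ≤ (orbits (fun x => x) (fun x => p.eval x) μ δ).encard := by
  refine ⟨C (5 * δ / 3) * wav K, ?_, fun μ hμ => ?_⟩
  · exact (natDegree_C_mul_le _ _).trans (wav_natDegree K)
  set p : ℝ[X] := C (5 * δ / 3) * wav K with hp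
  set k : ℝ → ℝ := fun x => p.eval x + μ with hkdef
  have hke : ∀ x, k x = 5 * δ / 3 * (wav K).eval x + μ := fun x => by simp [hkdef, hp]
  have hc : Continuous k := by
    have := p.continuous
    fun_prop
  have hk : ∀ x, |x| ≤ 1 → |k x| ≤ δ := by
    intro x hx
    obtain ⟨h1, h2⟩ := wav_mem K hx
    rw [hke, abs_le]
    have h3 : 5 * δ / 3 * (wav K).eval x ≤ 5 * δ / 3 * 1 :=
      mul_le_mul_of_nonneg_left h2 (by linarith)
    have h4 : 0 ≤ 5 * δ / 3 * (wav K).eval x := mul_nonneg (by linarith) h1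
    constructor
    · linarith [hμ.1]
    · linarith [hμ.2]
  -- Lipschitz
  obtain ⟨D, hD⟩ := (isCompact_Icc (a := (-1:ℝ)) (b := 1)).exists_bound_of_continuousOn
    (f := fun x => (derivative p).eval x) (derivative p).continuous.continuousOn
  have hD0 : 0 ≤ D := (norm_nonneg _).trans (hD 0 ⟨by norm_num, by norm_num⟩)
  have hl : ∀ x y, |x| ≤ 1 → |y| ≤ 1 → |k x - k y| ≤ D * |x - y| := by
    intro x y hx hy
    have := (convex_Icc (-1:ℝ) 1).norm_image_sub_le_of_norm_deriv_le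
      (f := fun x => p.eval x) (C := D) (fun z _ => p.differentiable z)
      (fun z hz => by rw [Polynomial.deriv]; exact hD z hz)
      (abs_le.1 hy) (abs_le.1 hx)
    simp only [hkdef, add_sub_add_right_eq_sub]
    simpa [Real.norm_eq_abs] using this
  have hplat : ∀ j ≤ K, ∀ x, rad j / 512 ≤ |x| → |x| ≤ 2 * rad j →
      δ / 2 ≤ (2 * sg j - 1) * k x := by
    intro j hj x h1 h2
    have h3 := abs_le.1 (wav_near hj h1 h2)
    rw [hke]
    rcases sg_cases j with ⟨h, -⟩ | ⟨h, -⟩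
    · rw [h] at h3 ⊢
      have h4 : 5 * δ / 3 * (19 / 20) ≤ 5 * δ / 3 * (wav K).eval x :=
        mul_le_mul_of_nonneg_left (by linarith [h3.1]) (by linarith)
      linarith [hμ.1]
    · rw [h] at h3 ⊢
      have h4 : 5 * δ / 3 * (wav K).eval x ≤ 5 * δ / 3 * (1 / 20) :=
        mul_le_mul_of_nonneg_left (by linarith [h3.2]) (by linarith)
      linarith [hμ.2]
  have hex : ∀ j : Fin K, ∃ c ∈ Ioo (Real.log (rad (j + 1))) (Real.log (rad j)), ∃ U : ℝ → ℝ,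
      U 0 = c ∧ (∀ θ, U (θ + 2 * Real.pi) = U θ) ∧
      (∀ θ, HasDerivAt U (phi θ (k (Real.exp (U θ) * Real.cos θ))) θ) ∧ ∀ θ, U θ ≤ 0 := by
    intro j
    have hs : 2 * sg (j + 1) - 1 = -(2 * sg j - 1) := by
      change 2 * (1 - sg j) - 1 = _
      ring
    have h1 := hplat j j.2.le
    have h2 := hplat (j + 1) j.2
    rw [hs] at h2
    refine one_orbit hδ0 hδ ?_ hk hc hD0 hl (rad_pos _) (rad_lt _) (rad_le _) h1 h2
    rcases sg_cases j with ⟨h, -⟩ | ⟨h, -⟩ <;> rw [h] <;> norm_num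
  choose c hc1 U hU0 hUper hUd hUle using hex
  have hunit : ∀ j θ, |Real.exp (U j θ) * Real.cos θ| ≤ 1 := by
    intro j θ
    rw [abs_mul, abs_of_pos (Real.exp_pos _)]
    have h1 : Real.exp (U j θ) ≤ 1 := Real.exp_le_one_iff.2 (hUle j θ)
    have h2 := Real.abs_cos_le_one θ
    have h3 := Real.exp_pos (U j θ)
    nlinarith [abs_nonneg (Real.cos θ)]
  set Cu : Fin K → Set (ℝ × ℝ) := fun j => range fun θ => pol (U j θ) θ with hCu
  have hmem : ∀ j, Cu j ∈ orbits (fun x => x) (fun x => p.eval x) μ δ := by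
    intro j
    obtain ⟨γ, T, hT, h1, h2, h3, h4⟩ := orbit_of_periodic hc (hUper j) (hUd j)
      (fun θ => (hk _ (hunit j θ)).trans hδ)
    refine ⟨γ, T, hT, h1, h2, h3, fun t => ?_, h4.symm⟩
    have : γ t ∈ range fun θ => pol (U j θ) θ := h4 ▸ mem_range_self t
    obtain ⟨θ, hθ⟩ := this
    have e : (γ t).1 = Real.exp (U j θ) * Real.cos θ := by rw [← hθ]; rfl
    rw [e]
    exact hk _ (hunit j θ)
  have hinj : Function.Injective Cu := by
    intro i j hij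
    have h1 : (Real.exp (c i), (0:ℝ)) ∈ Cu j := by
      rw [← hij]
      exact ⟨0, by simp [pol, hU0]⟩
    have h2 := ray (hUper j) h1
    rw [hU0] at h2
    -- the values are ordered
    have hanti : ∀ a b : ℕ, a ≤ b → Real.log (rad b) ≤ Real.log (rad a) := by
      intro a b hab
      apply Real.log_le_log (rad_pos _)
      unfold rad
      exact pow_le_pow_of_le_one (by norm_num) (by norm_num) (by omega)
    by_contra hne
    rcases lt_or_gt_of_ne (fun h => hne (Fin.ext h) : (i : ℕ) ≠ j) with h | h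
    · have := hanti (i + 1) j h
      linarith [(hc1 i).1, (hc1 j).2]
    · have := hanti (j + 1) i h
      linarith [(hc1 j).1, (hc1 i).2]
  calc (K : ℕ∞) = (univ : Set (Fin K)).encard := by simp
    _ = (Cu '' univ).encard := (hinj.encard_image _).symm
    _ ≤ _ := encard_le_encard (by rintro _ ⟨j, -, rfl⟩; exact hmem j)

end Pool.Agent.K9h2.LI
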