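import Pool.Agent.K9h2.LI.Loop

/-! The measures of the loops. -/

open Set Filter Topology MeasureTheory

namespace Pool.Agent.K9h2.LI

/-- `u / √(z + u²)` -/
noncomputable def psi (z u : ℝ) : ℝ := u / √(z + u ^ 2)

lemma psi_nonneg {z u : ℝ} (hu : 0 ≤ u) : 0 ≤ psi z u := div_nonneg hu (Real.sqrt_nonneg _)

lemma psi_le_one {z : ℝ} (hz : 0 ≤ z) (u : ℝ) : psi z u ≤ 1 := by
  unfold psi
  rcases eq_or_lt_of_le (Real.sqrt_nonneg (z + u ^ 2)) with h | h
  · rw [← h]; simp
  · rw [div_le_one h]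
    apply Real.le_sqrt_of_sq_le
    linarith

lemma psi_mono {z u v : ℝ} (hz : 0 ≤ z) (hu : 0 < u) (huv : u ≤ v) : psi z u ≤ psi z v := by
  unfold psi
  have hv : 0 < v := hu.trans_le huv
  have h1 : 0 < √(z + u ^ 2) := Real.sqrt_pos.2 (by positivity)
  have h2 : 0 < √(z + v ^ 2) := Real.sqrt_pos.2 (by positivity)
  rw [div_le_div_iff₀ h1 h2]
  have h3 : u * √(z + v ^ 2) = √(u ^ 2 * (z + v ^ 2)) := by
    rw [Real.sqrt_mul (by positivity), Real.sqrt_sq hu.le]
  have h4 : v * √(z + u ^ 2) = √(v ^ 2 * (z + u ^ 2)) := by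
    rw [Real.sqrt_mul (by positivity), Real.sqrt_sq hv.le]
  rw [h3, h4]
  apply Real.sqrt_le_sqrt
  have : u ^ 2 * z ≤ v ^ 2 * z := mul_le_mul_of_nonneg_right (by nlinarith) hz
  nlinarith

/-- the potential -/
noncomputable def pot (g : ℝ → ℝ) (x : ℝ) : ℝ := ∫ t in (0:ℝ)..x, g t

variable {g h : ℝ → ℝ} {f : ℝ → ℝ} {μ μ1 μ2 l r l1 r1 l2 r2 : ℝ} {U L U1 L1 U2 L2 : ℝ → ℝ}

lemma Rest.hasDerivAt (hg : Rest g) (x : ℝ) : HasDerivAt (pot g) (g x) x :=
  (hg.cont.integral_hasStrictDerivAt 0 x).hasDerivAt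

lemma Rest.pot_cont (hg : Rest g) : Continuous (pot g) :=
  continuous_iff_continuousAt.2 fun x => (hg.hasDerivAt x).continuousAt

lemma pot_zero (g : ℝ → ℝ) : pot g 0 = 0 := by simp [pot]

lemma Rest.strictMonoOn (hg : Rest g) : StrictMonoOn (pot g) (Ici 0) := by
  refine strictMonoOn_of_deriv_pos (convex_Ici 0) hg.pot_cont.continuousOn fun x hx => ?_
  rw [interior_Ici] at hx
  rw [(hg.hasDerivAt x).deriv]
  exact hg.pos x hx

lemma Rest.strictAntiOn (hg : Rest g) : StrictAntiOn (pot g) (Iic 0) := by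
  refine strictAntiOn_of_deriv_neg (convex_Iic 0) hg.pot_cont.continuousOn fun x hx => ?_
  rw [interior_Iic] at hx
  rw [(hg.hasDerivAt x).deriv]
  exact hg.neg x hx

lemma Rest.pot_pos (hg : Rest g) {x : ℝ} (hx : x ≠ 0) : 0 < pot g x := by
  rw [← pot_zero g]
  rcases lt_or_gt_of_ne hx with h | h
  · exact hg.strictAntiOn (mem_Iic.2 h.le) (mem_Iic.2 le_rfl) h
  · exact hg.strictMonoOn (mem_Ici.2 le_rfl) (mem_Ici.2 h.le) h

lemma Rest.pot_nonneg (hg : Rest g) (x : ℝ) : 0 ≤ pot g x := by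
  rcases eq_or_ne x 0 with h | h
  · rw [h, pot_zero]
  · exact (hg.pot_pos h).le

lemma Arc.nonneg (A : Arc g h l r U) {x : ℝ} (hx : x ∈ Icc l r) : 0 ≤ U x := by
  rcases hx.1.lt_or_eq with h1 | h1
  · rcases hx.2.lt_or_eq with h2 | h2
    · exact (A.pos x ⟨h1, h2⟩).le
    · rw [h2, A.right]
  · rw [← h1, A.left]

lemma Arc.sq_pos (hg : Rest g) (A : Arc g h l r U) {x : ℝ} (hx : x ∈ Icc l r) :
    0 < 2 * pot g x + U x ^ 2 := by
  have h0 := hg.pot_nonneg x
  rcases hx.1.lt_or_eq with h1 | h1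
  · rcases hx.2.lt_or_eq with h2 | h2
    · have := A.pos x ⟨h1, h2⟩
      positivity
    · have := hg.pot_pos (x := x) (by rw [h2]; exact A.hr.ne')
      positivity
  · have := hg.pot_pos (x := x) (by rw [← h1]; exact A.hl.ne)
    positivity

lemma Arc.psi_cont (hg : Rest g) (A : Arc g h l r U) :
    ContinuousOn (fun x => psi (2 * pot g x) (U x)) (Icc l r) := by
  unfold psi
  have := hg.pot_cont
  refine A.cont.div ?_ fun x hx => (Real.sqrt_pos.2 (A.sq_pos hg hx)).ne'
  exact (ContinuousOn.add (by fun_prop) (A.cont.pow 2)).sqrt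

lemma Arc.integral (hg : Rest g) (A : Arc g h l r U) (hh : Continuous h) :
    ∫ x in l..r, h x * psi (2 * pot g x) (U x) = √(2 * pot g l) - √(2 * pot g r) := by
  have hlr : l ≤ r := (A.hl.trans A.hr).le
  have hpc := hg.pot_cont
  have hd : ∀ x ∈ Ioo l r, HasDerivAt (fun x => √(2 * pot g x + U x ^ 2))
      (-(h x * psi (2 * pot g x) (U x))) x := by
    intro x hx
    have e1 := A.pos x hx
    have e2 := A.sq_pos hg (Ioo_subset_Icc_self hx)
    have e3 : HasDerivAt (fun x : ℝ => 2 * pot g x) (2 * g x) x := (hg.hasDerivAt x).const_mul 2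
    have e4 := (e3.add ((A.der x hx).pow 2)).sqrt e2.ne'
    refine e4.congr_deriv ?_
    unfold psi
    have e5 := (Real.sqrt_pos.2 e2).ne'
    simp only [Pi.add_apply, Pi.pow_apply]
    field_simp
    ring
  have hi : IntervalIntegrable (fun x => -(h x * psi (2 * pot g x) (U x))) volume l r := by
    refine ContinuousOn.intervalIntegrable ?_
    rw [uIcc_of_le hlr]
    exact (hh.continuousOn.mul (A.psi_cont hg)).neg
  have hc : ContinuousOn (fun x => √(2 * pot g x + U x ^ 2)) (Icc l r) :=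
    (ContinuousOn.add (by fun_prop) (A.cont.pow 2)).sqrt
  have := intervalIntegral.integral_eq_sub_of_hasDerivAt_of_le hlr hc hd hi
  rw [intervalIntegral.integral_neg, A.left, A.right, zero_pow two_ne_zero, add_zero,
    add_zero] at this
  linarith

/-- the density of the measure of a loop -/
noncomputable def dens (g : ℝ → ℝ) (l r : ℝ) (U L : ℝ → ℝ) : ℝ → ℝ :=
  (Icc l r).indicator fun x => psi (2 * pot g x) (U x) + psi (2 * pot g x) (L x)

/-- the size of a loop -/
noncomputable def size (g : ℝ → ℝ) (l r : ℝ) (U L : ℝ → ℝ) : ℝ := ∫ x, dens g l r U L x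

lemma Loop.dens_nonneg (_hg : Rest g) (G : Loop g f μ l r U L) (x : ℝ) : 0 ≤ dens g l r U L x := by
  unfold dens
  refine indicator_nonneg (fun x hx => ?_) x
  exact add_nonneg (psi_nonneg (G.up.nonneg hx)) (psi_nonneg (G.lo.nonneg hx))

lemma dens_le (hg : Rest g) (l r : ℝ) (U L : ℝ → ℝ) (x : ℝ) :
    dens g l r U L x ≤ (Icc l r).indicator (fun _ => (2:ℝ)) x := by
  unfold dens
  refine indicator_le_indicator ?_
  have hz : 0 ≤ 2 * pot g x := by linarith [hg.pot_nonneg x]
  linarith [psi_le_one hz (U x), psi_le_one hz (L x)]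

lemma Loop.integrable (hg : Rest g) (G : Loop g f μ l r U L) {k : ℝ → ℝ} (hk : Continuous k) :
    Integrable fun x => k x * dens g l r U L x := by
  have : (fun x => k x * dens g l r U L x) =
      (Icc l r).indicator fun x => k x * (psi (2 * pot g x) (U x) + psi (2 * pot g x) (L x)) := by
    funext x
    unfold dens
    by_cases hx : x ∈ Icc l r
    · simp [hx]
    · simp [hx]
  rw [this, integrable_indicator_iff measurableSet_Icc]
  exact (hk.continuousOn.mul ((G.up.psi_cont hg).add (G.lo.psi_cont hg))).integrableOn_Icc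

lemma Loop.integrable' (hg : Rest g) (G : Loop g f μ l r U L) : Integrable (dens g l r U L) := by
  simpa using G.integrable hg (k := fun _ => 1) continuous_const

lemma Loop.integral_zero (hg : Rest g) (G : Loop g f μ l r U L) (hf : Continuous f) :
    ∫ x, (f x + μ) * dens g l r U L x = 0 := by
  have e : (fun x => (f x + μ) * dens g l r U L x) =
      (Icc l r).indicator fun x => (f x + μ) * psi (2 * pot g x) (U x) +
        (f x + μ) * psi (2 * pot g x) (L x) := by
    funext x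
    unfold dens
    by_cases hx : x ∈ Icc l r
    · simp only [hx, indicator_of_mem]; ring
    · simp [hx]
  have hlr : l ≤ r := (G.up.hl.trans G.up.hr).le
  rw [e, integral_indicator measurableSet_Icc, integral_Icc_eq_integral_Ioc,
    ← intervalIntegral.integral_of_le hlr]
  have h1 := G.up.integral hg (by fun_prop)
  have h2 := G.lo.integral hg (by fun_prop)
  rw [intervalIntegral.integral_add, h1]
  · have h3 : ∫ x in l..r, (f x + μ) * psi (2 * pot g x) (L x) =
        -(√(2 * pot g l) - √(2 * pot g r)) := by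
      rw [← h2, ← intervalIntegral.integral_neg]
      congr 1
      funext x
      ring
    rw [h3]
    ring
  · refine ContinuousOn.intervalIntegrable ?_
    rw [uIcc_of_le hlr]
    exact ContinuousOn.mul (by fun_prop) (G.up.psi_cont hg)
  · refine ContinuousOn.intervalIntegrable ?_
    rw [uIcc_of_le hlr]
    exact ContinuousOn.mul (by fun_prop) (G.lo.psi_cont hg)

lemma Inside.dens_le (hg : Rest g) (h : Inside l1 r1 U1 L1 l2 r2 U2 L2) (G1 : Loop g f μ1 l1 r1 U1 L1)
    (G2 : Loop g f μ2 l2 r2 U2 L2) (x : ℝ) : dens g l1 r1 U1 L1 x ≤ dens g l2 r2 U2 L2 x := by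
  by_cases hx : x ∈ Ioo l1 r1
  · have hx1 : x ∈ Icc l1 r1 := Ioo_subset_Icc_self hx
    have hx2 : x ∈ Icc l2 r2 := ⟨h.1.le.trans hx1.1, hx1.2.trans h.2.1.le⟩
    unfold dens
    rw [indicator_of_mem hx1, indicator_of_mem hx2]
    have hz : 0 ≤ 2 * pot g x := by linarith [hg.pot_nonneg x]
    exact add_le_add (psi_mono hz (G1.up.pos x hx) (h.2.2.1 x hx).le)
      (psi_mono hz (G1.lo.pos x hx) (h.2.2.2 x hx).le)
  · refine le_trans (le_of_eq ?_) (G2.dens_nonneg hg x)
    by_cases hx1 : x ∈ Icc l1 r1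
    · unfold dens
      rw [indicator_of_mem hx1]
      have : x = l1 ∨ x = r1 := by
        by_contra hcon
        push Not at hcon
        exact hx ⟨lt_of_le_of_ne hx1.1 (Ne.symm hcon.1), lt_of_le_of_ne hx1.2 hcon.2⟩
      rcases this with rfl | rfl
      · rw [G1.up.left, G1.lo.left]; simp [psi]
      · rw [G1.up.right, G1.lo.right]; simp [psi]
    · unfold dens
      rw [indicator_of_notMem hx1]

lemma Inside.size_le (hg : Rest g) (h : Inside l1 r1 U1 L1 l2 r2 U2 L2) (G1 : Loop g f μ1 l1 r1 U1 L1)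
    (G2 : Loop g f μ2 l2 r2 U2 L2) : size g l1 r1 U1 L1 ≤ size g l2 r2 U2 L2 :=
  integral_mono (G1.integrable' hg) (G2.integrable' hg) (h.dens_le hg G1 G2)

lemma size_le (hg : Rest g) (G : Loop g f μ l r U L) : size g l r U L ≤ 2 * (r - l) := by
  have hlr : l ≤ r := (G.up.hl.trans G.up.hr).le
  have h1 : size g l r U L ≤ ∫ x, (Icc l r).indicator (fun _ => (2:ℝ)) x := by
    refine integral_mono (G.integrable' hg) ?_ (dens_le hg l r U L)
    rw [integrable_indicator_iff measurableSet_Icc]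
    exact continuous_const.continuousOn.integrableOn_Icc
  refine h1.trans (le_of_eq ?_)
  rw [integral_indicator measurableSet_Icc, integral_Icc_eq_integral_Ioc,
    ← intervalIntegral.integral_of_le hlr]
  simp
  ring

/-- the flux inequality -/
lemma Inside.flux (hg : Rest g) (h : Inside l1 r1 U1 L1 l2 r2 U2 L2) (G1 : Loop g f μ1 l1 r1 U1 L1)
    (G2 : Loop g f μ2 l2 r2 U2 L2) (hf : Continuous f) {B : ℝ} {μ : ℝ}
    (hB : ∀ x ∈ Icc l2 r2, |f x + μ| ≤ B) :
    |∫ x, (f x + μ) * (dens g l2 r2 U2 L2 x - dens g l1 r1 U1 L1 x)| ≤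
      B * (size g l2 r2 U2 L2 - size g l1 r1 U1 L1) := by
  have hd := h.dens_le hg G1 G2
  have e1 : size g l2 r2 U2 L2 - size g l1 r1 U1 L1 =
      ∫ x, (dens g l2 r2 U2 L2 x - dens g l1 r1 U1 L1 x) :=
    (integral_sub (G2.integrable' hg) (G1.integrable' hg)).symm
  rw [e1, ← integral_const_mul]
  refine (abs_integral_le_integral_abs).trans ?_
  refine integral_mono ?_ ?_ ?_
  · have : (fun x => |(f x + μ) * (dens g l2 r2 U2 L2 x - dens g l1 r1 U1 L1 x)|) =
        fun x => |(f x + μ) * dens g l2 r2 U2 L2 x - (f x + μ) * dens g l1 r1 U1 L1 x| := by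
      funext x; rw [mul_sub]
    rw [this]
    exact ((G2.integrable hg (by fun_prop)).sub (G1.integrable hg (by fun_prop))).abs
  · exact ((G2.integrable' hg).sub (G1.integrable' hg)).const_mul B
  · intro x
    have h1 : 0 ≤ dens g l2 r2 U2 L2 x - dens g l1 r1 U1 L1 x := by linarith [hd x]
    simp only
    rw [abs_mul, abs_of_nonneg h1]
    by_cases hx : x ∈ Icc l2 r2
    · exact mul_le_mul_of_nonneg_right (hB x hx) h1
    · have h2 : dens g l2 r2 U2 L2 x = 0 := by unfold dens; rw [indicator_of_notMem hx]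
      have h3 : dens g l1 r1 U1 L1 x = 0 := le_antisymm (h2 ▸ hd x) (G1.dens_nonneg hg x)
      rw [h2, h3]
      simp

lemma Inside.step1 (hg : Rest g) (h : Inside l1 r1 U1 L1 l2 r2 U2 L2) (G1 : Loop g f μ1 l1 r1 U1 L1)
    (G2 : Loop g f μ2 l2 r2 U2 L2) (hf : Continuous f) {B : ℝ}
    (hB : ∀ x ∈ Icc l2 r2, |f x + μ2| ≤ B) :
    |μ2 - μ1| * size g l1 r1 U1 L1 ≤ B * (size g l2 r2 U2 L2 - size g l1 r1 U1 L1) := by
  have h1 := h.flux hg G1 G2 hf hB
  have e1 := G1.integral_zero hg hf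
  have e2 := G2.integral_zero hg hf
  have hs : 0 ≤ size g l1 r1 U1 L1 := integral_nonneg (G1.dens_nonneg hg)
  have e3 : ∫ x, (f x + μ2) * (dens g l2 r2 U2 L2 x - dens g l1 r1 U1 L1 x) =
      -((μ2 - μ1) * size g l1 r1 U1 L1) := by
    have e4 : (fun x => (f x + μ2) * (dens g l2 r2 U2 L2 x - dens g l1 r1 U1 L1 x)) =
        fun x => ((f x + μ2) * dens g l2 r2 U2 L2 x - (f x + μ1) * dens g l1 r1 U1 L1 x) -
          (μ2 - μ1) * dens g l1 r1 U1 L1 x := by
      funext x; ring
    rw [e4, integral_sub, integral_sub (G2.integrable hg (by fun_prop)) (G1.integrable hg (by fun_prop)),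
      e1, e2, integral_const_mul]
    · unfold size; ring
    · exact (G2.integrable hg (by fun_prop)).sub (G1.integrable hg (by fun_prop))
    · exact (G1.integrable' hg).const_mul _
  rw [e3, abs_neg, abs_mul, abs_of_nonneg hs] at h1
  exact h1

lemma Inside.step2 (hg : Rest g) (h : Inside l1 r1 U1 L1 l2 r2 U2 L2) (G1 : Loop g f μ1 l1 r1 U1 L1)
    (G2 : Loop g f μ2 l2 r2 U2 L2) (hf : Continuous f) {B : ℝ}
    (hB : ∀ x ∈ Icc l2 r2, |f x + μ1| ≤ B) :
    |μ2 - μ1| * size g l2 r2 U2 L2 ≤ B * (size g l2 r2 U2 L2 - size g l1 r1 U1 L1) := by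
  have h1 := h.flux hg G1 G2 hf hB
  have e1 := G1.integral_zero hg hf
  have e2 := G2.integral_zero hg hf
  have hs : 0 ≤ size g l2 r2 U2 L2 := integral_nonneg (G2.dens_nonneg hg)
  have e3 : ∫ x, (f x + μ1) * (dens g l2 r2 U2 L2 x - dens g l1 r1 U1 L1 x) =
      -((μ2 - μ1) * size g l2 r2 U2 L2) := by
    have e4 : (fun x => (f x + μ1) * (dens g l2 r2 U2 L2 x - dens g l1 r1 U1 L1 x)) =
        fun x => ((f x + μ2) * dens g l2 r2 U2 L2 x - (f x + μ1) * dens g l1 r1 U1 L1 x) -
          (μ2 - μ1) * dens g l2 r2 U2 L2 x := by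
      funext x; ring
    rw [e4, integral_sub, integral_sub (G2.integrable hg (by fun_prop)) (G1.integrable hg (by fun_prop)),
      e1, e2, integral_const_mul]
    · unfold size; ring
    · exact (G2.integrable hg (by fun_prop)).sub (G1.integrable hg (by fun_prop))
    · exact (G2.integrable' hg).const_mul _
  rw [e3, abs_neg, abs_mul, abs_of_nonneg hs] at h1
  exact h1

end Pool.Agent.K9h2.LI
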