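import Mathlib

/-! The polar form of `x'' + k(x) x' + x = 0` with small friction. -/

open Set Filter Topology MeasureTheory Metric
open scoped NNReal

namespace Pool.Agent.K9h2.LI

/-- `k s² / (1 + k c s)` -/
noncomputable def phi (θ k : ℝ) : ℝ :=
  k * Real.sin θ ^ 2 / (1 + k * (Real.cos θ * Real.sin θ))

lemma abs_cs (θ : ℝ) : |Real.cos θ * Real.sin θ| ≤ 1 / 2 := by
  rw [abs_le]
  have := Real.sin_sq_add_cos_sq θ
  constructor
  · nlinarith [sq_nonneg (Real.cos θ + Real.sin θ)]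
  · nlinarith [sq_nonneg (Real.cos θ - Real.sin θ)]

lemma den_ge {θ k : ℝ} (hk : |k| ≤ 1 / 10) :
    19 / 20 ≤ 1 + k * (Real.cos θ * Real.sin θ) := by
  have h1 : |k * (Real.cos θ * Real.sin θ)| ≤ 1 / 10 * (1 / 2) := by
    rw [abs_mul]
    exact mul_le_mul hk (abs_cs θ) (abs_nonneg _) (by norm_num)
  have := neg_abs_le (k * (Real.cos θ * Real.sin θ))
  linarith

lemma abs_phi_le {θ k : ℝ} (hk : |k| ≤ 1 / 10) : |phi θ k| ≤ 20 / 19 * |k| := by
  have h1 := den_ge (θ := θ) hk
  unfold phi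
  rw [abs_div, abs_mul, abs_of_pos (show 0 < 1 + k * (Real.cos θ * Real.sin θ) by linarith),
    div_le_iff₀ (by linarith), abs_of_nonneg (sq_nonneg (Real.sin θ))]
  have h2 : Real.sin θ ^ 2 ≤ 1 := Real.sin_sq_le_one θ
  have h3 := abs_nonneg k
  nlinarith [mul_nonneg h3 (sq_nonneg (Real.sin θ))]

lemma phi_lip {θ k k' : ℝ} (hk : |k| ≤ 1 / 10) (hk' : |k'| ≤ 1 / 10) :
    |phi θ k - phi θ k'| ≤ 2 * |k - k'| := by
  have h1 := den_ge (θ := θ) hk
  have h2 := den_ge (θ := θ) hk'
  have e : phi θ k - phi θ k' = (k - k') * Real.sin θ ^ 2 /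
      ((1 + k * (Real.cos θ * Real.sin θ)) * (1 + k' * (Real.cos θ * Real.sin θ))) := by
    unfold phi
    rw [div_sub_div _ _ (by linarith) (by linarith)]
    congr 1
    ring
  have h5 : 0 < (1 + k * (Real.cos θ * Real.sin θ)) * (1 + k' * (Real.cos θ * Real.sin θ)) :=
    mul_pos (by linarith) (by linarith)
  rw [e, abs_div, abs_mul, abs_of_pos h5, div_le_iff₀ h5, abs_of_nonneg (sq_nonneg (Real.sin θ))]
  have h6 : (19 / 20) * (19 / 20) ≤
      (1 + k * (Real.cos θ * Real.sin θ)) * (1 + k' * (Real.cos θ * Real.sin θ)) :=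
    mul_le_mul h1 h2 (by norm_num) (by linarith)
  have h7 : Real.sin θ ^ 2 ≤ 1 := Real.sin_sq_le_one θ
  have h8 := abs_nonneg (k - k')
  nlinarith [mul_nonneg h8 (sq_nonneg (Real.sin θ))]

/-- the clamped polar equation -/
noncomputable def rhs (k : ℝ → ℝ) (θ u : ℝ) : ℝ :=
  phi θ (k (Real.exp (min u 0) * Real.cos θ))

lemma mem_unit (θ u : ℝ) : |Real.exp (min u 0) * Real.cos θ| ≤ 1 := by
  rw [abs_mul, abs_of_pos (Real.exp_pos _)]
  have h1 : Real.exp (min u 0) ≤ 1 := Real.exp_le_one_iff.2 (min_le_right _ _)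
  have h2 := Real.abs_cos_le_one θ
  have h3 := Real.exp_pos (min u 0)
  nlinarith [abs_nonneg (Real.cos θ)]

lemma exp_lip {a b : ℝ} (ha : a ≤ 0) (hb : b ≤ 0) : |Real.exp a - Real.exp b| ≤ |a - b| := by
  have key : ∀ {a b : ℝ}, a ≤ 0 → b ≤ a → Real.exp a - Real.exp b ≤ a - b := by
    intro a b ha hba
    have h1 := Real.add_one_le_exp (b - a)
    have h2 : Real.exp b = Real.exp a * Real.exp (b - a) := by rw [← Real.exp_add]; ring_nf
    have h3 : Real.exp a ≤ 1 := Real.exp_le_one_iff.2 ha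
    have h4 := Real.exp_pos a
    rw [h2]
    nlinarith [mul_nonneg (show 0 ≤ 1 - Real.exp a by linarith) (show 0 ≤ a - b by linarith)]
  rcases le_total a b with h | h
  · rw [abs_sub_comm, abs_sub_comm a b, abs_of_nonneg (sub_nonneg.2 (Real.exp_le_exp.2 h)),
      abs_of_nonneg (show 0 ≤ b - a by linarith)]
    exact key hb h
  · rw [abs_of_nonneg (sub_nonneg.2 (Real.exp_le_exp.2 h)),
      abs_of_nonneg (show 0 ≤ a - b by linarith)]
    exact key ha h

variable {k : ℝ → ℝ} {δ : ℝ}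

lemma rhs_lip (hk : ∀ x, |x| ≤ 1 → |k x| ≤ 1 / 10) {K : ℝ} (hK : 0 ≤ K)
    (hl : ∀ x y, |x| ≤ 1 → |y| ≤ 1 → |k x - k y| ≤ K * |x - y|) (θ u v : ℝ) :
    |rhs k θ u - rhs k θ v| ≤ 2 * K * |u - v| := by
  unfold rhs
  refine (phi_lip (hk _ (mem_unit θ u)) (hk _ (mem_unit θ v))).trans ?_
  have h1 := hl _ _ (mem_unit θ u) (mem_unit θ v)
  have h2 : |Real.exp (min u 0) * Real.cos θ - Real.exp (min v 0) * Real.cos θ| ≤ |u - v| := by
    rw [← sub_mul, abs_mul]
    have h3 := exp_lip (min_le_right u 0) (min_le_right v 0)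
    have h4 : |min u 0 - min v 0| ≤ |u - v| := by
      have := abs_min_sub_min_le_max u 0 v 0
      simpa using this
    have h5 := Real.abs_cos_le_one θ
    calc |Real.exp (min u 0) - Real.exp (min v 0)| * |Real.cos θ| ≤ |u - v| * 1 :=
          mul_le_mul (h3.trans h4) h5 (abs_nonneg _) (abs_nonneg _)
      _ = |u - v| := mul_one _
  have h6 := mul_le_mul_of_nonneg_left h2 hK
  linarith

lemma rhs_cont (hk : ∀ x, |x| ≤ 1 → |k x| ≤ 1 / 10) (hc : Continuous k) (u : ℝ) :
    Continuous fun θ => rhs k θ u := by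
  unfold rhs phi
  refine Continuous.div (by fun_prop) (by fun_prop) fun θ => ?_
  have := den_ge (θ := θ) (hk _ (mem_unit θ u))
  linarith

lemma abs_rhs_le (hk : ∀ x, |x| ≤ 1 → |k x| ≤ δ) (hδ : δ ≤ 1 / 10) (θ u : ℝ) :
    |rhs k θ u| ≤ 20 / 19 * δ := by
  have h1 := hk _ (mem_unit θ u)
  refine (abs_phi_le (h1.trans hδ)).trans ?_
  linarith

/-- existence of the solutions and continuity of the return map -/
theorem exists_flow (hk : ∀ x, |x| ≤ 1 → |k x| ≤ 1 / 10) (hc : Continuous k) {K : ℝ} (hK : 0 ≤ K)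
    (hl : ∀ x y, |x| ≤ 1 → |y| ≤ 1 → |k x - k y| ≤ K * |x - y|) {c1 c2 : ℝ} (h12 : c1 ≤ c2) :
    ∃ α : ℝ → ℝ → ℝ, (∀ c ∈ Icc c1 c2, α c 0 = c ∧ ∀ θ ∈ Icc 0 (2 * Real.pi),
      HasDerivWithinAt (α c) (rhs k θ (α c θ)) (Icc 0 (2 * Real.pi)) θ) ∧
      ContinuousOn (fun c => α c (2 * Real.pi)) (Icc c1 c2) := by
  have hpi := Real.pi_pos
  have hpi4 := Real.pi_le_four
  set x0 : ℝ := (c1 + c2) / 2 with hx0
  set r : ℝ≥0 := ⟨(c2 - c1) / 2, by linarith⟩ with hr
  set a : ℝ≥0 := ⟨(c2 - c1) / 2 + 1, by linarith⟩ with ha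
  set L : ℝ≥0 := ⟨2 / 19, by norm_num⟩ with hL
  set K' : ℝ≥0 := ⟨2 * K, by linarith⟩ with hK'
  have h0 : (0:ℝ) ∈ Icc 0 (2 * Real.pi) := ⟨le_rfl, by linarith⟩
  have hPL : IsPicardLindelof (rhs k) (⟨0, h0⟩ : Icc 0 (2 * Real.pi)) x0 a r L K' := by
    refine ⟨?_, ?_, ?_, ?_⟩
    · intro t _
      refine LipschitzOnWith.of_dist_le_mul fun x _ y _ => ?_
      rw [Real.dist_eq, Real.dist_eq]
      exact rhs_lip hk hK hl t x y
    · intro x _
      exact (rhs_cont hk hc x).continuousOn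
    · intro t _ x _
      rw [Real.norm_eq_abs]
      have := abs_rhs_le hk le_rfl t x
      refine this.trans ?_
      change (20:ℝ) / 19 * (1 / 10) ≤ 2 / 19
      norm_num
    · change (2 / 19 : ℝ) * max (2 * Real.pi - 0) (0 - 0) ≤ ((c2 - c1) / 2 + 1) - (c2 - c1) / 2
      rw [sub_zero, sub_zero, max_eq_left (by linarith)]
      linarith
  obtain ⟨α, h1, L', h2⟩ := hPL.exists_forall_mem_closedBall_eq_hasDerivWithinAt_lipschitzOnWith
  have hball : Icc c1 c2 = closedBall x0 r := by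
    rw [Real.closedBall_eq_Icc]
    change Icc c1 c2 = Icc (x0 - (c2 - c1) / 2) (x0 + (c2 - c1) / 2)
    rw [hx0]
    congr 1 <;> ring
  refine ⟨α, fun c hc => ?_, ?_⟩
  · rw [hball] at hc
    exact h1 c hc
  · rw [hball]
    exact (h2 (2 * Real.pi) ⟨by linarith, le_rfl⟩).continuousOn

/-- the periodic extension of a solution -/
theorem periodic_ext {F : ℝ → ℝ → ℝ} {T : ℝ} (hT : 0 < T) (hF : ∀ θ z, F (θ + T) z = F θ z)
    {u : ℝ → ℝ} (hu : ∀ θ ∈ Icc 0 T, HasDerivWithinAt u (F θ (u θ)) (Icc 0 T) θ)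
    (h0 : u 0 = u T) :
    ∃ U : ℝ → ℝ, (∀ θ, U (θ + T) = U θ) ∧ (∀ θ, HasDerivAt U (F θ (U θ)) θ) ∧
      (∀ θ ∈ Icc 0 T, U θ = u θ) ∧ ∀ θ, ∃ θ' ∈ Icc 0 T, U θ = u θ' := by
  have hFn : ∀ n : ℕ, ∀ θ z, F (θ + n * T) z = F θ z := by
    intro n
    induction n with
    | zero => intro θ z; simp
    | succ n ih =>
      intro θ z
      have : θ + ((n + 1 : ℕ) : ℝ) * T = (θ + n * T) + T := by push_cast; ring
      rw [this, hF, ih]
  have hFz : ∀ n : ℤ, ∀ θ z, F (θ - n * T) z = F θ z := by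
    intro n θ z
    rcases n.eq_nat_or_neg with ⟨m, rfl | rfl⟩
    · have := hFn m (θ - m * T) z
      rw [sub_add_cancel] at this
      push_cast
      exact this.symm
    · have := hFn m θ z
      push_cast
      rw [neg_mul, sub_neg_eq_add]
      exact this
  set U : ℝ → ℝ := fun θ => u (θ - ⌊θ / T⌋ * T) with hU
  have hfl : ∀ θ, θ - ⌊θ / T⌋ * T ∈ Ico 0 T := by
    intro θ
    have h1 := Int.floor_le (θ / T)
    have h2 := Int.lt_floor_add_one (θ / T)
    rw [le_div_iff₀ hT] at h1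
    rw [div_lt_iff₀ hT] at h2
    constructor <;> nlinarith
  -- on [k T, (k+1) T) the function is a translate, also at the right end
  have hUk : ∀ (n : ℤ) (θ : ℝ), n * T ≤ θ → θ ≤ (n + 1) * T → U θ = u (θ - n * T) := by
    intro n θ h1 h2
    rcases h2.lt_or_eq with h2 | h2
    · have : ⌊θ / T⌋ = n := by
        rw [Int.floor_eq_iff]
        constructor
        · rw [le_div_iff₀ hT]; exact h1
        · rw [div_lt_iff₀ hT]; exact h2
      simp only [hU, this]
    · have : ⌊θ / T⌋ = n + 1 := by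
        rw [h2, mul_div_assoc, div_self hT.ne', mul_one]
        have : ((n:ℝ) + 1) = ((n + 1 : ℤ) : ℝ) := by push_cast; ring
        rw [this, Int.floor_intCast]
      simp only [hU, this]
      rw [h2]
      push_cast
      rw [sub_self, h0]
      congr 1
      ring
  refine ⟨U, ?_, ?_, ?_, ?_⟩
  · intro θ
    have h1 := hfl θ
    have h2 := hUk (⌊θ / T⌋ + 1) (θ + T) (by push_cast; linarith [h1.1]) (by push_cast; linarith [h1.2])
    rw [h2]
    simp only [hU]
    congr 1
    push_cast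
    ring
  · intro θ
    obtain ⟨h1, h2⟩ := hfl θ
    set n := ⌊θ / T⌋ with hn
    have hUθ : U θ = u (θ - n * T) := rfl
    have hval : F θ (U θ) = F (θ - n * T) (u (θ - n * T)) := by rw [hUθ, hFz n]
    have hd1 : ∀ s, HasDerivAt (fun θ : ℝ => θ - s * T) 1 θ := fun s =>
      (hasDerivAt_id θ).sub_const _
    -- right derivative
    have hright : HasDerivWithinAt U (F θ (U θ)) (Ici θ) θ := by
      have e1 : HasDerivWithinAt (fun θ => u (θ - n * T)) (F θ (U θ)) (Icc (n * T) ((n + 1) * T)) θ := by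
        have e2 := hu (θ - n * T) ⟨h1, h2.le⟩
        have e3 := HasDerivWithinAt.scomp (h := fun θ : ℝ => θ - n * T) (g₁ := u) θ
          (s := Icc (n * T) ((n + 1) * T)) (t' := Icc 0 T) e2 (hd1 n).hasDerivWithinAt (by
            intro y hy
            exact ⟨by linarith [hy.1], by linarith [hy.2]⟩)
        simp only [one_smul] at e3
        rw [hval]
        exact e3
      have e4 : HasDerivWithinAt U (F θ (U θ)) (Icc (n * T) ((n + 1) * T)) θ :=
        e1.congr (fun y hy => hUk n y hy.1 hy.2) hUθ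
      refine e4.mono_of_mem_nhdsWithin ?_
      have e5 : Ici θ ∩ Iio ((n + 1) * T) ⊆ Icc (n * T) ((n + 1) * T) := fun y hy =>
        ⟨by linarith [hy.1.out], hy.2.out.le⟩
      refine mem_of_superset (inter_mem self_mem_nhdsWithin ?_) e5
      exact mem_nhdsWithin_of_mem_nhds (Iio_mem_nhds (by linarith))
    have hleft : HasDerivWithinAt U (F θ (U θ)) (Iic θ) θ := by
      rcases h1.lt_or_eq with h1' | h1'
      · have e1 : HasDerivWithinAt (fun θ => u (θ - n * T)) (F θ (U θ))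
            (Icc (n * T) ((n + 1) * T)) θ := by
          have e2 := hu (θ - n * T) ⟨h1, h2.le⟩
          have e3 := HasDerivWithinAt.scomp (h := fun θ : ℝ => θ - n * T) (g₁ := u) θ
            (s := Icc (n * T) ((n + 1) * T)) (t' := Icc 0 T) e2 (hd1 n).hasDerivWithinAt (by
              intro y hy
              exact ⟨by linarith [hy.1], by linarith [hy.2]⟩)
          simp only [one_smul] at e3
          rw [hval]
          exact e3
        have e4 : HasDerivWithinAt U (F θ (U θ)) (Icc (n * T) ((n + 1) * T)) θ :=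
          e1.congr (fun y hy => hUk n y hy.1 hy.2) hUθ
        refine e4.mono_of_mem_nhdsWithin ?_
        have e5 : Iic θ ∩ Ioi (n * T) ⊆ Icc (n * T) ((n + 1) * T) := fun y hy =>
          ⟨hy.2.out.le, by linarith [hy.1.out]⟩
        refine mem_of_superset (inter_mem self_mem_nhdsWithin ?_) e5
        exact mem_nhdsWithin_of_mem_nhds (Ioi_mem_nhds (by linarith))
      · -- θ = n T, use the interval to the left
        have hθ : θ = n * T := by linarith
        have e0 : θ - (n - 1) * T = T := by rw [hθ]; ring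
        have hUθ' : U θ = u (θ - (n - 1) * T) := by rw [e0, ← h0, hUθ, ← h1']
        have hval' : F θ (U θ) = F (θ - (n - 1) * T) (u (θ - (n - 1) * T)) := by
          rw [hUθ']
          have := hFz (n - 1) θ (u (θ - (n - 1) * T))
          push_cast at this
          exact this.symm
        have e1 : HasDerivWithinAt (fun θ => u (θ - (n - 1) * T)) (F θ (U θ))
            (Icc ((n - 1) * T) (n * T)) θ := by
          have e2 := hu (θ - (n - 1) * T) (by rw [e0]; exact ⟨hT.le, le_rfl⟩)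
          have e3 := HasDerivWithinAt.scomp (h := fun θ : ℝ => θ - (n - 1) * T) (g₁ := u) θ
            (s := Icc ((n - 1) * T) (n * T)) (t' := Icc 0 T) e2 (hd1 (n - 1)).hasDerivWithinAt (by
              intro y hy
              exact ⟨by linarith [hy.1], by linarith [hy.2]⟩)
          simp only [one_smul] at e3
          rw [hval']
          exact e3
        have e4 : HasDerivWithinAt U (F θ (U θ)) (Icc ((n - 1) * T) (n * T)) θ := by
          refine e1.congr (fun y hy => ?_) hUθ'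
          have := hUk (n - 1) y (by push_cast; exact hy.1) (by push_cast; linarith [hy.2])
          rw [this]
          push_cast
          rfl
        refine e4.mono_of_mem_nhdsWithin ?_
        have e5 : Iic θ ∩ Ioi ((n - 1) * T) ⊆ Icc ((n - 1) * T) (n * T) := fun y hy =>
          ⟨hy.2.out.le, by linarith [hy.1.out]⟩
        refine mem_of_superset (inter_mem self_mem_nhdsWithin ?_) e5
        exact mem_nhdsWithin_of_mem_nhds (Ioi_mem_nhds (by linarith))
    have := hleft.union hright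
    rw [Iic_union_Ici] at this
    exact hasDerivWithinAt_univ.1 this
  · intro θ hθ
    have := hUk 0 θ (by simpa using hθ.1) (by simpa using hθ.2)
    simpa using this
  · intro θ
    obtain ⟨h1, h2⟩ := hfl θ
    exact ⟨θ - ⌊θ / T⌋ * T, ⟨h1, h2.le⟩, rfl⟩

end Pool.Agent.K9h2.LI
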