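import Pool.Agent.K9h2.LI.Polar

/-! Periodic solutions of the polar equation give closed orbits; the sign lemma. -/

open Set Filter Topology MeasureTheory Metric
open scoped NNReal

namespace Pool.Agent.K9h2.LI

/-- the point with polar coordinates `(exp u, θ)` -/
noncomputable def pol (u θ : ℝ) : ℝ × ℝ := (Real.exp u * Real.cos θ, Real.exp u * Real.sin θ)

theorem orbit_of_periodic {k : ℝ → ℝ} (hc : Continuous k) {U : ℝ → ℝ}
    (hper : ∀ θ, U (θ + 2 * Real.pi) = U θ)
    (hU : ∀ θ, HasDerivAt U (phi θ (k (Real.exp (U θ) * Real.cos θ))) θ)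
    (hk : ∀ θ, |k (Real.exp (U θ) * Real.cos θ)| ≤ 1 / 10) :
    ∃ γ : ℝ → ℝ × ℝ, ∃ T : ℝ, 0 < T ∧
      (∀ t, HasDerivAt γ ((γ t).2, -(γ t).1 - k (γ t).1 * (γ t).2) t) ∧
      (∀ t, γ (t + T) = γ t) ∧ (∃ s t, γ s ≠ γ t) ∧
      range γ = range fun θ => pol (U θ) θ := by
  have hpi := Real.pi_pos
  have hUc : Continuous U := continuous_iff_continuousAt.2 fun θ => (hU θ).continuousAt
  set G : ℝ → ℝ := fun θ => 1 + k (Real.exp (U θ) * Real.cos θ) * (Real.cos θ * Real.sin θ) with hG
  have hGc : Continuous G := by fun_prop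
  have hG1 : ∀ θ, 19 / 20 ≤ G θ := fun θ => den_ge (hk θ)
  have hG2 : ∀ θ, G θ ≤ 21 / 20 := by
    intro θ
    have h1 : |k (Real.exp (U θ) * Real.cos θ) * (Real.cos θ * Real.sin θ)| ≤ 1 / 10 * (1 / 2) := by
      rw [abs_mul]
      exact mul_le_mul (hk θ) (abs_cs θ) (abs_nonneg _) (by norm_num)
    have := le_abs_self (k (Real.exp (U θ) * Real.cos θ) * (Real.cos θ * Real.sin θ))
    simp only [hG]
    linarith
  have hGper : ∀ θ, G (θ + 2 * Real.pi) = G θ := by
    intro θ
    simp only [hG, hper, Real.cos_add_two_pi, Real.sin_add_two_pi]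
  have hic : Continuous fun θ => (G θ)⁻¹ := hGc.inv₀ fun θ => by linarith [hG1 θ]
  set τ : ℝ → ℝ := fun θ => ∫ s in (0:ℝ)..θ, (G s)⁻¹ with hτ
  have hτd : ∀ θ, HasDerivAt τ ((G θ)⁻¹) θ := fun θ =>
    intervalIntegral.integral_hasDerivAt_right (hic.intervalIntegrable _ _)
      hic.stronglyMeasurable.stronglyMeasurableAtFilter hic.continuousAt
  have hτlow : ∀ a b, a ≤ b → 20 / 21 * (b - a) ≤ τ b - τ a := by
    intro a b hab
    refine (convex_univ).mul_sub_le_image_sub_of_le_deriv
      (fun θ _ => (hτd θ).continuousAt.continuousWithinAt)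
      (fun θ _ => (hτd θ).differentiableAt.differentiableWithinAt) (fun θ _ => ?_) a (mem_univ _)
      b (mem_univ _) hab
    rw [(hτd θ).deriv, show (20:ℝ) / 21 = (21 / 20)⁻¹ by norm_num]
    exact inv_anti₀ (by linarith [hG1 θ]) (hG2 θ)
  have hτ0 : τ 0 = 0 := by simp [hτ]
  have hmono : StrictMono τ := by
    intro a b hab
    have := hτlow a b hab.le
    linarith
  have hτc : Continuous τ := continuous_iff_continuousAt.2 fun θ => (hτd θ).continuousAt
  have hsurj : Function.Surjective τ := by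
    refine hτc.surjective ?_ ?_
    · have h1 : Tendsto (fun θ : ℝ => 20 / 21 * θ) atTop atTop :=
        tendsto_id.const_mul_atTop (by norm_num)
      refine tendsto_atTop_mono' _ ?_ h1
      filter_upwards [eventually_ge_atTop 0] with θ hθ
      have := hτlow 0 θ hθ
      rw [hτ0] at this
      linarith
    · have h1 : Tendsto (fun θ : ℝ => 20 / 21 * θ) atBot atBot :=
        tendsto_id.const_mul_atBot (by norm_num)
      refine tendsto_atBot_mono' _ ?_ h1
      filter_upwards [eventually_le_atBot 0] with θ hθ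
      have := hτlow θ 0 hθ
      rw [hτ0] at this
      linarith
  set e := StrictMono.orderIsoOfSurjective τ hmono hsurj with he
  set Θ : ℝ → ℝ := fun s => e.symm s with hΘ
  have hΘc : Continuous Θ := e.symm.continuous
  have hτΘ : ∀ s, τ (Θ s) = s := fun s => e.apply_symm_apply s
  have hΘτ : ∀ θ, Θ (τ θ) = θ := fun θ => e.symm_apply_apply θ
  have hΘd : ∀ s, HasDerivAt Θ (G (Θ s)) s := by
    intro s
    have h1 := hG1 (Θ s)
    have := HasDerivAt.of_local_left_inverse (f := τ) (f' := (G (Θ s))⁻¹) (g := Θ) (a := s)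
      hΘc.continuousAt (hτd (Θ s)) (inv_ne_zero (by linarith)) (Eventually.of_forall hτΘ)
    rwa [inv_inv] at this
  have hτadd : ∀ θ, τ (θ + 2 * Real.pi) = τ θ + τ (2 * Real.pi) := by
    intro θ
    have hp : Function.Periodic (fun s => (G s)⁻¹) (2 * Real.pi) := fun s => by
      simp only [hGper]
    have h1 := hp.intervalIntegral_add_eq θ 0
    rw [zero_add] at h1
    simp only [hτ]
    rw [← h1, intervalIntegral.integral_add_adjacent_intervals (hic.intervalIntegrable _ _)
      (hic.intervalIntegrable _ _)]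
  set T : ℝ := τ (2 * Real.pi) with hT
  have hT0 : 0 < T := by
    have := hmono (show (0:ℝ) < 2 * Real.pi by linarith)
    rwa [hτ0] at this
  have hΘadd : ∀ s, Θ (s + T) = Θ s + 2 * Real.pi := by
    intro s
    have := hτadd (Θ s)
    rw [hτΘ] at this
    rw [← this, hΘτ]
  set γ : ℝ → ℝ × ℝ := fun t => pol (U (Θ (-t))) (Θ (-t)) with hγ
  refine ⟨γ, T, hT0, ?_, ?_, ?_, ?_⟩
  · intro t
    have h1 : HasDerivAt (fun t => Θ (-t)) (-G (Θ (-t))) t := by
      have := HasDerivAt.comp t (h₂ := Θ) (hΘd (-t)) (hasDerivAt_neg t)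
      exact this.congr_deriv (by ring)
    set φ := Θ (-t) with hφ
    have h2 : HasDerivAt (fun t => U (Θ (-t)))
        (phi φ (k (Real.exp (U φ) * Real.cos φ)) * (-G φ)) t :=
      HasDerivAt.comp t (h₂ := U) (hU φ) h1
    have h3 := h2.exp
    have h4 : HasDerivAt (fun t => Real.cos (Θ (-t))) (-Real.sin φ * (-G φ)) t := h1.cos
    have h5 : HasDerivAt (fun t => Real.sin (Θ (-t))) (Real.cos φ * (-G φ)) t := h1.sin
    have h6 := (h3.mul h4).prodMk (h3.mul h5)
    have hG0 : G φ ≠ 0 := by linarith [hG1 φ]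
    have hphi : phi φ (k (Real.exp (U φ) * Real.cos φ)) * G φ =
        k (Real.exp (U φ) * Real.cos φ) * Real.sin φ ^ 2 := by
      unfold phi
      rw [div_mul_cancel₀ _ hG0]
    have hGdef : G φ = 1 + k (Real.exp (U φ) * Real.cos φ) * (Real.cos φ * Real.sin φ) := rfl
    have hs := Real.sin_sq_add_cos_sq φ
    have hd1 : (γ t).2 = Real.exp (U φ) * (phi φ (k (Real.exp (U φ) * Real.cos φ)) * -G φ) *
        Real.cos φ + Real.exp (U φ) * (-Real.sin φ * -G φ) := by
      have : (γ t).2 = Real.exp (U φ) * Real.sin φ := rfl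
      rw [this]
      have e1 : Real.exp (U φ) * (phi φ (k (Real.exp (U φ) * Real.cos φ)) * -G φ) * Real.cos φ +
          Real.exp (U φ) * (-Real.sin φ * -G φ) =
          Real.exp (U φ) * (-(phi φ (k (Real.exp (U φ) * Real.cos φ)) * G φ) * Real.cos φ +
            Real.sin φ * G φ) := by ring
      rw [e1, hphi, hGdef]
      ring
    have hd2 : -(γ t).1 - k (γ t).1 * (γ t).2 =
        Real.exp (U φ) * (phi φ (k (Real.exp (U φ) * Real.cos φ)) * -G φ) *
        Real.sin φ + Real.exp (U φ) * (Real.cos φ * -G φ) := by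
      have g1 : (γ t).1 = Real.exp (U φ) * Real.cos φ := rfl
      have g2 : (γ t).2 = Real.exp (U φ) * Real.sin φ := rfl
      rw [g1, g2]
      have e1 : Real.exp (U φ) * (phi φ (k (Real.exp (U φ) * Real.cos φ)) * -G φ) * Real.sin φ +
          Real.exp (U φ) * (Real.cos φ * -G φ) =
          Real.exp (U φ) * (-(phi φ (k (Real.exp (U φ) * Real.cos φ)) * G φ) * Real.sin φ -
            Real.cos φ * G φ) := by ring
      rw [e1, hphi, hGdef]
      generalize k (Real.exp (U φ) * Real.cos φ) = κ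
      have e2 : -(κ * Real.sin φ ^ 2) * Real.sin φ -
          Real.cos φ * (1 + κ * (Real.cos φ * Real.sin φ)) =
          -(Real.cos φ) - κ * Real.sin φ * (Real.sin φ ^ 2 + Real.cos φ ^ 2) := by ring
      rw [e2, hs]
      ring
    rw [hd2, hd1]
    exact h6
  · intro t
    have h1 : Θ (-t) = Θ (-(t + T)) + 2 * Real.pi := by
      rw [← hΘadd]
      congr 1
      ring
    simp only [hγ, h1, pol, hper, Real.cos_add_two_pi, Real.sin_add_two_pi]
  · refine ⟨0, -τ Real.pi, ?_⟩
    intro h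
    have e0 : Θ 0 = 0 := by
      have := hΘτ 0
      rwa [hτ0] at this
    have h1 : (γ 0).1 = (γ (-τ Real.pi)).1 := by rw [h]
    have h2 : (γ 0).1 = Real.exp (U 0) := by
      simp [hγ, pol, e0]
    have h3 : (γ (-τ Real.pi)).1 = -Real.exp (U Real.pi) := by
      simp [hγ, pol, hΘτ]
    rw [h2, h3] at h1
    have := Real.exp_pos (U 0)
    have := Real.exp_pos (U Real.pi)
    linarith
  · apply Subset.antisymm
    · rintro _ ⟨t, rfl⟩
      exact ⟨Θ (-t), rfl⟩
    · rintro _ ⟨θ, rfl⟩
      refine ⟨-τ θ, ?_⟩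
      simp [hγ, hΘτ]

/-- a closed curve meets the positive half-axis in one point -/
lemma ray {U : ℝ → ℝ} (hper : ∀ θ, U (θ + 2 * Real.pi) = U θ) {c : ℝ}
    (h : (Real.exp c, (0:ℝ)) ∈ range fun θ => pol (U θ) θ) : U 0 = c := by
  obtain ⟨θ, hθ⟩ := h
  have h1 : Real.exp (U θ) * Real.cos θ = Real.exp c := congrArg Prod.fst hθ
  have h2 : Real.exp (U θ) * Real.sin θ = 0 := congrArg Prod.snd hθ
  have h3 : Real.sin θ = 0 := by
    rcases mul_eq_zero.1 h2 with h | h
    · exact absurd h (Real.exp_pos _).ne'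
    · exact h
  have h4 : 0 < Real.cos θ := by
    by_contra hcon
    push Not at hcon
    have := mul_nonpos_of_nonneg_of_nonpos (Real.exp_pos (U θ)).le hcon
    linarith [Real.exp_pos c]
  have h5 : Real.cos θ = 1 := by
    have := Real.sin_sq_add_cos_sq θ
    rw [h3] at this
    nlinarith
  rw [h5, mul_one] at h1
  have h6 := Real.exp_injective h1
  obtain ⟨n, hn⟩ := (Real.cos_eq_one_iff θ).1 h5
  have hP : Function.Periodic U (2 * Real.pi) := hper
  have h7 : U 0 = U θ := by
    rw [← hn]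
    have := hP.int_mul n 0
    rw [zero_add] at this
    exact this.symm
  rw [h7, h6]

end Pool.Agent.K9h2.LI
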