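import Pool.Agent.K9h2.LI.Polar2

/-! The sign of the return map. -/

open Set Filter Topology

namespace Pool.Agent.K9h2.LI

/-- increments on a piece -/
lemma piece {u F : ℝ → ℝ} {T σ C a b : ℝ}
    (hu : ∀ θ ∈ Icc 0 T, HasDerivWithinAt u (F θ) (Icc 0 T) θ) (ha : 0 ≤ a) (hab : a ≤ b)
    (hb : b ≤ T) (h : ∀ θ ∈ Ioo a b, C ≤ σ * F θ) : C * (b - a) ≤ σ * u b - σ * u a := by
  have hd : ∀ θ ∈ Ioo a b, HasDerivAt (fun θ => σ * u θ) (σ * F θ) θ := by
    intro θ hθ
    have h1 : Icc 0 T ∈ 𝓝 θ := Icc_mem_nhds (by linarith [hθ.1]) (by linarith [hθ.2])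
    exact ((hu θ ⟨by linarith [hθ.1], by linarith [hθ.2]⟩).hasDerivAt h1).const_mul σ
  refine (convex_Icc a b).mul_sub_le_image_sub_of_le_deriv (f := fun θ => σ * u θ) ?_ ?_ ?_ a
    (left_mem_Icc.2 hab) b (right_mem_Icc.2 hab) hab
  · intro θ hθ
    have h1 := (hu θ ⟨by linarith [hθ.1], by linarith [hθ.2]⟩).continuousWithinAt
    have h2 : ContinuousWithinAt u (Icc a b) θ := h1.mono (Icc_subset_Icc ha hb)
    exact continuousWithinAt_const.mul h2
  · rw [interior_Icc]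
    exact fun θ hθ => (hd θ hθ).differentiableAt.differentiableWithinAt
  · rw [interior_Icc]
    intro θ hθ
    rw [(hd θ hθ).deriv]
    exact h θ hθ

lemma cos_low1 {θ : ℝ} (h0 : 0 ≤ θ) (h1 : θ ≤ Real.pi) :
    2 / Real.pi * |Real.pi / 2 - θ| ≤ |Real.cos θ| := by
  have := Real.mul_abs_le_abs_sin (x := Real.pi / 2 - θ)
    (abs_le.2 ⟨by linarith, by linarith⟩)
  rwa [Real.sin_pi_div_two_sub] at this

lemma cos_low2 {θ : ℝ} (h0 : Real.pi ≤ θ) (h1 : θ ≤ 2 * Real.pi) :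
    2 / Real.pi * |θ - 3 * Real.pi / 2| ≤ |Real.cos θ| := by
  have := cos_low1 (θ := θ - Real.pi) (by linarith) (by linarith)
  rw [Real.cos_sub_pi, abs_neg, abs_sub_comm] at this
  have e : θ - Real.pi - Real.pi / 2 = θ - 3 * Real.pi / 2 := by ring
  rwa [e] at this

lemma good_of_dist {θ d : ℝ} (h : 2 / Real.pi * d ≤ |Real.cos θ|) (hd : Real.pi / 512 ≤ d) :
    1 / 256 ≤ |Real.cos θ| := by
  have hpi := Real.pi_pos
  have : 2 / Real.pi * (Real.pi / 512) ≤ 2 / Real.pi * d :=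
    mul_le_mul_of_nonneg_left hd (by positivity)
  have e : 2 / Real.pi * (Real.pi / 512) = 1 / 256 := by field_simp; norm_num
  linarith

/-- **The sign lemma.** -/
theorem sign {k : ℝ → ℝ} {δ σ ρ : ℝ} (hδ0 : 0 < δ) (hδ : δ ≤ 1 / 10)
    (hσ : |σ| = 1) (hk : ∀ x, |x| ≤ 1 → |k x| ≤ δ) (hρ0 : 0 < ρ) (hρ : 2 * ρ ≤ 1)
    (hks : ∀ x, ρ / 512 ≤ |x| → |x| ≤ 2 * ρ → δ / 2 ≤ σ * k x) {u : ℝ → ℝ}
    (hu : ∀ θ ∈ Icc 0 (2 * Real.pi), HasDerivWithinAt u (rhs k θ (u θ)) (Icc 0 (2 * Real.pi)) θ)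
    (h0 : u 0 = Real.log ρ) : 0 < σ * u (2 * Real.pi) - σ * u 0 := by
  have hpi := Real.pi_gt_three
  have hpi' := Real.pi_lt_d2
  have hbd : ∀ θ v, |rhs k θ v| ≤ 20 / 19 * δ := abs_rhs_le hk hδ
  have hall : ∀ θ, -(20 / 19 * δ) ≤ σ * rhs k θ (u θ) := by
    intro θ
    have h1 := neg_abs_le (σ * rhs k θ (u θ))
    rw [abs_mul, hσ, one_mul] at h1
    linarith [hbd θ (u θ)]
  -- u stays close to log ρ
  have hclose : ∀ θ ∈ Icc 0 (2 * Real.pi), |u θ - Real.log ρ| ≤ Real.log 2 := by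
    intro θ hθ
    have h1 := (convex_Icc 0 (2 * Real.pi)).norm_image_sub_le_of_norm_hasDerivWithin_le
      (f := u) (f' := fun θ => rhs k θ (u θ)) (C := 20 / 19 * δ) hu
      (fun x _ => by rw [Real.norm_eq_abs]; exact hbd x _) (left_mem_Icc.2 (by linarith)) hθ
    rw [h0, Real.norm_eq_abs, Real.norm_eq_abs, sub_zero, abs_of_nonneg hθ.1] at h1
    have h2 : 20 / 19 * δ * θ ≤ 20 / 19 * (1 / 10) * (2 * 3.15) := by
      apply mul_le_mul _ _ hθ.1 (by norm_num)
      · linarith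
      · linarith [hθ.2]
    have h3 := Real.log_two_gt_d9
    norm_num at h2 h3 ⊢
    linarith
  have hmin : ∀ θ ∈ Icc 0 (2 * Real.pi), min (u θ) 0 = u θ := by
    intro θ hθ
    have h1 := (abs_le.1 (hclose θ hθ)).2
    have h2 : Real.log ρ + Real.log 2 ≤ 0 := by
      rw [← Real.log_mul hρ0.ne' (by norm_num)]
      exact Real.log_nonpos (by positivity) (by linarith)
    exact min_eq_left (by linarith)
  have hexp : ∀ θ ∈ Icc 0 (2 * Real.pi), ρ / 2 ≤ Real.exp (u θ) ∧ Real.exp (u θ) ≤ 2 * ρ := by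
    intro θ hθ
    obtain ⟨h1, h2⟩ := abs_le.1 (hclose θ hθ)
    constructor
    · rw [← Real.log_le_iff_le_exp (by positivity), Real.log_div hρ0.ne' (by norm_num)]
      linarith
    · rw [← Real.le_log_iff_exp_le (by positivity), mul_comm, Real.log_mul hρ0.ne' (by norm_num)]
      linarith
  have hgood : ∀ θ ∈ Icc 0 (2 * Real.pi), 1 / 256 ≤ |Real.cos θ| →
      δ * (10 / 21) * Real.sin θ ^ 2 ≤ σ * rhs k θ (u θ) := by
    intro θ hθ hcos
    obtain ⟨h1, h2⟩ := hexp θ hθ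
    have hcos1 := Real.abs_cos_le_one θ
    set X := Real.exp (min (u θ) 0) * Real.cos θ with hX
    have hXe : |X| = Real.exp (u θ) * |Real.cos θ| := by
      rw [hX, hmin θ hθ, abs_mul, abs_of_pos (Real.exp_pos _)]
    have h3 : ρ / 512 ≤ |X| := by
      rw [hXe]
      have := mul_le_mul h1 hcos (by norm_num) (Real.exp_pos _).le
      linarith
    have h4 : |X| ≤ 2 * ρ := by
      rw [hXe]
      have := mul_le_mul h2 hcos1 (abs_nonneg _) (by linarith)
      linarith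
    have h5 := hks X h3 h4
    have hk1 : |k X| ≤ 1 / 10 := (hk X (by linarith)).trans hδ
    have h6 := den_ge (θ := θ) hk1
    have h7 : 1 + k X * (Real.cos θ * Real.sin θ) ≤ 21 / 20 := by
      have h8 : |k X * (Real.cos θ * Real.sin θ)| ≤ 1 / 10 * (1 / 2) := by
        rw [abs_mul]
        exact mul_le_mul hk1 (abs_cs θ) (abs_nonneg _) (by norm_num)
      have := le_abs_self (k X * (Real.cos θ * Real.sin θ))
      linarith
    have e1 : σ * rhs k θ (u θ) = (σ * k X) * Real.sin θ ^ 2 /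
        (1 + k X * (Real.cos θ * Real.sin θ)) := by
      unfold rhs phi
      rw [← hX]
      ring
    rw [e1, le_div_iff₀ (by linarith)]
    have hs := sq_nonneg (Real.sin θ)
    have h9 : δ / 2 * Real.sin θ ^ 2 ≤ σ * k X * Real.sin θ ^ 2 :=
      mul_le_mul_of_nonneg_right h5 hs
    have h10 : δ * (10 / 21) * Real.sin θ ^ 2 * (1 + k X * (Real.cos θ * Real.sin θ)) ≤
        δ * (10 / 21) * Real.sin θ ^ 2 * (21 / 20) :=
      mul_le_mul_of_nonneg_left h7 (by positivity)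
    linarith
  have hgood0 : ∀ θ ∈ Icc 0 (2 * Real.pi), 1 / 256 ≤ |Real.cos θ| → 0 ≤ σ * rhs k θ (u θ) := by
    intro θ hθ hc
    refine le_trans ?_ (hgood θ hθ hc)
    positivity
  -- the pieces
  have p1 := piece (σ := σ) (C := 0) (a := 0) (b := Real.pi / 6) hu le_rfl (by linarith)
    (by linarith) (fun θ hθ => hgood0 θ ⟨by linarith [hθ.1], by linarith [hθ.2]⟩
      (good_of_dist (cos_low1 (by linarith [hθ.1]) (by linarith [hθ.2]))
        (by rw [abs_of_nonneg (by linarith [hθ.2])]; linarith [hθ.2])))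
  have p2 := piece (σ := σ) (C := δ * (10 / 21) * (1 / 4)) (a := Real.pi / 6) (b := Real.pi / 3) hu
    (by linarith) (by linarith)
    (by linarith) (fun θ hθ => by
      refine le_trans ?_ (hgood θ ⟨by linarith [hθ.1], by linarith [hθ.2]⟩
        (good_of_dist (cos_low1 (by linarith [hθ.1]) (by linarith [hθ.2]))
        (by rw [abs_of_nonneg (by linarith [hθ.2])]; linarith [hθ.2])))
      have h1 : Real.sin (Real.pi / 6) ≤ Real.sin θ :=
        Real.sin_le_sin_of_le_of_le_pi_div_two (by linarith) (by linarith [hθ.2])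
          (by linarith [hθ.1])
      rw [Real.sin_pi_div_six] at h1
      have h2 : (1:ℝ) / 4 ≤ Real.sin θ ^ 2 := by nlinarith
      exact mul_le_mul_of_nonneg_left h2 (by positivity))
  have p3 := piece (σ := σ) (C := 0) (a := Real.pi / 3) (b := Real.pi / 2 - Real.pi / 512) hu
    (by linarith) (by linarith)
    (by linarith) (fun θ hθ => hgood0 θ ⟨by linarith [hθ.1], by linarith [hθ.2]⟩
      (good_of_dist (cos_low1 (by linarith [hθ.1]) (by linarith [hθ.2]))
        (by rw [abs_of_nonneg (by linarith [hθ.2])]; linarith [hθ.2])))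
  have p4 := piece (σ := σ) (C := -(20 / 19 * δ)) (a := Real.pi / 2 - Real.pi / 512)
    (b := Real.pi / 2 + Real.pi / 512) hu (by linarith) (by linarith) (by linarith)
    (fun θ _ => hall θ)
  have p5 := piece (σ := σ) (C := 0) (a := Real.pi / 2 + Real.pi / 512) (b := Real.pi) hu
    (by linarith) (by linarith)
    (by linarith) (fun θ hθ => hgood0 θ ⟨by linarith [hθ.1], by linarith [hθ.2]⟩
      (good_of_dist (cos_low1 (by linarith [hθ.1]) (by linarith [hθ.2]))
        (by rw [abs_of_nonpos (by linarith [hθ.1])]; linarith [hθ.1])))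
  have p6 := piece (σ := σ) (C := 0) (a := Real.pi) (b := 3 * Real.pi / 2 - Real.pi / 512) hu
    (by linarith) (by linarith)
    (by linarith) (fun θ hθ => hgood0 θ ⟨by linarith [hθ.1], by linarith [hθ.2]⟩
      (good_of_dist (cos_low2 (by linarith [hθ.1]) (by linarith [hθ.2]))
        (by rw [abs_of_nonpos (by linarith [hθ.2])]; linarith [hθ.2])))
  have p7 := piece (σ := σ) (C := -(20 / 19 * δ)) (a := 3 * Real.pi / 2 - Real.pi / 512)
    (b := 3 * Real.pi / 2 + Real.pi / 512) hu (by linarith) (by linarith) (by linarith)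
    (fun θ _ => hall θ)
  have p8 := piece (σ := σ) (C := 0) (a := 3 * Real.pi / 2 + Real.pi / 512) (b := 2 * Real.pi) hu
    (by linarith) (by linarith)
    (by linarith) (fun θ hθ => hgood0 θ ⟨by linarith [hθ.1], by linarith [hθ.2]⟩
      (good_of_dist (cos_low2 (by linarith [hθ.1]) (by linarith [hθ.2]))
        (by rw [abs_of_nonneg (by linarith [hθ.1])]; linarith [hθ.1])))
  have hδpi := mul_pos hδ0 (show 0 < Real.pi by linarith)
  have e2 : δ * (10 / 21) * (1 / 4) * (Real.pi / 3 - Real.pi / 6) = (10 / 504) * (δ * Real.pi) := by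
    ring
  have e4 : -(20 / 19 * δ) * (Real.pi / 2 + Real.pi / 512 - (Real.pi / 2 - Real.pi / 512)) =
      -(20 / (19 * 256)) * (δ * Real.pi) := by ring
  have e7 : -(20 / 19 * δ) * (3 * Real.pi / 2 + Real.pi / 512 - (3 * Real.pi / 2 - Real.pi / 512)) =
      -(20 / (19 * 256)) * (δ * Real.pi) := by ring
  rw [e2] at p2
  rw [e4] at p4
  rw [e7] at p7
  norm_num at p1 p2 p3 p4 p5 p6 p7 p8 ⊢
  linarith

end Pool.Agent.K9h2.LI
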