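import Pool.Agent.K9h2.LI.Meas

/-! Lower bound for the size of a loop, whatever the friction. -/

open Set Filter Topology MeasureTheory

namespace Pool.Agent.K9h2.LI

variable {g h : ℝ → ℝ} {f : ℝ → ℝ} {μ μ1 μ2 l r l1 r1 l2 r2 Λ : ℝ} {U L U1 L1 U2 L2 : ℝ → ℝ}

/-- the vertical width of a loop -/
lemma Loop.width_right (hg : Rest g) (G : Loop g f μ l r U L) {x : ℝ} (hx : x ∈ Icc 0 r) :
    8 * (pot g r - pot g x) ≤ (U x + L x) ^ 2 := by
  have hl := G.up.hl
  have hsub : Icc (0:ℝ) r ⊆ Icc l r := Icc_subset_Icc hl.le le_rfl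
  have hpc := hg.pot_cont
  have hcU : ContinuousOn U (Icc 0 r) := G.up.cont.mono hsub
  have hcL : ContinuousOn L (Icc 0 r) := G.lo.cont.mono hsub
  have hd : ∀ x ∈ Ioo 0 r, HasDerivAt (fun x => (U x + L x) ^ 2 + 8 * pot g x)
      (2 * (U x + L x) * ((-(f x + μ) - g x / U x) + (-(-(f x + μ)) - g x / L x)) + 8 * g x) x := by
    intro x hx
    have hx' : x ∈ Ioo l r := ⟨hl.trans hx.1, hx.2⟩
    have e1 := ((G.up.der x hx').add (G.lo.der x hx')).pow 2
    have e2 := (hg.hasDerivAt x).const_mul 8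
    refine (e1.add e2).congr_deriv ?_
    simp
  have hanti : AntitoneOn (fun x => (U x + L x) ^ 2 + 8 * pot g x) (Icc 0 r) := by
    refine antitoneOn_of_deriv_nonpos (convex_Icc _ _) ?_ ?_ ?_
    · exact ((hcU.add hcL).pow 2).add (by fun_prop)
    · intro x hx
      rw [interior_Icc] at hx
      exact (hd x hx).differentiableAt.differentiableWithinAt
    · intro x hx
      rw [interior_Icc] at hx
      rw [(hd x hx).deriv]
      have hx' : x ∈ Ioo l r := ⟨hl.trans hx.1, hx.2⟩
      have e1 := G.up.pos x hx'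
      have e2 := G.lo.pos x hx'
      have e3 := hg.pos x hx.1
      have e4 : 2 * (U x + L x) * ((-(f x + μ) - g x / U x) + (-(-(f x + μ)) - g x / L x)) +
          8 * g x = -(2 * g x * (U x - L x) ^ 2 / (U x * L x)) := by
        field_simp
        ring
      rw [e4]
      have : 0 ≤ 2 * g x * (U x - L x) ^ 2 / (U x * L x) := by positivity
      linarith
  have := hanti hx ⟨hx.1.trans hx.2, le_rfl⟩ hx.2
  simp only [G.up.right, G.lo.right] at this
  norm_num at this
  linarith

lemma pot_refl (g : ℝ → ℝ) (x : ℝ) : pot (fun x => -g (-x)) x = pot g (-x) := by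
  unfold pot
  rw [intervalIntegral.integral_neg, intervalIntegral.integral_comp_neg]
  rw [neg_zero, intervalIntegral.integral_symm, neg_neg]

lemma Loop.width_left (hg : Rest g) (G : Loop g f μ l r U L) {x : ℝ} (hx : x ∈ Icc l 0) :
    8 * (pot g l - pot g x) ≤ (U x + L x) ^ 2 := by
  have := G.refl.width_right hg.refl (x := -x) ⟨by linarith [hx.2], by linarith [hx.1]⟩
  rw [pot_refl, pot_refl] at this
  simpa using this

lemma psi_ge {a b u v : ℝ} (ha : 0 ≤ a) (hb : 0 < b) (hab : 2 * a ≤ b) (hu : 0 < u) (hv : 0 < v)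
    (h : 8 * (b - a) ≤ (u + v) ^ 2) : 7 / 10 ≤ psi (2 * a) u + psi (2 * a) v := by
  have hz : 0 ≤ 2 * a := by linarith
  set s := √(2 * (b - a)) with hs
  have hs2 : s ^ 2 = 2 * (b - a) := Real.sq_sqrt (by linarith)
  have hspos : 0 < s := Real.sqrt_pos.2 (by linarith)
  have hsuv : 2 * s ≤ u + v := by
    by_contra hcon
    push Not at hcon
    nlinarith
  have key : 7 / 10 ≤ psi (2 * a) s := by
    unfold psi
    have e1 : 2 * a + s ^ 2 = 2 * b := by rw [hs2]; ring
    rw [e1, le_div_iff₀ (Real.sqrt_pos.2 (by linarith))]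
    have e2 : (7 / 10 * √(2 * b)) ^ 2 ≤ s ^ 2 := by
      rw [mul_pow, Real.sq_sqrt (by linarith), hs2]
      linarith
    exact le_of_sq_le_sq e2 hspos.le
  rcases le_total u v with huv | huv
  · have h1 := psi_mono hz hspos (show s ≤ v by linarith)
    have h2 := psi_nonneg (z := 2 * a) hu.le
    linarith
  · have h1 := psi_mono hz hspos (show s ≤ u by linarith)
    have h2 := psi_nonneg (z := 2 * a) hv.le
    linarith

/-- the size is at least a constant times the width, if the potential doubles -/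
lemma Loop.size_ge (hg : Rest g) (G : Loop g f μ l r U L) {l' r' : ℝ} (hl : l < l')
    (hl0 : l' ≤ 0) (hr0 : 0 ≤ r') (hr : r' < r) (hl' : 2 * pot g l' ≤ pot g l)
    (hr' : 2 * pot g r' ≤ pot g r) : 7 / 10 * (r' - l') ≤ size g l r U L := by
  have hdens : ∀ x ∈ Icc l' r', 7 / 10 ≤ dens g l r U L x := by
    intro x hx
    have hx' : x ∈ Ioo l r := ⟨hl.trans_le hx.1, hx.2.trans_lt hr⟩
    unfold dens
    rw [indicator_of_mem (Ioo_subset_Icc_self hx')]
    rcases le_total 0 x with h0 | h0
    · have h1 : pot g x ≤ pot g r' := hg.strictMonoOn.monotoneOn (mem_Ici.2 h0) (mem_Ici.2 hr0) hx.2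
      exact psi_ge (hg.pot_nonneg x) (hg.pot_pos G.up.hr.ne') (by linarith)
        (G.up.pos x hx') (G.lo.pos x hx') (G.width_right hg ⟨h0, hx'.2.le⟩)
    · have h1 : pot g x ≤ pot g l' := hg.strictAntiOn.antitoneOn (mem_Iic.2 hl0) (mem_Iic.2 h0) hx.1
      exact psi_ge (hg.pot_nonneg x) (hg.pot_pos G.up.hl.ne) (by linarith)
        (G.up.pos x hx') (G.lo.pos x hx') (G.width_left hg ⟨hx'.1.le, h0⟩)
  have key : ∫ x, (Icc l' r').indicator (fun _ => (7 / 10 : ℝ)) x ≤ size g l r U L := by
    refine integral_mono ?_ (G.integrable' hg) ?_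
    · rw [integrable_indicator_iff measurableSet_Icc]
      exact continuous_const.continuousOn.integrableOn_Icc
    · intro x
      by_cases hx : x ∈ Icc l' r'
      · simp only
        rw [indicator_of_mem hx]
        exact hdens x hx
      · simp only
        rw [indicator_of_notMem hx]
        exact G.dens_nonneg hg x
  rw [integral_indicator measurableSet_Icc, integral_Icc_eq_integral_Ioc,
    ← intervalIntegral.integral_of_le (by linarith), intervalIntegral.integral_const,
    smul_eq_mul] at key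
  linarith

end Pool.Agent.K9h2.LI
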