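import Pool.Agent.K9h2.LI.Flow

/-! Closed orbits are loops. -/

open Set Filter Topology

namespace Pool.Agent.K9h2.LI

variable {g h : ℝ → ℝ} {a r r1 r2 a1 a2 b1 b2 : ℝ} {U1 U2 L1 L2 : ℝ → ℝ}

lemma arc_eq (hg : Rest g) (hc : Continuous h) (A1 : Arc g h a r1 U1) (A2 : Arc g h a r2 U2) :
    r1 = r2 ∧ ∀ x ∈ Icc a r1, U1 x = U2 x := by
  have key : ∀ x, a < x → x < min r1 r2 → U1 x = U2 x := fun x h1 h2 =>
    le_antisymm (Arc.end_left hg A2 A1 (fun _ => le_rfl) hc hc h1 (by rwa [min_comm]))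
      (Arc.end_left hg A1 A2 (fun _ => le_rfl) hc hc h1 h2)
  have aux : ∀ {r1 r2 : ℝ} {U1 U2 : ℝ → ℝ}, Arc g h a r1 U1 → Arc g h a r2 U2 →
      (∀ x, a < x → x < min r1 r2 → U1 x = U2 x) → ¬ r1 < r2 := by
    intro r1 r2 U1 U2 A1 A2 key hlt
    rw [min_eq_left hlt.le] at key
    have ha1 := A1.hl
    have hr1 := A1.hr
    have e1 : ContinuousWithinAt U1 (Icc 0 r1) r1 :=
      (A1.cont r1 ⟨(ha1.trans hr1).le, le_rfl⟩).mono (Icc_subset_Icc ha1.le le_rfl)
    have e2 : ContinuousWithinAt U2 (Icc 0 r1) r1 :=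
      (A2.cont r1 ⟨(ha1.trans hr1).le, hlt.le⟩).mono (Icc_subset_Icc ha1.le hlt.le)
    have e3 : U1 r1 < U2 r1 := by
      rw [A1.right]
      exact A2.pos r1 ⟨ha1.trans hr1, hlt⟩
    obtain ⟨u, hu1, hu2, hu3⟩ := ev_lt_right hr1 e1 e2 e3
    have h5 := hu3 ((r1 + u) / 2) (by linarith) (by linarith)
    have h6 := key ((r1 + u) / 2) (by linarith) (by linarith)
    linarith
  have hr : r1 = r2 := by
    rcases lt_trichotomy r1 r2 with h | h | h
    · exact absurd h (aux A1 A2 key)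
    · exact h
    · exact absurd h (aux A2 A1 (by
        rw [min_comm]; exact fun x h1 h2 => (key x h1 h2).symm))
  subst hr
  rw [min_self] at key
  refine ⟨rfl, fun x hx => ?_⟩
  rcases hx.1.lt_or_eq with h | h
  · rcases hx.2.lt_or_eq with h' | h'
    · exact key x h h'
    · rw [h', A1.right, A2.right]
  · rw [← h, A1.left, A2.left]

lemma arc_eq' (hg : Rest g) (hc : Continuous h) (A1 : Arc g h b1 r U1) (A2 : Arc g h b2 r U2) :
    b1 = b2 ∧ ∀ x ∈ Icc b1 r, U1 x = U2 x := by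
  obtain ⟨h1, h2⟩ := arc_eq hg.refl (hc.comp continuous_neg).neg A1.refl A2.refl
  refine ⟨by linarith, fun x hx => ?_⟩
  have := h2 (-x) ⟨by linarith [hx.2], by linarith [hx.1]⟩
  simpa using this

/-- a turn which starts closer to the origin stays inside -/
lemma arcs_lt (hg : Rest g) (hc : Continuous h) (A1 : Arc g h a1 r1 U1) (B1 : Arc g (fun y => -h y) b1 r1 L1)
    (A2 : Arc g h a2 r2 U2) (B2 : Arc g (fun y => -h y) b2 r2 L2) (hlt : a2 < a1) :
    r1 < r2 ∧ b2 < b1 := by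
  have ha1 := A1.hl
  have ha2 := A2.hl
  have hr1 := A1.hr
  have hr2 := A2.hr
  have hb1 := B1.hl
  have hb2 := B2.hl
  have hr : r1 < r2 := by
    have e1 : ContinuousWithinAt U1 (Icc a1 0) a1 :=
      (A1.cont a1 ⟨le_rfl, (ha1.trans hr1).le⟩).mono (Icc_subset_Icc le_rfl hr1.le)
    have e2 : ContinuousWithinAt U2 (Icc a1 0) a1 :=
      (A2.cont a1 ⟨hlt.le, (ha1.trans hr2).le⟩).mono (Icc_subset_Icc hlt.le hr2.le)
    have e3 : U1 a1 < U2 a1 := by
      rw [A1.left]
      exact A2.pos a1 ⟨hlt, ha1.trans hr2⟩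
    obtain ⟨u, hu1, hu2, hu3⟩ := ev_lt_left ha1 e1 e2 e3
    have h5 := hu3 ((a1 + u) / 2) (by linarith) (by linarith)
    exact (Arc.right_lt hg A1 A2 (fun _ => le_rfl) hc hc (x0 := (a1 + u) / 2)
      (by rw [max_eq_left hlt.le]; linarith) (lt_min (by linarith) (by linarith)) h5).1
  refine ⟨hr, ?_⟩
  have e1 : ContinuousWithinAt L1 (Icc 0 r1) r1 :=
    (B1.cont r1 ⟨(hb1.trans hr1).le, le_rfl⟩).mono (Icc_subset_Icc hb1.le le_rfl)
  have e2 : ContinuousWithinAt L2 (Icc 0 r1) r1 :=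
    (B2.cont r1 ⟨(hb2.trans hr1).le, hr.le⟩).mono (Icc_subset_Icc hb2.le hr.le)
  have e3 : L1 r1 < L2 r1 := by
    rw [B1.right]
    exact B2.pos r1 ⟨hb2.trans hr1, hr⟩
  obtain ⟨u, hu1, hu2, hu3⟩ := ev_lt_right hr1 e1 e2 e3
  have h5 := hu3 ((r1 + u) / 2) (by linarith) (by linarith)
  exact (Arc.left_lt hg B1 B2 (fun _ => le_rfl) hc.neg hc.neg (x0 := (r1 + u) / 2)
    (max_lt (by linarith) (by linarith)) (by rw [min_eq_left hr.le]; linarith) h5).1

variable {x v : ℝ → ℝ} {T : ℝ}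

/-- the curve of two arcs -/
def curve (l r : ℝ) (U L : ℝ → ℝ) : Set (ℝ × ℝ) :=
  (fun y => (y, U y)) '' Icc l r ∪ (fun y => (y, -L y)) '' Icc l r

lemma Sol.min_time (hg : Rest g) (S : Sol g h x v T) : ∃ z, v z = 0 ∧ x z < 0 ∧ ∀ t, x z ≤ x t := by
  obtain ⟨z, hz, hmin⟩ := (isCompact_Icc (a := (0:ℝ)) (b := T)).exists_isMinOn
    ⟨0, left_mem_Icc.2 S.hT.le⟩ S.contx.continuousOn
  have hglob : ∀ t, x z ≤ x t := by
    intro t
    have hper : Function.Periodic x T := S.px
    obtain ⟨y, hy, hty⟩ := hper.exists_mem_Ico₀ S.hT t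
    rw [hty]
    exact hmin ⟨hy.1, hy.2.le⟩
  have hv0 : v z = 0 := by
    have h1 : IsLocalMin x z := Filter.Eventually.of_forall hglob
    exact h1.hasDerivAt_eq_zero (S.hx z)
  refine ⟨z, hv0, ?_, hglob⟩
  by_contra hcon
  push Not at hcon
  have hx0 : 0 < x z := lt_of_le_of_ne hcon (S.ne z hv0).symm
  have hd : HasDerivAt (fun t => -v t) (g (x z)) z := by
    have := (S.hv z).neg
    rw [hv0, mul_zero, sub_zero, neg_neg] at this
    exact this
  obtain ⟨u, hu, hu2⟩ := pos_right hd (by rw [hv0, neg_zero]) (hg.pos _ hx0)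
  have hsa : StrictAntiOn x (Icc z ((z + u) / 2)) := by
    refine strictAntiOn_of_deriv_neg (convex_Icc _ _) S.contx.continuousOn fun t ht => ?_
    rw [interior_Icc] at ht
    rw [(S.hx t).deriv]
    have := hu2 t ⟨ht.1, by linarith [ht.2]⟩
    linarith
  have := hsa ⟨le_rfl, by linarith⟩ ⟨by linarith, le_rfl⟩ (show z < (z + u) / 2 by linarith)
  linarith [hglob ((z + u) / 2)]

/-- there is a turn which starts and ends at the point with the least abscissa -/
lemma Sol.main_turn (hg : Rest g) (S : Sol g h x v T) (hc : Continuous h) :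
    ∃ t0 t1 t2 U L, Turn g h x v t0 t1 t2 U L ∧ x t0 = x t2 ∧ ∀ t, x t0 ≤ x t := by
  obtain ⟨z, hvz, hxz, hmin⟩ := Sol.min_time hg S
  obtain ⟨s0, s1, U1, L1, hs0, R1⟩ := Sol.prev hg S hvz hxz
  obtain ⟨t1, t2, U2, L2, R2⟩ := Sol.next hg S hvz hxz
  rcases (hmin s0).lt_or_eq with hlt | heq
  · have := arcs_lt hg hc R1.up R1.lo R2.up R2.lo hlt
    linarith [hmin t2]
  · exact ⟨s0, s1, z, U1, L1, R1, heq.symm, fun t => heq ▸ hmin t⟩

/-- all turns start at the same point -/
lemma Sol.start_eq (hg : Rest g) (S : Sol g h x v T) (hc : Continuous h) {t0 t1 t2 : ℝ} {U L : ℝ → ℝ}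
    (R : Turn g h x v t0 t1 t2 U L) (heq : x t0 = x t2) (hmin : ∀ t, x t0 ≤ x t) {z : ℝ}
    (hvz : v z = 0) (hxz : x z < 0) : x z = x t0 := by
  by_contra hne
  have hlt : x t0 < x z := lt_of_le_of_ne (hmin z) (Ne.symm hne)
  have hper : ∀ n : ℕ, ∀ t, x (t + n * T) = x t ∧ v (t + n * T) = v t := by
    intro n
    induction n with
    | zero => intro t; simp
    | succ n ih =>
      intro t
      have : t + ((n + 1 : ℕ) : ℝ) * T = (t + n * T) + T := by push_cast; ring
      rw [this, S.px, S.pv]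
      exact ih t
  set A : Set ℝ := {t | z ≤ t ∧ v t = 0 ∧ x t = x t0} with hA
  have hAc : IsClosed A := by
    have h1 : IsClosed {t : ℝ | z ≤ t} := isClosed_Ici
    have h2 : IsClosed {t : ℝ | v t = 0} := isClosed_eq S.contv continuous_const
    have h3 : IsClosed {t : ℝ | x t = x t0} := isClosed_eq S.contx continuous_const
    exact h1.inter (h2.inter h3)
  have hAne : A.Nonempty := by
    obtain ⟨n, hn⟩ := exists_nat_gt ((z - t0) / T)
    rw [div_lt_iff₀ S.hT] at hn
    refine ⟨t0 + n * T, by linarith, ?_, ?_⟩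
    · rw [(hper n t0).2, R.v0]
    · exact (hper n t0).1
  have hAb : BddBelow A := ⟨z, fun t ht => ht.1⟩
  have hmem := hAc.csInf_mem hAne hAb
  set w := sInf A with hw
  have hwz : z < w := by
    rcases hmem.1.lt_or_eq with h | h
    · exact h
    · exfalso; apply hne; rw [h]; exact hmem.2.2
  obtain ⟨s0, s1, U1, L1, hs0, R1⟩ := Sol.prev hg S hmem.2.1 (by rw [hmem.2.2]; exact R.up.hl)
  have hzs : z ≤ s0 := by
    by_contra hcon
    push Not at hcon
    rcases lt_trichotomy z s1 with h | h | h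
    · have := R1.pos z ⟨hcon, h⟩
      linarith
    · have h3 := R1.up.hr
      rw [← h] at h3
      linarith
    · have := R1.neg z ⟨h, hwz⟩
      linarith
  have hs0' : x t0 < x s0 := by
    refine lt_of_le_of_ne (hmin s0) fun h => ?_
    have : s0 ∈ A := ⟨hzs, R1.v0, h.symm⟩
    have h1 := csInf_le hAb this
    have h2 : s0 < w := R1.h01.trans R1.h12
    linarith
  have := arcs_lt hg hc R1.up R1.lo R.up R.lo hs0'
  linarith [this.2, hmem.2.2]

/-- **Closed orbits are loops.** -/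
theorem Sol.exists_arcs (hg : Rest g) (S : Sol g h x v T) (hc : Continuous h) :
    ∃ l r U L, Arc g h l r U ∧ Arc g (fun y => -h y) l r L ∧
      range (fun t => (x t, v t)) = curve l r U L := by
  obtain ⟨t0, t1, t2, U, L, R, heq, hmin⟩ := Sol.main_turn hg S hc
  have hlo := R.lo
  rw [← heq] at hlo
  refine ⟨x t0, x t1, U, L, R.up, hlo, ?_⟩
  have hper : ∀ n : ℕ, ∀ t, x (t + n * T) = x t ∧ v (t + n * T) = v t := by
    intro n
    induction n with
    | zero => intro t; simp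
    | succ n ih =>
      intro t
      have : t + ((n + 1 : ℕ) : ℝ) * T = (t + n * T) + T := by push_cast; ring
      rw [this, S.px, S.pv]
      exact ih t
  apply Subset.antisymm
  · rintro _ ⟨t, rfl⟩
    -- the last start before t
    set A : Set ℝ := {s | s ≤ t ∧ v s = 0 ∧ x s = x t0} with hA
    have hAc : IsClosed A := by
      have h1 : IsClosed {s : ℝ | s ≤ t} := isClosed_Iic
      have h2 : IsClosed {t : ℝ | v t = 0} := isClosed_eq S.contv continuous_const
      have h3 : IsClosed {t : ℝ | x t = x t0} := isClosed_eq S.contx continuous_const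
      exact h1.inter (h2.inter h3)
    have hAne : A.Nonempty := by
      obtain ⟨n, hn⟩ := exists_nat_gt ((t0 - t) / T)
      rw [div_lt_iff₀ S.hT] at hn
      have h1 := hper n (t0 - n * T)
      rw [sub_add_cancel] at h1
      exact ⟨t0 - n * T, by linarith, by rw [← h1.2, R.v0], h1.1.symm⟩
    have hAb : BddAbove A := ⟨t, fun s hs => hs.1⟩
    have hmem := hAc.csSup_mem hAne hAb
    set z := sSup A with hz
    have hxz : x z < 0 := by rw [hmem.2.2]; exact R.up.hl
    obtain ⟨z1, z2, U', L', R'⟩ := Sol.next hg S hmem.2.1 hxz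
    have hz2 : x z2 = x t0 := Sol.start_eq hg S hc R heq hmin R'.v2 R'.lo.hl
    have htz2 : t < z2 := by
      by_contra hcon
      push Not at hcon
      have : z2 ∈ A := ⟨hcon, R'.v2, hz2⟩
      linarith [le_csSup hAb this, R'.h01, R'.h12]
    have hup := R'.up
    rw [hmem.2.2] at hup
    obtain ⟨e1, e2⟩ := arc_eq hg hc hup R.up
    have hlo' := R'.lo
    rw [hz2, e1] at hlo'
    obtain ⟨-, e4⟩ := arc_eq' hg hc.neg hlo' hlo
    rcases le_total t z1 with h | h
    · left
      have h1 : x t ∈ Icc (x t0) (x z1) := by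
        have hm : MonotoneOn x (Icc z z1) := by
          refine monotoneOn_of_deriv_nonneg (convex_Icc _ _) S.contx.continuousOn
            (fun t _ => (S.hx t).differentiableAt.differentiableWithinAt) fun t ht => ?_
          rw [interior_Icc] at ht
          rw [(S.hx t).deriv]
          exact (R'.pos t ht).le
        refine ⟨hmin t, hm ⟨hmem.1, h⟩ ⟨R'.h01.le, le_rfl⟩ h⟩
      refine ⟨x t, by rwa [← e1], ?_⟩
      simp only
      rw [← e2 _ h1, R'.eU t ⟨hmem.1, h⟩]
    · right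
      have h1 : x t ∈ Icc (x t0) (x t1) := by
        have hm : AntitoneOn x (Icc z1 z2) := by
          refine antitoneOn_of_deriv_nonpos (convex_Icc _ _) S.contx.continuousOn
            (fun t _ => (S.hx t).differentiableAt.differentiableWithinAt) fun t ht => ?_
          rw [interior_Icc] at ht
          rw [(S.hx t).deriv]
          exact (R'.neg t ht).le
        refine ⟨hmin t, ?_⟩
        rw [← e1]
        exact hm ⟨le_rfl, R'.h12.le⟩ ⟨h, htz2.le⟩ h
      refine ⟨x t, h1, ?_⟩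
      simp only
      rw [← e4 _ h1, R'.eL t ⟨h, htz2.le⟩, neg_neg]
  · rintro _ (⟨y, hy, rfl⟩ | ⟨y, hy, rfl⟩)
    · obtain ⟨t, ht, hty⟩ := intermediate_value_Icc R.h01.le S.contx.continuousOn hy
      refine ⟨t, ?_⟩
      simp only
      rw [← hty, R.eU t ht]
    · rw [heq] at hy
      obtain ⟨t, ht, hty⟩ := intermediate_value_Icc' R.h12.le S.contx.continuousOn hy
      refine ⟨t, ?_⟩
      simp only
      rw [← hty, R.eL t ht, neg_neg]

end Pool.Agent.K9h2.LI
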